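import Pool.Agent.Lib.MP_904526_H.Main
import Pool.Agent.Lib.MP_904526_E.HT
import Pool.Agent.Lib.MP_904526_E.N4

/-!
# The top exponent bounds the order of the stable curves
-/

set_option autoImplicit false

open Set Filter Topology MeasureTheory

namespace MH

open MD (E wt LimExp coc Sd leaf Dh Lh Ph hen Tame KK KM uu)
open ME (lp cx psi)

/-- the top exponent of `μ`: the infimum (by subadditivity also the limit) of `1/n` times the integral
of `log ‖D(f^n)‖`, `n ≥ 1` -/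
noncomputable def topExponent (c b : ℝ) (μ : Measure (ℝ × ℝ)) : ℝ :=
  sInf ((fun n : ℕ => (∫ x, Real.log ‖fderiv ℝ ((henonMap c b)^[n]) x‖ ∂μ) / (n : ℝ)) '' Ici 1)

theorem top_lim (c b : ℝ) (hb : b ≠ 0) (hb1 : |b| < 1) (μ : Measure (ℝ × ℝ)) [IsProbabilityMeasure μ]
    (hμ : MeasurePreserving (hen c b hb) μ μ) :
    LimExp (Dh b) (hen c b hb) μ (topExponent c b μ) := by
  obtain ⟨M, h⟩ := MD.hen_sys c b hb
  have hK := MD.kk_ae c b hb hb1 μ hμ
  have hsub := MD.c2_sub h μ hμ hK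
  have hlim := hsub.tendsto_lim (MD.c2_bdd h μ hK)
  have e : topExponent c b μ = hsub.lim := by
    unfold topExponent Subadditive.lim
    congr 1
    refine image_congr fun n _ => ?_
    show (∫ x, Real.log ‖fderiv ℝ ((henonMap c b)^[n]) x‖ ∂μ) / (n : ℝ) =
      (∫ x, uu (Dh b) (hen c b hb) n x ∂μ) / (n : ℝ)
    congr 1
    refine integral_congr_ae (Eventually.of_forall fun x => ?_)
    show Real.log ‖fderiv ℝ ((MD.henon c b)^[n]) x‖ = Real.log ‖coc (Dh b) (hen c b hb) n x‖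
    rw [MD.henon_fderiv c b hb n x]
  rw [e]
  exact hlim

theorem top_nonneg (c b : ℝ) (hb : b ≠ 0) (hb1 : |b| < 1) (μ : Measure (ℝ × ℝ)) [IsProbabilityMeasure μ]
    (hμ : Ergodic (hen c b hb) μ) (hs : ¬ ME.SupportedOnSink c b μ) : 0 ≤ topExponent c b μ := by
  obtain ⟨-, Λ, hΛ0, -, hΛ⟩ := ME.exps c b hb hb1 μ hμ hs
  have h1 := top_lim c b hb hb1 μ hμ.toMeasurePreserving
  have h2 : topExponent c b μ = Λ := tendsto_nhds_unique h1 hΛ
  rw [h2]
  exact hΛ0

theorem expo (c b : ℝ) (hb : b ≠ 0) (hb1 : |b| < 1) (μ : Measure (ℝ × ℝ)) [IsProbabilityMeasure μ]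
    (hμ : Ergodic (hen c b hb) μ) (hs : ¬ ME.SupportedOnSink c b μ) :
    ∀ᵐ x ∂μ, ∀ γ : ℝ → E, γ = leaf (Dh b) (Lh b) (Ph b) (hen c b hb) x →
      (Real.log (2 * |b|) < topExponent c b μ →
        ¬ (Bornology.IsBounded (γ '' Ioi 0) ∧ Bornology.IsBounded (γ '' Iio 0))) ∧
      (Real.log (4 * |b|) < topExponent c b μ →
        ¬ Bornology.IsBounded (γ '' Ioi 0) ∧ ¬ Bornology.IsBounded (γ '' Iio 0)) := by
  obtain ⟨f, hf⟩ : ∃ f : E ≃ₜ E, f = hen c b hb := ⟨_, rfl⟩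
  have hfe : Ergodic f μ := by rw [hf]; exact hμ
  have hfp : MeasurePreserving f μ μ := hfe.toMeasurePreserving
  obtain ⟨M, h⟩ := MD.hen_sys c b hb
  have hΛ0 := top_nonneg c b hb hb1 μ hμ hs
  have hΛ := top_lim c b hb hb1 μ hμ.toMeasurePreserving
  obtain ⟨Λ, hΛd⟩ : ∃ Λ : ℝ, Λ = topExponent c b μ := ⟨_, rfl⟩
  rw [← hΛd] at hΛ hΛ0
  rw [← hf] at h hΛ
  have hK : μ (KK c b hb)ᶜ = 0 := MD.kk_ae c b hb hb1 μ hμ.toMeasurePreserving
  have habs : 0 < |b| := abs_pos.mpr hb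
  have hlog : Real.log |b| < 0 := Real.log_neg habs hb1
  obtain ⟨χ, hχ⟩ : ∃ χ : ℝ, χ = Λ - Real.log |b| := ⟨_, rfl⟩
  have hχ0 : 0 < χ := by rw [hχ]; linarith
  have hεp : ∀ m : ℕ, 0 < χ / (10 * ((m : ℝ) + 1)) := fun m => by positivity
  have hεle : ∀ m : ℕ, χ / (10 * ((m : ℝ) + 1)) ≤ χ / 10 := fun m => by
    apply div_le_div_of_nonneg_left hχ0.le (by norm_num)
    have : (0 : ℝ) ≤ m := Nat.cast_nonneg m
    linarith
  have hε2 : ∀ m : ℕ, 5 * (χ / (10 * ((m : ℝ) + 1))) ≤ Λ - Real.log |b| := fun m => by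
    have := hεle m
    rw [← hχ]
    linarith
  have hε3 : ∀ m : ℕ, 2 * (χ / (10 * ((m : ℝ) + 1))) < 2 * Λ - Real.log |b| := fun m => by
    have := hεle m
    have h2 : χ ≤ 2 * Λ - Real.log |b| := by rw [hχ]; linarith
    linarith
  have hT : ∀ᵐ x ∂μ, ∀ m : ℕ, ∃ C : ℝ, Tame (fun k => Lh b (f^[k] x)) (Ph b)
      (fun k => coc (Dh b) f k x (Sd (Dh b) f x)) (1 / |b|) C χ (χ / (10 * ((m : ℝ) + 1))) := by
    rw [ae_all_iff]
    intro m
    have k1 := MD.tame_ae h μ hfe hK Λ hΛ _ (hεp m) (hε2 m) (hε3 m)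
    rw [← hχ] at k1
    exact k1
  have hE := MD.leaf_ae h μ hfe hK Λ hΛ _ (hεp 0) (hε2 0) (hε3 0)
  have hKae : ∀ᵐ x ∂μ, x ∈ KK c b hb := hK
  filter_upwards [hT, hE, hKae] with x hTx hEx hKx γ hγ
  rw [hf] at hTx hEx
  have hx0 : γ 0 = x := by rw [hγ]; exact hEx.zero
  have hinj : Function.Injective γ := by rw [hγ]; exact hEx.inj
  obtain ⟨C0, hC0⟩ := hTx 0
  have hψd : Differentiable ℂ (psi c b hb x) := (ME.psi_curve hC0).diff
  have hψr : ∀ t : ℝ, psi c b hb x (t : ℂ) = cx (γ t) := by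
    intro t
    rw [hγ]
    exact ME.psi_real hC0 t
  have hgr : ∀ a : ℝ, Real.log 2 / χ < a →
      ∃ C : ℝ, ∀ s : ℂ, lp ‖psi c b hb x s‖ ≤ C * (1 + ‖s‖) ^ a := by
    intro a ha
    have hl2 : 0 < Real.log 2 := Real.log_pos (by norm_num)
    have hlim : Tendsto (fun m : ℕ => Real.log 2 / (χ - 2 * (χ / (10 * ((m : ℝ) + 1))))) atTop
        (𝓝 (Real.log 2 / (χ - 2 * 0))) := by
      refine Tendsto.div tendsto_const_nhds ?_ (by simpa using hχ0.ne')
      refine tendsto_const_nhds.sub (Tendsto.const_mul 2 ?_)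
      have h1 : Tendsto (fun m : ℕ => (χ / 10) * (1 / ((m : ℝ) + 1))) atTop (𝓝 ((χ / 10) * 0)) :=
        tendsto_one_div_add_atTop_nhds_zero_nat.const_mul _
      rw [mul_zero] at h1
      refine h1.congr fun m => ?_
      field_simp
    rw [mul_zero, sub_zero] at hlim
    obtain ⟨m, hm⟩ := (hlim.eventually (gt_mem_nhds ha)).exists
    obtain ⟨C1, hC1⟩ := hTx m
    obtain ⟨C', hC'0, hC'⟩ := ME.psi_growth hC1 (3 + |c|) fun k => (hKx k).1
    refine ⟨C', fun s => (hC' s).trans ?_⟩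
    have h1 : 1 ≤ 1 + ‖s‖ := by linarith [norm_nonneg s]
    exact mul_le_mul_of_nonneg_left (Real.rpow_le_rpow_of_exponent_le h1 hm.le) hC'0
  have hne : ¬ ∀ s s' : ℂ, psi c b hb x s = psi c b hb x s' := by
    intro hcon
    have k1 := hcon ((0 : ℝ) : ℂ) ((1 : ℝ) : ℂ)
    rw [hψr, hψr] at k1
    exact zero_ne_one (hinj (ME.cx_inj k1))
  have hl2 : 0 < Real.log 2 := Real.log_pos (by norm_num)
  constructor
  · rintro hlt ⟨hbr, hbl⟩
    rw [← hΛd, Real.log_mul (by norm_num) habs.ne'] at hlt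
    have hlt' : Real.log 2 / χ < 1 := by
      rw [div_lt_one hχ0, hχ]
      linarith
    obtain ⟨a, ha1, ha2⟩ := exists_between hlt'
    obtain ⟨C, hC⟩ := hgr a ha1
    obtain ⟨B1, hB1⟩ := hbr.exists_norm_le
    obtain ⟨B2, hB2⟩ := hbl.exists_norm_le
    have hbd : ∀ t : ℝ, ‖psi c b hb x (t : ℂ)‖ ≤ max (max B1 B2) ‖γ 0‖ := by
      intro t
      rw [hψr, ME.cx_norm]
      rcases lt_trichotomy t 0 with h | h | h
      · exact (hB2 _ (mem_image_of_mem γ h)).trans ((le_max_right _ _).trans (le_max_left _ _))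
      · rw [h]; exact le_max_right _ _
      · exact (hB1 _ (mem_image_of_mem γ h)).trans ((le_max_left _ _).trans (le_max_left _ _))
    exact hne (ME.AN2 _ hψd _ hbd C a ha2 hC)
  · intro hlt
    have h4 : Real.log 4 = 2 * Real.log 2 := by
      rw [show (4 : ℝ) = 2 ^ 2 by norm_num, Real.log_pow]; norm_num
    rw [← hΛd, Real.log_mul (by norm_num) habs.ne', h4] at hlt
    have hlt' : Real.log 2 / χ < 1 / 2 := by
      rw [div_lt_iff₀ hχ0, hχ]
      linarith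
    obtain ⟨a, ha1, ha2⟩ := exists_between hlt'
    obtain ⟨C, hC⟩ := hgr a ha1
    constructor
    · intro hbr
      obtain ⟨B1, hB1⟩ := hbr.exists_norm_le
      refine hne (ME.AN0 _ hψd (max B1 ‖γ 0‖) ?_ C a ha2 hC)
      intro t ht
      rw [hψr, ME.cx_norm]
      rcases ht.eq_or_lt with h | h
      · rw [← h]; exact le_max_right _ _
      · exact (hB1 _ (mem_image_of_mem γ h)).trans (le_max_left _ _)
    · intro hbl
      obtain ⟨B1, hB1⟩ := hbl.exists_norm_le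
      have k1 := ME.AN0 (fun s => psi c b hb x (-s)) (hψd.comp differentiable_neg) (max B1 ‖γ 0‖) (by
        intro t ht
        have e : -(t : ℂ) = ((-t : ℝ) : ℂ) := by push_cast; rfl
        show ‖psi c b hb x (-(t : ℂ))‖ ≤ _
        rw [e, hψr, ME.cx_norm]
        rcases ht.eq_or_lt with h | h
        · rw [← h, neg_zero]; exact le_max_right _ _
        · exact (hB1 _ (mem_image_of_mem γ (show -t < 0 by linarith))).trans (le_max_left _ _))
        C a ha2 (fun s => by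
          have := hC (-s)
          rwa [norm_neg] at this)
      refine hne fun s s' => ?_
      have k2 := k1 (-s) (-s')
      simpa using k2

end MH
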