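import Pool.Agent.Lib.MP_904526_H.Clo2
import Pool.Agent.Lib.MP_904526_H.Exp
import Pool.Agent.Lib.MP_904526_an.Z

/-!
# Hyperbolic measures without atoms do not charge the closure of a bounded stable branch
-/

set_option autoImplicit false

open Set Filter Topology MeasureTheory

namespace MH

open MD (E hen KM KK wg wt LeafAt coc Dh Lh Ph Qh Sd leaf)

theorem clo (c b : ℝ) (hb : b ≠ 0) (hb1 : |b| < 1) (ν : Measure E) [IsProbabilityMeasure ν]
    (hν : Ergodic (hen c b hb) ν) (hna : ∀ x, ν {x} = 0) (hpos : 0 < topExponent c b ν) (xh : E)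
    (γ : ℝ → E) (hγ : ContDiff ℝ 1 γ) (hγ' : ∀ t, deriv γ t ≠ 0)
    (hγi : Function.Injective γ) (hγK : ∀ t : ℝ, 0 < t → γ t ∈ KM c b hb)
    (hst : ∀ t : ℝ, St (hen c b hb) xh (γ t)) : ν (closure (γ '' Ioi 0)) = 0 := by
  obtain ⟨f, hf⟩ : ∃ f : E ≃ₜ E, f = hen c b hb := ⟨_, rfl⟩
  obtain ⟨Λ, hΛd⟩ : ∃ Λ : ℝ, Λ = topExponent c b ν := ⟨_, rfl⟩
  have hΛ := top_lim c b hb hb1 ν hν.toMeasurePreserving
  rw [← hΛd, ← hf] at hΛ
  rw [← hΛd] at hpos
  have hK : ν (KK c b hb)ᶜ = 0 := MD.kk_ae c b hb hb1 ν hν.toMeasurePreserving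
  have hfe : Ergodic f ν := by rw [hf]; exact hν
  have hfp : MeasurePreserving f ν ν := hfe.toMeasurePreserving
  have hse : Ergodic f.symm ν := MD.ergodic_symm f ν hfe
  have hsp : MeasurePreserving f.symm ν ν := hse.toMeasurePreserving
  obtain ⟨M, h⟩ := MD.hen_sys c b hb
  obtain ⟨M', h'⟩ := MD.hen_sys' c b hb
  rw [← hf] at h h'
  have habs : 0 < |b| := abs_pos.mpr hb
  have hlog : Real.log |b| < 0 := Real.log_neg habs hb1
  have hΛ' := MD.limExp_symm h h' ν hfp hK Λ hΛ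
  have hJ' : Real.log (1 / |b|) = - Real.log |b| := by
    rw [one_div, Real.log_inv]
  have hε : 0 < Λ / 10 := by linarith
  have hE := MD.leaf_ae h ν hfe hK Λ hΛ (Λ / 10) hε (by linarith) (by linarith)
  have hE' := MD.leaf_ae h' ν hse hK (Λ - Real.log |b|) hΛ' (Λ / 10) hε
    (by rw [hJ']; linarith) (by rw [hJ']; linarith)
  have hT' := MD.tame_ae h' ν hse hK (Λ - Real.log |b|) hΛ' (Λ / 10) hε
    (by rw [hJ']; linarith) (by rw [hJ']; linarith)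
  have hSm := MD.sd_meas h ν hfe hK Λ hΛ (by linarith)
  have hUm := MD.sd_meas h' ν hse hK (Λ - Real.log |b|) hΛ' (by rw [hJ']; linarith)
  have hSa := MD.sd_ae h ν hfe hK Λ hΛ (by linarith) (by linarith)
  have hUa := MD.sd_ae h' ν hse hK (Λ - Real.log |b|) hΛ' (by rw [hJ']; linarith)
    (by rw [hJ']; linarith)
  have hwg := MD.transv h h' ν hfp (Sd (Dh b) f)
    (Sd (fun y => Lh b (f.symm y)) f.symm) hSm hUm (hSa.mono fun x hx => hx.1)
    (hUa.mono fun x hx => hx.1)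
    (hSa.mono fun x hx => by obtain ⟨m, -, hm⟩ := hx.2.2; exact ⟨m, hm⟩) (Λ / 2)
    (by linarith)
    (hSa.mono fun x hx => by
      obtain ⟨C, hC⟩ := hx.2.1 (Λ - Real.log |b| - Λ / 2) (by linarith)
      refine ⟨C, fun n => ?_⟩
      have := hC n
      rwa [show Λ - Real.log |b| - (Λ - Real.log |b| - Λ / 2) = Λ / 2 by ring] at this)
    (hUa.mono fun x hx => by
      obtain ⟨C, hC⟩ := hx.2.1 (Λ / 2) (by linarith)
      refine ⟨C, fun n => ?_⟩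
      have := hC n
      rwa [hJ', show Λ - Real.log |b| - -Real.log |b| - Λ / 2 = Λ / 2 by ring] at this)
  have hKae : ∀ᵐ x ∂ν, x ∈ KK c b hb := hK
  obtain ⟨γs, hγs⟩ : ∃ γs, γs = leaf (Dh b) (Lh b) (Ph b) f := ⟨_, rfl⟩
  obtain ⟨γu, hγu⟩ : ∃ γu, γu = leaf (fun y => Lh b (f.symm y)) (fun y => Dh b (f.symm y)) Qh f.symm :=
    ⟨_, rfl⟩
  obtain ⟨S, hS⟩ : ∃ S, S = Sd (Dh b) f := ⟨_, rfl⟩
  obtain ⟨U, hU⟩ : ∃ U, U = Sd (fun y => Lh b (f.symm y)) f.symm := ⟨_, rfl⟩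
  rw [← hγs, ← hS] at hE
  rw [← hγu, ← hU] at hE'
  rw [← hS, ← hU] at hwg
  obtain ⟨α, hα⟩ : ∃ α : ℝ, α = Λ - Real.log |b| - Λ / 10 := ⟨_, rfl⟩
  obtain ⟨α', hα'⟩ : ∃ α' : ℝ, α' = Λ - Real.log |b| - Real.log (1 / |b|) - Λ / 10 := ⟨_, rfl⟩
  have hα0 : 0 < α := by rw [hα]; linarith
  have hα'0 : 0 < α' := by rw [hα', hJ']; linarith
  rw [← hα] at hE
  rw [← hα'] at hE'
  obtain ⟨Good, hGood⟩ : ∃ Good : Set E, Good = {x | LeafAt f γs S α x ∧ LeafAt f.symm γu U α' x ∧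
    wg (S x) (U x) ≠ 0 ∧ ContDiff ℝ 1 (γu x) ∧ x ∈ KK c b hb} := ⟨_, rfl⟩
  have hG : ν Goodᶜ = 0 := by
    have k1 : ∀ᵐ x ∂ν, x ∈ Good := by
      filter_upwards [hE, hE', hwg, hT', hKae] with x k1 k2 k3 k4 k5
      obtain ⟨C, hC⟩ := k4
      obtain ⟨k6, -⟩ := MD.leaf_c1 h' x C _ _ hC
      rw [hGood]
      exact ⟨k1, k2, k3, by rw [hγu]; exact k6, k5⟩
    rw [ae_iff] at k1
    exact k1
  refine clo_null c b hb hb1 ν hna hν.toMeasurePreserving Good γs γu S U α α' hα0 hα'0 ?_ ?_ ?_ ?_ ?_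
    hG xh γ hγ hγ' hγi hγK hst
  · intro x hx
    rw [hGood] at hx
    rw [← hf]
    exact hx.1
  · intro x hx
    rw [hGood] at hx
    rw [← hf]
    exact hx.2.1
  · intro x hx
    rw [hGood] at hx
    exact hx.2.2.1
  · intro x hx
    rw [hGood] at hx
    exact hx.2.2.2.1
  · intro x hx t
    rw [hGood] at hx
    obtain ⟨Y, hY⟩ := (hx.2.1.rng (γu x t)).1 ⟨t, rfl⟩
    refine ⟨|Y| + (3 + |c|), fun n => ?_⟩
    have h1 := hY n
    have h2 := (hx.2.2.2.2 n).2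
    rw [hf] at h1
    have h3 : wt α' n ≤ 1 := by
      unfold wt
      rw [Real.exp_le_one_iff]
      have : (0:ℝ) ≤ n := Nat.cast_nonneg n
      nlinarith
    have h4 := (MD.wt_pos α' n).le
    have h5 : ‖(hen c b hb).symm^[n] (γu x t)‖ ≤
        ‖(hen c b hb).symm^[n] (γu x t) - (hen c b hb).symm^[n] x‖ + ‖(hen c b hb).symm^[n] x‖ := by
      have := norm_add_le ((hen c b hb).symm^[n] (γu x t) - (hen c b hb).symm^[n] x)
        ((hen c b hb).symm^[n] x)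
      simpa using this
    have h6 : Y * wt α' n ≤ |Y| := by
      have := le_abs_self Y
      have h7 := abs_nonneg Y
      nlinarith
    linarith

end MH
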