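import Pool.Agent.Lib.MP_904526_H.Main

/-!
# Cnt: the set of periodic saddles is countable (est. 100 lines)
PROOF IN WORDS. It is the union over `n ≥ 1` of the sets `Σ_n` of the `p` with `f^n p = p` and an
eigenvalue `m`, `|m| > 1`, of `A = fderiv (f^n) p = coc (Dh b) (hen c b hb) n p` (MD.henon_fderiv,
`|dt A| = |b|^n < 1` by MD.coc_dt with MD.hen_sys). If `A u = u`, `u ≠ 0`, `A v = m v`, then
`dt A * wg u v = wg (A u) (A v) = m * wg u v` (MD.wg_map), so `wg u v = 0` since `|dt A| < 1 < |m|`, so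
`v` and `u` are parallel and `m = 1`: contradiction. So `A - id` is injective, hence bounded below
(finite dimension: `LinearMap.injective_iff_antilipschitz` or `ContinuousLinearEquiv.ofInjective..`), and
`f^n` is differentiable at `p` (henonMap is polynomial), so `f^n q ≠ q` for `q ≠ p` near `p`. So every
point of `Σ_n` is isolated in `Fix (f^n)`, in particular in `Σ_n`, and a subset of the plane with the
discrete topology is countable (second countable).
-/

set_option autoImplicit false

open Set Filter Topology MeasureTheory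

namespace MH

/-- an eigenvalue of modulus more than one and a small determinant exclude the eigenvalue one -/
private theorem cnt_inj (A : MD.E →L[ℝ] MD.E) (hdt : |MD.dt A| < 1) (m : ℝ) (hm : 1 < |m|)
    (v : MD.E) (hv0 : v ≠ 0) (hv : A v = m • v) (u : MD.E) (hu : A u = u) : u = 0 := by
  by_contra hu0
  have h1 : MD.dt A * MD.wg u v = m * MD.wg u v := by
    rw [← MD.wg_map, hu, hv]
    simp only [MD.wg, Prod.smul_fst, Prod.smul_snd, smul_eq_mul]
    ring
  have h2 : MD.wg u v = 0 := by
    by_contra hw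
    have h3 : MD.dt A = m := mul_right_cancel₀ hw h1
    rw [h3] at hdt
    linarith
  have h4 : ∃ a : ℝ, v = a • u := by
    have h5 : u.1 * v.2 = u.2 * v.1 := by
      have : u.1 * v.2 - u.2 * v.1 = 0 := h2
      linarith
    by_cases hu1 : u.1 = 0
    · have hu2 : u.2 ≠ 0 := by
        intro h
        exact hu0 (Prod.ext hu1 h)
      refine ⟨v.2 / u.2, Prod.ext ?_ ?_⟩
      · rw [Prod.smul_fst, smul_eq_mul, hu1, mul_zero]
        rw [hu1, zero_mul] at h5
        rcases mul_eq_zero.1 h5.symm with h | h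
        · exact absurd h hu2
        · exact h
      · rw [Prod.smul_snd, smul_eq_mul, div_mul_cancel₀ _ hu2]
    · refine ⟨v.1 / u.1, Prod.ext ?_ ?_⟩
      · rw [Prod.smul_fst, smul_eq_mul, div_mul_cancel₀ _ hu1]
      · rw [Prod.smul_snd, smul_eq_mul]
        field_simp
        linarith
  obtain ⟨a, ha⟩ := h4
  have h6 : m • v = v := by
    rw [← hv, ha, map_smul, hu]
  have h7 : (m - 1) • v = 0 := by
    rw [sub_smul, h6, one_smul, sub_self]
  rcases smul_eq_zero.1 h7 with h | h
  · have : m = 1 := by linarith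
    rw [this, abs_one] at hm
    exact lt_irrefl _ hm
  · exact hv0 h

/-- a periodic point whose derivative has no eigenvalue one is isolated -/
private theorem cnt_iso (f : MD.E → MD.E) (p : MD.E) (A : MD.E →L[ℝ] MD.E) (hA : HasFDerivAt f A p)
    (hinj : ∀ u : MD.E, A u = u → u = 0) : ∀ᶠ q in 𝓝[≠] p, f q ≠ q := by
  have h1 : HasFDerivAt (fun q => f q - q) (A - ContinuousLinearMap.id ℝ MD.E) p :=
    hA.sub (hasFDerivAt_id p)
  have h2 : ∃ C : NNReal, AntilipschitzWith C (A - ContinuousLinearMap.id ℝ MD.E) := by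
    have hker : LinearMap.ker ((A - ContinuousLinearMap.id ℝ MD.E : MD.E →L[ℝ] MD.E) :
        MD.E →ₗ[ℝ] MD.E) = ⊥ := by
      rw [LinearMap.ker_eq_bot']
      intro u hu
      apply hinj
      have : A u - u = 0 := hu
      exact sub_eq_zero.1 this
    obtain ⟨K, hK0, hK⟩ := LinearMap.exists_antilipschitzWith _ hker
    exact ⟨K, hK⟩
  have h3 := h1.eventually_ne (c := 0) h2
  filter_upwards [h3] with q hq h
  exact hq (sub_eq_zero.2 h)

theorem saddles_countable (c b : ℝ) (hb0 : 0 < |b|) (hb1 : |b| < 1) :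
    {p : ℝ × ℝ | IsSaddle c b p}.Countable := by
  have hb : b ≠ 0 := abs_pos.1 hb0
  have hsub : {p : ℝ × ℝ | IsSaddle c b p} ⊆ ⋃ n : ℕ, {p : ℝ × ℝ | 1 ≤ n ∧
      (henonMap c b)^[n] p = p ∧ ∃ m : ℝ, 1 < |m| ∧ ∃ v : ℝ × ℝ, v ≠ 0 ∧
        fderiv ℝ ((henonMap c b)^[n]) p v = m • v} := by
    rintro p ⟨n, hn⟩
    exact Set.mem_iUnion.2 ⟨n, hn⟩
  refine (Set.countable_iUnion fun n => ?_).mono hsub
  set S : Set (ℝ × ℝ) := {p : ℝ × ℝ | 1 ≤ n ∧
      (henonMap c b)^[n] p = p ∧ ∃ m : ℝ, 1 < |m| ∧ ∃ v : ℝ × ℝ, v ≠ 0 ∧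
        fderiv ℝ ((henonMap c b)^[n]) p v = m • v} with hS
  have hdisc : DiscreteTopology S := by
    rw [discreteTopology_subtype_iff]
    rintro p ⟨hn, hp, m, hm, v, hv0, hv⟩
    rw [inf_principal_eq_bot]
    obtain ⟨M, hsys⟩ := MD.hen_sys c b hb
    have hdt : |MD.dt (MD.coc (MD.Dh b) (MD.hen c b hb) n p)| < 1 := by
      rw [MD.coc_dt hsys]
      exact pow_lt_one₀ (abs_nonneg b) hb1 (by omega)
    have hfd : fderiv ℝ ((henonMap c b)^[n]) p = MD.coc (MD.Dh b) (MD.hen c b hb) n p :=
      MD.henon_fderiv c b hb n p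
    have hdiff : DifferentiableAt ℝ ((henonMap c b)^[n]) p := by
      have h1 : Differentiable ℝ (henonMap c b) := by
        unfold henonMap
        fun_prop
      exact (h1.iterate n) p
    have hA := hdiff.hasFDerivAt
    rw [hfd] at hv
    rw [hfd] at hA
    have := cnt_iso _ p _ hA (fun u hu => cnt_inj _ hdt m hm v hv0 hv u hu)
    filter_upwards [this] with q hq hqS
    exact hq hqS.2.1
  have : Countable S := TopologicalSpace.separableSpace_iff_countable.1 inferInstance
  exact Set.countable_coe_iff.1 this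

end MH
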