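import Pool.Agent.Lib.MP_904526_H.Sts

/-!
# Almost every stable curve crosses the unstable curves of the saddles
-/

set_option autoImplicit false

open Set Filter Topology MeasureTheory

namespace MH

open MD (E wt)

/-- a sign -/
def sgn (e : Bool) : ℝ := if e then 1 else -1

/-- the points whose stable set touches the arc `[a, b]` of `δ` from the side `e` over `[c, d]` -/
def Tch (f : E ≃ₜ E) (δ : ℝ → E) (i : Bool) (a b c d : ℚ) (e : Bool) : Set E :=
  {y | InjOn (fun s => Pc i (δ s)) (Icc (a : ℝ) b) ∧ ∃ G κ : ℝ → ℝ,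
    ContinuousOn G (Icc (c : ℝ) d) ∧ (∀ u ∈ Icc (c : ℝ) d, St f y (pt i u (G u))) ∧
    (∀ u ∈ Icc (c : ℝ) d, κ u ∈ Icc (a : ℝ) b ∧ Pc i (δ (κ u)) = u ∧
      0 ≤ sgn e * (G u - Qc i (δ (κ u)))) ∧ ∃ u ∈ Icc (c : ℝ) d, G u = Qc i (δ (κ u))}

theorem Tch.st {f : E ≃ₜ E} {δ : ℝ → E} {i : Bool} {a b c d : ℚ} {e : Bool} {y y' : E}
    (h : y ∈ Tch f δ i a b c d e) (h' : y' ∈ Tch f δ i a b c d e) : St f y y' := by
  obtain ⟨hinj, G, κ, hG, hS, hκ, u, hu, hu0⟩ := h
  obtain ⟨-, G', κ', hG', hS', hκ', u', hu', hu0'⟩ := h'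
  have hκκ : ∀ v ∈ Icc (c : ℝ) d, κ v = κ' v := fun v hv =>
    hinj (hκ v hv).1 (hκ' v hv).1 ((hκ v hv).2.1.trans (hκ' v hv).2.1.symm)
  have hss : sgn e * sgn e = 1 := by cases e <;> simp [sgn]
  have hsub : uIcc u u' ⊆ Icc (c : ℝ) d := uIcc_subset_Icc hu hu'
  have hcont : ContinuousOn (fun v => sgn e * (G v - G' v)) (uIcc u u') :=
    continuousOn_const.mul ((hG.mono hsub).sub (hG'.mono hsub))
  have h1 : sgn e * (G u - G' u) ≤ 0 := by
    have h2 := (hκ' u hu).2.2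
    rw [← hκκ u hu, ← hu0] at h2
    have h3 : sgn e * (G u - G' u) = -(sgn e * (G' u - G u)) := by ring
    rw [h3]
    linarith
  have h2 : 0 ≤ sgn e * (G u' - G' u') := by
    have h2 := (hκ u' hu').2.2
    rw [hκκ u' hu', ← hu0'] at h2
    exact h2
  have h3 : (0 : ℝ) ∈ uIcc (sgn e * (G u - G' u)) (sgn e * (G u' - G' u')) := by
    rw [uIcc_of_le (h1.trans h2)]
    exact ⟨h1, h2⟩
  obtain ⟨v, hv, hv0⟩ := intermediate_value_uIcc hcont h3
  have hv0' : sgn e * (G v - G' v) = 0 := hv0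
  have h4 : G v = G' v := by
    have h5 : sgn e * (sgn e * (G v - G' v)) = 0 := by rw [hv0', mul_zero]
    rw [← mul_assoc, hss, one_mul] at h5
    linarith
  have h5 := hS v (hsub hv)
  have h6 := hS' v (hsub hv)
  rw [← h4] at h6
  exact h5.trans h6.symm

theorem Tch.null (f : E ≃ₜ E) (μ : Measure E) [IsProbabilityMeasure μ] (hna : ∀ x, μ {x} = 0)
    (hf : MeasurePreserving f μ μ) (δ : ℝ → E) (i : Bool) (a b c d : ℚ) (e : Bool) :
    μ (Tch f δ i a b c d e) = 0 := by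
  rcases (Tch f δ i a b c d e).eq_empty_or_nonempty with h | ⟨y, hy⟩
  · rw [h, measure_empty]
  · exact measure_mono_null (fun y' hy' => Tch.st hy hy') (st_null f μ hna hf y)

/-- the height of the point `γ t` over the curve `δ` -/
def Ht (γ δ : ℝ → E) (i : Bool) (κ : ℝ → ℝ) (t : ℝ) : ℝ := Qc i (γ t) - Qc i (δ (κ (Pc i (γ t))))

/-- `γ` crosses `δ` at the parameter `t₀` -/
def Crs (γ δ : ℝ → E) (i : Bool) (κ : ℝ → ℝ) (t₀ : ℝ) : Prop :=
  ∃ r : ℝ, 0 < r ∧ ∃ ε : ℝ, (ε = 1 ∨ ε = -1) ∧ (∀ t ∈ Ioc t₀ (t₀ + r), 0 < ε * Ht γ δ i κ t) ∧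
    ∀ t ∈ Ico (t₀ - r) t₀, 0 < -(ε * Ht γ δ i κ t)

theorem an_comp (κ u : ℝ → ℝ) (t : ℝ) (h1 : AnalyticAt ℝ κ (u t)) (h2 : AnalyticAt ℝ u t) :
    AnalyticAt ℝ (fun t => κ (u t)) t := h1.fun_comp h2

theorem Ht.an {γ δ : ℝ → E} (hγ : AnC γ) (hδ : AnC δ) {i : Bool} {κ : ℝ → ℝ} {s₀ t₀ : ℝ}
    (hL : Loc δ s₀ i κ) (he : γ t₀ = δ s₀) : AnalyticAt ℝ (Ht γ δ i κ) t₀ := by
  have h1 : AnalyticAt ℝ κ (Pc i (γ t₀)) := by rw [he]; exact hL.an
  have h2 : AnalyticAt ℝ (fun t => κ (Pc i (γ t))) t₀ :=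
    an_comp κ (fun t => Pc i (γ t)) t₀ h1 (hγ i t₀)
  have h3 : AnalyticAt ℝ (fun s => Qc i (δ s)) (κ (Pc i (γ t₀))) := hδ.q i _
  exact (hγ.q i t₀).sub (an_comp (fun s => Qc i (δ s)) (fun t => κ (Pc i (γ t))) t₀ h3 h2)

theorem Ht.zero {γ δ : ℝ → E} {i : Bool} {κ : ℝ → ℝ} {s₀ t₀ : ℝ} (hL : Loc δ s₀ i κ)
    (he : γ t₀ = δ s₀) : Ht γ δ i κ t₀ = 0 := by
  unfold Ht
  rw [he, hL.val, sub_self]

/-- a continuous function without zeros on an interval has a constant sign -/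
theorem sgn_const (h : ℝ → ℝ) (a b : ℝ) (hc : ContinuousOn h (Icc a b)) (h0 : ∀ t ∈ Icc a b, h t ≠ 0)
    (hab : a ≤ b) : ∃ ε : Bool, ∀ t ∈ Icc a b, 0 < sgn ε * h t := by
  have key : ∀ t ∈ Icc a b, 0 < h a * h t := by
    intro t ht
    by_contra hcon
    rw [not_lt] at hcon
    have hne : h a * h t ≠ 0 := mul_ne_zero (h0 a ⟨le_rfl, hab⟩) (h0 t ht)
    have hlt : h a * h t < 0 := lt_of_le_of_ne hcon hne
    have hsub : uIcc a t ⊆ Icc a b := by
      rw [uIcc_of_le ht.1]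
      exact Icc_subset_Icc_right ht.2
    have h3 : (0 : ℝ) ∈ uIcc (h a) (h t) := by
      rcases mul_neg_iff.1 hlt with ⟨p, q⟩ | ⟨p, q⟩
      · rw [uIcc_of_ge (by linarith)]
        exact ⟨q.le, p.le⟩
      · rw [uIcc_of_le (by linarith)]
        exact ⟨p.le, q.le⟩
    obtain ⟨v, hv, hv0⟩ := intermediate_value_uIcc (hc.mono hsub) h3
    exact h0 v (hsub hv) hv0
  rcases lt_or_gt_of_ne (h0 a ⟨le_rfl, hab⟩) with ha | ha
  · refine ⟨false, fun t ht => ?_⟩
    have h1 := key t ht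
    have : h t < 0 := by
      by_contra hcon
      rw [not_lt] at hcon
      nlinarith
    simp [sgn, this]
  · refine ⟨true, fun t ht => ?_⟩
    have h1 := key t ht
    have : 0 < h t := by
      by_contra hcon
      rw [not_lt] at hcon
      nlinarith
    simp [sgn, this]

theorem sgn_punct (h : ℝ → ℝ) (t₀ : ℝ) (hc : ∀ᶠ t in 𝓝 t₀, ContinuousAt h t)
    (h0 : ∀ᶠ t in 𝓝[≠] t₀, h t ≠ 0) : ∃ r : ℝ, 0 < r ∧ (∀ t, |t - t₀| ≤ r → ContinuousAt h t) ∧
      ∃ e e' : Bool, (∀ t ∈ Ioc t₀ (t₀ + r), 0 < sgn e * h t) ∧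
        ∀ t ∈ Ico (t₀ - r) t₀, 0 < sgn e' * h t := by
  obtain ⟨r1, hr1, h1⟩ := Metric.eventually_nhds_iff.1 hc
  obtain ⟨r2, hr2, h2⟩ := Metric.eventually_nhds_iff.1 (eventually_nhdsWithin_iff.1 h0)
  obtain ⟨r, hr⟩ : ∃ r : ℝ, r = min r1 r2 / 2 := ⟨_, rfl⟩
  have hmin : 0 < min r1 r2 := lt_min hr1 hr2
  have hr0 : 0 < r := by rw [hr]; linarith
  have hlt1 : r < r1 := by rw [hr]; linarith [min_le_left r1 r2]
  have hlt2 : r < r2 := by rw [hr]; linarith [min_le_right r1 r2]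
  have hC : ∀ t, |t - t₀| ≤ r → ContinuousAt h t := fun t ht =>
    h1 (show dist t t₀ < r1 by rw [Real.dist_eq]; linarith)
  have hN : ∀ t, |t - t₀| ≤ r → t ≠ t₀ → h t ≠ 0 := fun t ht hne =>
    h2 (show dist t t₀ < r2 by rw [Real.dist_eq]; linarith) hne
  have side : ∀ a b : ℝ, a ≤ b → (∀ t ∈ Icc a b, |t - t₀| ≤ r ∧ t ≠ t₀) →
      ∃ ε : Bool, ∀ t ∈ Icc a b, 0 < sgn ε * h t := fun a b hab hh =>
    sgn_const h a b (fun t ht => (hC t (hh t ht).1).continuousWithinAt)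
      (fun t ht => hN t (hh t ht).1 (hh t ht).2) hab
  -- the sign at the end point is the sign everywhere
  obtain ⟨e, he⟩ := side (t₀ + r) (t₀ + r) le_rfl fun t ht => by
    have : t = t₀ + r := le_antisymm ht.2 ht.1
    rw [this]
    refine ⟨by rw [add_sub_cancel_left, abs_of_pos hr0], by linarith⟩
  obtain ⟨e', he'⟩ := side (t₀ - r) (t₀ - r) le_rfl fun t ht => by
    have : t = t₀ - r := le_antisymm ht.2 ht.1
    rw [this]
    refine ⟨by rw [sub_sub_cancel_left, abs_neg, abs_of_pos hr0], by linarith⟩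
  have hsame : ∀ (x y : Bool) (z : ℝ), 0 < sgn x * z → 0 < sgn y * z → x = y := by
    intro x y z hx hy
    cases x <;> cases y <;> simp [sgn] at hx hy ⊢ <;> linarith
  refine ⟨r, hr0, hC, e, e', fun t ht => ?_, fun t ht => ?_⟩
  · obtain ⟨x, hx⟩ := side t (t₀ + r) ht.2 fun v hv => ⟨by
      rw [abs_of_nonneg (by linarith [ht.1, hv.1])]
      linarith [hv.2], by
      have := ht.1
      have := hv.1
      intro h
      linarith⟩
    have hxe : x = e := hsame x e _ (hx (t₀ + r) ⟨ht.2, le_rfl⟩) (he (t₀ + r) ⟨le_rfl, le_rfl⟩)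
    rw [← hxe]
    exact hx t ⟨le_rfl, ht.2⟩
  · obtain ⟨x, hx⟩ := side (t₀ - r) t ht.1 fun v hv => ⟨by
      rw [abs_of_nonpos (by linarith [ht.2, hv.2])]
      linarith [hv.1], by
      have := ht.2
      have := hv.2
      intro h
      linarith⟩
    have hxe : x = e' := hsame x e' _ (hx (t₀ - r) ⟨le_rfl, ht.1⟩) (he' (t₀ - r) ⟨le_rfl, le_rfl⟩)
    rw [← hxe]
    exact hx t ⟨ht.1, le_rfl⟩

/-- almost every stable curve crosses the unstable curves wherever it meets them -/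
theorem contact (f : E ≃ₜ E) (μ : Measure E) [IsProbabilityMeasure μ] (hna : ∀ x, μ {x} = 0)
    (hf : MeasurePreserving f μ μ) (Q : Set E) (hQ : Q.Countable) (D : E → ℝ → E)
    (hD : ∀ q ∈ Q, AnC (D q)) :
    ∀ᵐ y ∂μ, ∀ γ : ℝ → E, AnC γ → ContDiff ℝ 1 γ → (∀ t, deriv γ t ≠ 0) → Function.Injective γ →
      (∀ z, z ∈ range γ ↔ St f y z) → ∀ q ∈ Q, ∀ (t₀ s₀ : ℝ) (i : Bool) (κ : ℝ → ℝ),
      Loc (D q) s₀ i κ → γ t₀ = D q s₀ → Crs γ (D q) i κ t₀ := by
  have hE1 : ∀ᵐ y ∂μ, ∀ q ∈ Q, ∀ x : ℚ, ¬ St f (D q x) y := by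
    rw [ae_ball_iff hQ]
    intro q _
    rw [ae_all_iff]
    intro x
    rw [ae_iff]
    simpa only [not_not] using st_null f μ hna hf (D q x)
  have hE2 : ∀ᵐ y ∂μ, ∀ q ∈ Q, ∀ (i : Bool) (a b c d : ℚ) (e : Bool), y ∉ Tch f (D q) i a b c d e := by
    rw [ae_ball_iff hQ]
    intro q _
    simp only [ae_all_iff]
    intro i a b c d e
    rw [ae_iff]
    have h1 := Tch.null f μ hna hf (D q) i a b c d e
    simpa only [not_not, Set.ofPred_mem_eq] using h1
  filter_upwards [hE1, hE2] with y hy1 hy2 γ hγ hγ1 hγ' hγi hr q hq t₀ s₀ i κ hL he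
  have hδ := hD q hq
  have hH := Ht.an hγ hδ hL he
  have hcγ : Continuous γ := hγ1.continuous
  have hu0 : Pc i (γ t₀) = Pc i (D q s₀) := by rw [he]
  rcases hH.eventually_eq_zero_or_eventually_ne_zero with hz | hz
  · -- the curves coincide
    exfalso
    have h1 : ∀ᶠ t in 𝓝 t₀, Pc i (D q (κ (Pc i (γ t)))) = Pc i (γ t) := by
      have h2 : Tendsto (fun t => Pc i (γ t)) (𝓝 t₀) (𝓝 (Pc i (D q s₀))) := by
        rw [← hu0]
        exact ((Pc_cont i).comp hcγ).tendsto t₀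
      exact h2.eventually hL.right
    have h3 : ∀ᶠ t in 𝓝 t₀, ContinuousAt (fun t => κ (Pc i (γ t))) t := by
      have h4 : AnalyticAt ℝ κ (Pc i (γ t₀)) := by rw [hu0]; exact hL.an
      exact (an_comp κ (fun t => Pc i (γ t)) t₀ h4 (hγ i t₀)).eventually_continuousAt
    obtain ⟨r, hr0, hrr⟩ := Metric.eventually_nhds_iff.1 (hz.and (h1.and h3))
    have hcoin : ∀ t, |t - t₀| < r → γ t = D q (κ (Pc i (γ t))) := by
      intro t ht
      obtain ⟨k1, k2, -⟩ := hrr (show dist t t₀ < r by rwa [Real.dist_eq])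
      refine Pc_ext i k2.symm ?_
      unfold Ht at k1
      linarith
    have hco : ContinuousOn (fun t => κ (Pc i (γ t))) (Icc t₀ (t₀ + r / 2)) := by
      intro t ht
      refine (hrr (show dist t t₀ < r from ?_)).2.2.continuousWithinAt
      rw [Real.dist_eq, abs_of_nonneg (by linarith [ht.1])]
      linarith [ht.2]
    have hne : κ (Pc i (γ t₀)) ≠ κ (Pc i (γ (t₀ + r / 2))) := by
      intro h
      have k1 := hcoin t₀ (by rw [sub_self, abs_zero]; exact hr0)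
      have k2 := hcoin (t₀ + r / 2) (by rw [add_sub_cancel_left, abs_of_pos (by linarith)]; linarith)
      rw [h, ← k2] at k1
      have := hγi k1
      linarith
    have hlt : min (κ (Pc i (γ t₀))) (κ (Pc i (γ (t₀ + r / 2)))) <
        max (κ (Pc i (γ t₀))) (κ (Pc i (γ (t₀ + r / 2)))) := min_lt_max.2 hne
    obtain ⟨x, hx1, hx2⟩ := exists_rat_btwn hlt
    have hx3 : (x : ℝ) ∈ uIcc (κ (Pc i (γ t₀))) (κ (Pc i (γ (t₀ + r / 2)))) := ⟨hx1.le, hx2.le⟩
    have hle : t₀ ≤ t₀ + r / 2 := by linarith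
    rw [← uIcc_of_le hle] at hco
    obtain ⟨t, ht, htx⟩ := intermediate_value_uIcc hco hx3
    rw [uIcc_of_le hle] at ht
    have k1 := hcoin t (by rw [abs_of_nonneg (by linarith [ht.1])]; linarith [ht.2])
    have htx' : κ (Pc i (γ t)) = x := htx
    rw [htx'] at k1
    exact hy1 q hq x ((hr _).1 ⟨t, k1⟩).symm
  · obtain ⟨r, hr0, hC, e, e', hR, hLf⟩ := sgn_punct _ t₀
      (hH.eventually_continuousAt) hz
    by_cases hee : e = e'
    · -- contact from one side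
      exfalso
      rw [← hee] at hLf
      have hnn : ∀ t, |t - t₀| ≤ r → 0 ≤ sgn e * Ht γ (D q) i κ t := by
        intro t ht
        rw [abs_le] at ht
        rcases lt_trichotomy t t₀ with h | h | h
        · exact (hLf t ⟨by linarith [ht.1], h⟩).le
        · rw [h, Ht.zero hL he, mul_zero]
        · exact (hR t ⟨h, by linarith [ht.2]⟩).le
      have hmin : IsLocalMin (fun t => sgn e * Ht γ (D q) i κ t) t₀ := by
        filter_upwards [Metric.closedBall_mem_nhds t₀ hr0] with t ht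
        rw [Metric.mem_closedBall, Real.dist_eq] at ht
        show sgn e * Ht γ (D q) i κ t₀ ≤ sgn e * Ht γ (D q) i κ t
        rw [Ht.zero hL he, mul_zero]
        exact hnn t ht
      have hss : sgn e ≠ 0 := by cases e <;> simp [sgn]
      have hHd : deriv (Ht γ (D q) i κ) t₀ = 0 := by
        have h1 := hmin.hasDerivAt_eq_zero (hH.differentiableAt.hasDerivAt.const_mul (sgn e))
        exact (mul_eq_zero.1 h1).resolve_left hss
      have hP : deriv (fun t => Pc i (γ t)) t₀ ≠ 0 := by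
        intro hP0
        obtain ⟨j, hj⟩ := deriv_comp_ne γ hγ1 t₀ (hγ' t₀)
        have hQ0 : deriv (fun t => Qc i (γ t)) t₀ ≠ 0 := by
          cases i <;> cases j
          · exact absurd hP0 hj
          · exact hj
          · exact hj
          · exact absurd hP0 hj
        have d1 : HasDerivAt (fun t => Pc i (γ t)) 0 t₀ := by
          rw [← hP0]
          exact (hγ i t₀).differentiableAt.hasDerivAt
        have d2 : AnalyticAt ℝ (fun u => Qc i (D q (κ u))) (Pc i (γ t₀)) := by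
          have k1 : AnalyticAt ℝ κ (Pc i (γ t₀)) := by rw [hu0]; exact hL.an
          exact an_comp (fun s => Qc i (D q s)) κ _ (hδ.q i _) k1
        have d3 := d2.differentiableAt.hasDerivAt.comp t₀ d1
        have d4 := (hγ.q i t₀).differentiableAt.hasDerivAt.sub d3
        have d5 : HasDerivAt (Ht γ (D q) i κ) (deriv (fun t => Qc i (γ t)) t₀ -
            deriv (fun u => Qc i (D q (κ u))) (Pc i (γ t₀)) * 0) t₀ := d4
        rw [d5.deriv, mul_zero, sub_zero] at hHd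
        exact hQ0 hHd
      obtain ⟨κ', hL'⟩ := loc_of γ hγ t₀ i hP
      -- rational intervals
      obtain ⟨ρ, hρ, hρ2⟩ := Metric.eventually_nhds_iff.1 hL.left
      obtain ⟨a, ha1, ha2⟩ := exists_rat_btwn (show s₀ - ρ < s₀ by linarith)
      obtain ⟨b, hb1, hb2⟩ := exists_rat_btwn (show s₀ < s₀ + ρ by linarith)
      have hinj : InjOn (fun s => Pc i (D q s)) (Icc (a : ℝ) b) := by
        intro s hs s' hs' hss'
        have k1 := hρ2 (show dist s s₀ < ρ by
          rw [Real.dist_eq, abs_lt]; constructor <;> linarith [hs.1, hs.2])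
        have k2 := hρ2 (show dist s' s₀ < ρ by
          rw [Real.dist_eq, abs_lt]; constructor <;> linarith [hs'.1, hs'.2])
        have k3 : Pc i (D q s) = Pc i (D q s') := hss'
        rw [← k1, ← k2, k3]
      have g1 : ∀ᶠ u in 𝓝 (Pc i (D q s₀)), κ u ∈ Icc (a : ℝ) b := by
        have k1 := hL.an.continuousAt
        have k2 : Icc (a : ℝ) b ∈ 𝓝 (κ (Pc i (D q s₀))) := by
          rw [hL.val]
          exact Icc_mem_nhds ha2 hb1
        exact k1 k2
      have hL'r := hL'.right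
      have hL'a := hL'.an
      have hL'v := hL'.val
      rw [hu0] at hL'r hL'a hL'v
      have g2 : ∀ᶠ u in 𝓝 (Pc i (D q s₀)), |κ' u - t₀| ≤ r := by
        have k1 := hL'a.continuousAt
        have k2 : Metric.closedBall t₀ r ∈ 𝓝 (κ' (Pc i (D q s₀))) := by
          rw [hL'v]
          exact Metric.closedBall_mem_nhds t₀ hr0
        filter_upwards [k1 k2] with u hu
        rwa [mem_preimage, Metric.mem_closedBall, Real.dist_eq] at hu
      have g3 : ∀ᶠ u in 𝓝 (Pc i (D q s₀)), ContinuousAt (fun u => Qc i (γ (κ' u))) u := by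
        filter_upwards [hL'a.eventually_continuousAt] with u hu
        exact (((Qc_cont i).comp hcγ).continuousAt).comp hu
      obtain ⟨ρ', hρ', hall⟩ := Metric.eventually_nhds_iff.1
        (g1.and (g2.and (g3.and (hL.right.and hL'r))))
      obtain ⟨u₀, hu₀⟩ : ∃ u₀, u₀ = Pc i (D q s₀) := ⟨_, rfl⟩
      rw [← hu₀] at hall
      obtain ⟨c, hc1, hc2⟩ := exists_rat_btwn (show u₀ - ρ' < u₀ by linarith)
      obtain ⟨d, hd1, hd2⟩ := exists_rat_btwn (show u₀ < u₀ + ρ' by linarith)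
      have hall' : ∀ u ∈ Icc (c : ℝ) d, κ u ∈ Icc (a : ℝ) b ∧ |κ' u - t₀| ≤ r ∧
          ContinuousAt (fun u => Qc i (γ (κ' u))) u ∧ Pc i (D q (κ u)) = u ∧
          Pc i (γ (κ' u)) = u := fun u hu => hall (show dist u u₀ < ρ' by
            rw [Real.dist_eq, abs_lt]; constructor <;> linarith [hu.1, hu.2])
      refine hy2 q hq i a b c d e ⟨hinj, fun u => Qc i (γ (κ' u)), κ, ?_, ?_, ?_, u₀,
        ⟨hc2.le, hd1.le⟩, ?_⟩
      · exact fun u hu => (hall' u hu).2.2.1.continuousWithinAt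
      · intro u hu
        have k1 := (hall' u hu).2.2.2.2
        have k2 : pt i u (Qc i (γ (κ' u))) = γ (κ' u) := by
          conv_lhs => rw [← k1]
          rw [k1]
          conv_rhs => rw [← pt_eta i (γ (κ' u)), k1]
        rw [k2]
        exact (hr _).1 ⟨_, rfl⟩
      · intro u hu
        obtain ⟨k1, k2, -, k4, k5⟩ := hall' u hu
        refine ⟨k1, k4, ?_⟩
        have k6 := hnn _ k2
        unfold Ht at k6
        rw [k5] at k6
        exact k6
      · show Qc i (γ (κ' u₀)) = Qc i (D q (κ u₀))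
        rw [hu₀, hL'v, hL.val, he]
    · refine ⟨r, hr0, sgn e, ?_, hR, ?_⟩
      · cases e
        · exact Or.inr rfl
        · exact Or.inl rfl
      · intro t ht
        have h1 := hLf t ht
        have h2 : sgn e' = -sgn e := by
          cases e <;> cases e' <;> simp [sgn] at hee ⊢
        rw [h2] at h1
        linarith

end MH
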