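import Pool.Agent.Lib.MP_904526_H.Arc
import Pool.Agent.Lib.MP_904526_H.Contact

/-!
# A crossing and recurrence give a contradiction
-/

set_option autoImplicit false

open Set Filter Topology MeasureTheory

namespace MH

open MD (E hen KM)

theorem fin (c b : ℝ) (hb : b ≠ 0) (hb1 : |b| < 1) (δ : ℝ → E) (hδ : ContDiff ℝ 1 δ)
    (hδi : Function.Injective δ) (hδK : ∀ s, δ s ∈ KM c b hb) (γx : ℝ → E) (hx : Continuous γx)
    (t₀ s₀ : ℝ) (ht₀ : 0 < t₀) (hs₀ : s₀ ≠ 0) (he : γx t₀ = δ s₀) (i : Bool) (κ : ℝ → ℝ)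
    (hL : Loc δ s₀ i κ) (hC : Crs γx δ i κ t₀) (B : ℝ) (hB : |B| < 1)
    (hy : ∀ T e : ℝ, 0 < e → ∃ᶠ k : ℕ in atTop, ∃ (γy : ℝ → E) (m : ℝ), ContDiff ℝ 1 γy ∧
      (∀ t, deriv γy t ≠ 0) ∧ Function.Injective γy ∧ (∀ t, |t| ≤ T → ‖γy t - γx t‖ ≤ e) ∧
      (∀ τ, 0 ≤ τ → γy τ ∈ KM c b hb) ∧ (∀ τ, 0 ≤ τ → γy (m * τ) ∈ KM c b hb) ∧ m ≠ 0 ∧
      γy (m * t₀) = δ (B ^ k * s₀)) : False := by
  obtain ⟨r, hr, ε, hε, hR, hLf⟩ := hC
  have hε0 : ε ≠ 0 := by rcases hε with rfl | rfl <;> norm_num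
  obtain ⟨d, hd⟩ : ∃ d : ℝ, d = ‖δ s₀ - δ 0‖ := ⟨_, rfl⟩
  have hd0 : 0 < d := by
    rw [hd]
    exact norm_pos_iff.2 (sub_ne_zero.2 fun h => hs₀ (hδi h))
  obtain ⟨ρ2, hρ2, hleft⟩ := Metric.eventually_nhds_iff.1 hL.left
  have hev1 : ∀ᶠ u in 𝓝 (Pc i (δ s₀)), ContinuousAt κ u ∧ Pc i (δ (κ u)) = u ∧ |κ u - s₀| < ρ2 / 2 := by
    have k1 := hL.an.continuousAt
    have k2 : Metric.ball s₀ (ρ2 / 2) ∈ 𝓝 (κ (Pc i (δ s₀))) := by
      rw [hL.val]
      exact Metric.ball_mem_nhds s₀ (by linarith)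
    filter_upwards [hL.an.eventually_continuousAt, hL.right, k1 k2] with u h1 h2 h3
    refine ⟨h1, h2, ?_⟩
    rwa [mem_preimage, Metric.mem_ball, Real.dist_eq] at h3
  obtain ⟨ρ1, hρ1, hκ⟩ := Metric.eventually_nhds_iff.1 hev1
  have hev2 : ∀ᶠ t in 𝓝 t₀, |Pc i (γx t) - Pc i (δ s₀)| < ρ1 / 2 ∧ ‖γx t - δ s₀‖ < d / 4 := by
    have k1 : Tendsto (fun t => Pc i (γx t)) (𝓝 t₀) (𝓝 (Pc i (δ s₀))) := by
      rw [← he]
      exact ((Pc_cont i).comp hx).tendsto t₀
    have k2 : Tendsto γx (𝓝 t₀) (𝓝 (δ s₀)) := by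
      rw [← he]
      exact hx.tendsto t₀
    filter_upwards [k1 (Metric.ball_mem_nhds _ (show (0 : ℝ) < ρ1 / 2 by linarith)),
      k2 (Metric.ball_mem_nhds _ (show (0 : ℝ) < d / 4 by linarith))] with t h1 h2
    rw [mem_preimage, Metric.mem_ball, Real.dist_eq] at h1
    rw [mem_preimage, Metric.mem_ball, dist_eq_norm] at h2
    exact ⟨h1, h2⟩
  obtain ⟨r1, hr1, hnear⟩ := Metric.eventually_nhds_iff.1 hev2
  obtain ⟨r', hr'⟩ : ∃ r' : ℝ, r' = min (min r r1) t₀ / 2 := ⟨_, rfl⟩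
  have hmin : 0 < min (min r r1) t₀ := lt_min (lt_min hr hr1) ht₀
  have hr'0 : 0 < r' := by rw [hr']; linarith
  have hr'r : r' < r := by
    have := min_le_left (min r r1) t₀
    have := min_le_left r r1
    rw [hr']; linarith
  have hr'r1 : r' < r1 := by
    have := min_le_left (min r r1) t₀
    have := min_le_right r r1
    rw [hr']; linarith
  have hr't : r' < t₀ := by
    have := min_le_right (min r r1) t₀
    rw [hr']; linarith
  have hnear' : ∀ t ∈ Icc (t₀ - r') (t₀ + r'),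
      |Pc i (γx t) - Pc i (δ s₀)| < ρ1 / 2 ∧ ‖γx t - δ s₀‖ < d / 4 := fun t ht =>
    hnear (show dist t t₀ < r1 by rw [Real.dist_eq, abs_lt]; constructor <;> linarith [ht.1, ht.2])
  -- signs at the end points
  obtain ⟨χ, hχ⟩ : ∃ χ : E → ℝ, χ = fun v => Qc i v - Qc i (δ (κ (Pc i v))) := ⟨_, rfl⟩
  have hχc : ∀ v : E, |Pc i v - Pc i (δ s₀)| < ρ1 → ContinuousAt χ v := by
    intro v hv
    have k1 := (hκ (show dist (Pc i v) (Pc i (δ s₀)) < ρ1 by rwa [Real.dist_eq])).1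
    rw [hχ]
    refine (Qc_cont i).continuousAt.sub ?_
    have k2 : ContinuousAt (fun v => κ (Pc i v)) v :=
      ContinuousAt.comp (f := Pc i) (g := κ) k1 (Pc_cont i).continuousAt
    exact ((Qc_cont i).comp hδ.continuous).continuousAt.comp k2
  have hp : ∀ᶠ v in 𝓝 (γx (t₀ + r')), 0 < ε * χ v := by
    have k1 : ContinuousAt (fun v => ε * χ v) (γx (t₀ + r')) :=
      continuousAt_const.mul (hχc _ (by
        have := (hnear' (t₀ + r') ⟨by linarith, le_rfl⟩).1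
        linarith))
    refine k1.eventually_const_lt ?_
    have := hR (t₀ + r') ⟨by linarith, by linarith⟩
    rw [hχ]
    exact this
  have hm : ∀ᶠ v in 𝓝 (γx (t₀ - r')), 0 < -(ε * χ v) := by
    have k1 : ContinuousAt (fun v => -(ε * χ v)) (γx (t₀ - r')) :=
      (continuousAt_const.mul (hχc _ (by
        have := (hnear' (t₀ - r') ⟨le_rfl, by linarith⟩).1
        linarith))).neg
    refine k1.eventually_const_lt ?_
    have := hLf (t₀ - r') ⟨by linarith, by linarith⟩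
    rw [hχ]
    exact this
  obtain ⟨ep, hep, hep2⟩ := Metric.eventually_nhds_iff.1 hp
  obtain ⟨em, hem, hem2⟩ := Metric.eventually_nhds_iff.1 hm
  obtain ⟨e, hee⟩ : ∃ e : ℝ, e = min (min (ρ1 / 2) (d / 4)) (min ep em) / 2 := ⟨_, rfl⟩
  have hmin2 : 0 < min (min (ρ1 / 2) (d / 4)) (min ep em) :=
    lt_min (lt_min (by linarith) (by linarith)) (lt_min hep hem)
  have he0 : 0 < e := by rw [hee]; linarith
  have heρ : e < ρ1 / 2 := by
    have := min_le_left (min (ρ1 / 2) (d / 4)) (min ep em)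
    have := min_le_left (ρ1 / 2) (d / 4)
    rw [hee]; linarith
  have hed : e < d / 4 := by
    have := min_le_left (min (ρ1 / 2) (d / 4)) (min ep em)
    have := min_le_right (ρ1 / 2) (d / 4)
    rw [hee]; linarith
  have hep' : e < ep := by
    have := min_le_right (min (ρ1 / 2) (d / 4)) (min ep em)
    have := min_le_left ep em
    rw [hee]; linarith
  have hem' : e < em := by
    have := min_le_right (min (ρ1 / 2) (d / 4)) (min ep em)
    have := min_le_right ep em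
    rw [hee]; linarith
  have hBk : ∀ᶠ k : ℕ in atTop, ‖δ (B ^ k * s₀) - δ 0‖ < d / 4 := by
    have k1 : Tendsto (fun k : ℕ => B ^ k * s₀) atTop (𝓝 0) := by
      have := (tendsto_pow_atTop_nhds_zero_of_abs_lt_one hB).mul_const s₀
      rwa [zero_mul] at this
    have k2 := (hδ.continuous.tendsto 0).comp k1
    filter_upwards [k2 (Metric.ball_mem_nhds _ (show (0 : ℝ) < d / 4 by linarith))] with k hk
    rw [mem_preimage, Metric.mem_ball, dist_eq_norm] at hk
    exact hk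
  obtain ⟨k, ⟨γy, m, hγ1, hγ', hγi, hcl, hK1, hK2, hm0, hmt⟩, hkB⟩ :=
    ((hy (t₀ + r') e he0).and_eventually hBk).exists
  have hclI : ∀ t ∈ Icc (t₀ - r') (t₀ + r'), ‖γy t - γx t‖ ≤ e := fun t ht => hcl t (by
    rw [abs_le]
    constructor <;> linarith [ht.1, ht.2])
  have hPy : ∀ t ∈ Icc (t₀ - r') (t₀ + r'), |Pc i (γy t) - Pc i (δ s₀)| < ρ1 := by
    intro t ht
    have k1 := hclI t ht
    have k2 := (hnear' t ht).1
    have k3 := Pc_le i (γy t) (γx t)
    have k4 := abs_sub_le (Pc i (γy t)) (Pc i (γx t)) (Pc i (δ s₀))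
    linarith
  have hzy : ∀ t ∈ Icc (t₀ - r') (t₀ + r'), ‖γy t - δ s₀‖ < d / 2 := by
    intro t ht
    have k1 := hclI t ht
    have k2 := (hnear' t ht).2
    have k3 : ‖γy t - δ s₀‖ ≤ ‖γy t - γx t‖ + ‖γx t - δ s₀‖ := by
      have := norm_add_le (γy t - γx t) (γx t - δ s₀)
      rwa [sub_add_sub_cancel] at this
    linarith
  have hstar : m * t₀ ∉ Icc (t₀ - r') (t₀ + r') := by
    intro hmem
    have k1 := hzy _ hmem
    rw [hmt] at k1
    have k2 : ‖δ s₀ - δ 0‖ ≤ ‖δ s₀ - δ (B ^ k * s₀)‖ + ‖δ (B ^ k * s₀) - δ 0‖ := by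
      have := norm_add_le (δ s₀ - δ (B ^ k * s₀)) (δ (B ^ k * s₀) - δ 0)
      rwa [sub_add_sub_cancel] at this
    rw [norm_sub_rev (δ s₀) (δ (B ^ k * s₀)), ← hd] at k2
    linarith
  -- the height along the nearby curve
  obtain ⟨H, hH⟩ : ∃ H : ℝ → ℝ, H = fun t => χ (γy t) := ⟨_, rfl⟩
  have hHc : ContinuousOn H (Icc (t₀ - r') (t₀ + r')) := by
    intro t ht
    rw [hH]
    exact (ContinuousAt.comp (f := γy) (g := χ) (hχc _ (hPy t ht))
      hγ1.continuous.continuousAt).continuousWithinAt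
  have hHp : 0 < ε * H (t₀ + r') := by
    rw [hH]
    refine hep2 ?_
    rw [dist_eq_norm]
    exact lt_of_le_of_lt (hclI _ ⟨by linarith, le_rfl⟩) hep'
  have hHm : 0 < -(ε * H (t₀ - r')) := by
    rw [hH]
    refine hem2 ?_
    rw [dist_eq_norm]
    exact lt_of_le_of_lt (hclI _ ⟨le_rfl, by linarith⟩) hem'
  have hle : t₀ - r' ≤ t₀ + r' := by linarith
  obtain ⟨Z, hZ⟩ : ∃ Z : Set ℝ, Z = Icc (t₀ - r') (t₀ + r') ∩ H ⁻¹' {0} := ⟨_, rfl⟩
  have hZc : IsCompact Z := by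
    rw [hZ]
    exact isCompact_Icc.of_isClosed_subset
      (hHc.preimage_isClosed_of_isClosed isClosed_Icc isClosed_singleton) inter_subset_left
  have hZne : Z.Nonempty := by
    have k1 : ContinuousOn (fun t => ε * H t) (uIcc (t₀ - r') (t₀ + r')) := by
      rw [uIcc_of_le hle]
      exact continuousOn_const.mul hHc
    have k2 : (0 : ℝ) ∈ uIcc (ε * H (t₀ - r')) (ε * H (t₀ + r')) := by
      rw [uIcc_of_le (by linarith)]
      exact ⟨by linarith, hHp.le⟩
    obtain ⟨t, ht, ht0⟩ := intermediate_value_uIcc k1 k2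
    rw [uIcc_of_le hle] at ht
    rw [hZ]
    exact ⟨t, ht, (mul_eq_zero.1 (show ε * H t = 0 from ht0)).resolve_left hε0⟩
  -- a zero is a point of the arc
  have hzero : ∀ t ∈ Z, γy t = δ (κ (Pc i (γy t))) ∧ |κ (Pc i (γy t)) - s₀| < ρ2 / 2 := by
    intro t ht
    rw [hZ] at ht
    have k1 := hκ (show dist (Pc i (γy t)) (Pc i (δ s₀)) < ρ1 by
      rw [Real.dist_eq]
      exact hPy t ht.1)
    refine ⟨Pc_ext i k1.2.1.symm ?_, k1.2.2⟩
    have k2 : H t = 0 := ht.2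
    rw [hH, hχ] at k2
    linarith
  -- a point of the arc is a zero
  have harc : ∀ t ∈ Icc (t₀ - r') (t₀ + r'), ∀ s : ℝ, |s - s₀| < ρ2 → γy t = δ s → t ∈ Z := by
    intro t ht s hs hts
    rw [hZ]
    refine ⟨ht, ?_⟩
    show H t = 0
    rw [hH, hχ]
    have k1 := hleft (show dist s s₀ < ρ2 by rwa [Real.dist_eq])
    show Qc i (γy t) - Qc i (δ (κ (Pc i (γy t)))) = 0
    rw [hts, k1, sub_self]
  rw [mem_Icc, not_and_or, not_le, not_le] at hstar
  rcases hstar with hst | hst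
  · obtain ⟨t, htZ, htmin⟩ := hZc.exists_isLeast hZne
    obtain ⟨k1, k2⟩ := hzero t htZ
    have htI : t ∈ Icc (t₀ - r') (t₀ + r') := by
      rw [hZ] at htZ
      exact htZ.1
    have htgt : t₀ - r' < t := by
      refine lt_of_le_of_ne htI.1 fun h => ?_
      have : H t = 0 := by
        rw [hZ] at htZ
        exact htZ.2
      rw [← h] at this
      rw [this] at hHm
      simp at hHm
    refine arc' c b hb hb1 γy δ hγ1 hγ' hγi hδ hδi hδK t _ (m * t₀) (B ^ k * s₀) (by linarith) k1 hmt ?_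
      (min (ρ2 / 2) (t - (t₀ - r'))) (lt_min (by linarith) (by linarith)) ?_
    · intro τ hτ
      rcases le_or_gt 0 τ with h | h
      · exact hK1 τ h
      · have hmneg : m < 0 := by
          have k3 : m * t₀ < 0 := lt_of_le_of_lt hτ.1 h
          by_contra hcon
          rw [not_lt] at hcon
          nlinarith
        have k4 := hK2 (τ / m) (div_nonneg_of_nonpos h.le hmneg.le)
        rwa [mul_div_cancel₀ _ hm0] at k4
    · intro s hs τ hτ hγτ
      have k3 := min_le_left (ρ2 / 2) (t - (t₀ - r'))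
      have k4 := min_le_right (ρ2 / 2) (t - (t₀ - r'))
      have k5 : |s - s₀| < ρ2 := by
        have := abs_sub_le s (κ (Pc i (γy t))) s₀
        linarith
      have k6 : τ ∈ Icc (t₀ - r') (t₀ + r') := ⟨by linarith [hτ.1], by linarith [hτ.2, htI.2]⟩
      have k7 := htmin (harc τ k6 s k5 hγτ)
      linarith [hτ.2]
  · obtain ⟨t, htZ, htmax⟩ := hZc.exists_isGreatest hZne
    obtain ⟨k1, k2⟩ := hzero t htZ
    have htI : t ∈ Icc (t₀ - r') (t₀ + r') := by
      rw [hZ] at htZ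
      exact htZ.1
    have htlt : t < t₀ + r' := by
      refine lt_of_le_of_ne htI.2 fun h => ?_
      have : H t = 0 := by
        rw [hZ] at htZ
        exact htZ.2
      rw [h] at this
      rw [this] at hHp
      simp at hHp
    refine arc c b hb hb1 γy δ hγ1 hγ' hγi hδ hδi hδK t _ (m * t₀) (B ^ k * s₀) (by linarith) k1 hmt ?_
      (min (ρ2 / 2) (t₀ + r' - t)) (lt_min (by linarith) (by linarith)) ?_
    · intro τ hτ
      exact hK1 τ (by linarith [hτ.1, htI.1])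
    · intro s hs τ hτ hγτ
      have k3 := min_le_left (ρ2 / 2) (t₀ + r' - t)
      have k4 := min_le_right (ρ2 / 2) (t₀ + r' - t)
      have k5 : |s - s₀| < ρ2 := by
        have := abs_sub_le s (κ (Pc i (γy t))) s₀
        linarith
      have k6 : τ ∈ Icc (t₀ - r') (t₀ + r') := ⟨by linarith [hτ.1, htI.1], by linarith [hτ.2]⟩
      have k7 := htmax (harc τ k6 s k5 hγτ)
      linarith [hτ.1]

end MH
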