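import Pool.Agent.Lib.MP_904526_an.G1

/-!
# Rec: recurrence of curves (est. 120 lines)
PROOF IN WORDS. Let `D` be a countable dense set of `C(Icc (-T) T, E)`, T a natural number (second
countable); for `g ∈ D`, `M R T N : ℕ`, `σ = ±1` let `B` be the set of the `y` with
`‖γ y t - g t‖ ≤ 1/(M+1)` for all rational `t` in `[-T, T]` and `‖γ y t‖ ≤ R` for all rational `t` with
`0 < σ t`. `B` is null measurable (countable intersections, `hm`; compare `g1_B_null` in G1), so by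
Poincare (`(hf.symm.iterate N).conservative.ae_mem_imp_frequently_image_mem`, compare G1.bdd_side, and
`Function.iterate_mul`) a.e. `x ∈ B` has `f.symm^[N*k] x ∈ B` for infinitely many `k`. For a.e. `x` all
`γ (f.symm^[n] x)` are continuous. Given `x`, `T`, `ε`: enlarge `T` to a natural number, choose `M` with
`2/(M+1) ≤ ε`, `g ∈ D` with `sup ‖γ x - g‖ ≤ 1/(M+1)` and `R` for the bounded side; then `x ∈ B`, and
`y ∈ B` gives `‖γ y t - γ x t‖ ≤ 2/(M+1)` for rational `t`, by continuity for all real `|t| ≤ T`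
(`g1_dense` in G1 is the pattern for the side).
-/

set_option autoImplicit false

open Set Filter Topology MeasureTheory

namespace MH

open MD (E)

private def RB (γ : E → ℝ → E) (σ : ℝ) (T M R : ℕ) (g : C(Icc (-(T : ℝ)) (T : ℝ), E)) : Set E :=
  {y | (∀ (r : ℚ) (h : (r : ℝ) ∈ Icc (-(T : ℝ)) (T : ℝ)), ‖γ y r - g ⟨r, h⟩‖ ≤ 1 / ((M : ℝ) + 1)) ∧
    y ∈ MD.g1_B γ σ R}

private theorem RB_null (μ : Measure E) (γ : E → ℝ → E) (hm : ∀ t, AEMeasurable (fun x => γ x t) μ)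
    (σ : ℝ) (T M R : ℕ) (g : C(Icc (-(T : ℝ)) (T : ℝ), E)) : NullMeasurableSet (RB γ σ T M R g) μ := by
  have e : RB γ σ T M R g = (⋂ r : ℚ, ⋂ h : (r : ℝ) ∈ Icc (-(T : ℝ)) (T : ℝ),
      {y | ‖γ y r - g ⟨r, h⟩‖ ≤ 1 / ((M : ℝ) + 1)}) ∩ MD.g1_B γ σ R := by
    ext y
    simp only [RB, mem_ofPred_eq, mem_inter_iff, mem_iInter]
  rw [e]
  refine (NullMeasurableSet.iInter fun r => NullMeasurableSet.iInter fun h => ?_).inter
    (MD.g1_B_null μ γ hm σ R)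
  exact nullMeasurableSet_le ((hm _).sub_const _).norm aemeasurable_const

private theorem RB_close (γ : E → ℝ → E) (x y : E) (hx : Continuous (γ x)) (hy : Continuous (γ y))
    (σ : ℝ) (T M R : ℕ) (g : C(Icc (-(T : ℝ)) (T : ℝ), E)) (h1 : x ∈ RB γ σ T M R g)
    (h2 : y ∈ RB γ σ T M R g) (ε : ℝ) (hε : 2 / ((M : ℝ) + 1) ≤ ε) (t : ℝ) (ht : |t| < T) :
    ‖γ y t - γ x t‖ ≤ ε := by
  by_contra hneg
  push Not at hneg
  have hopen : IsOpen ({s : ℝ | ε < ‖γ y s - γ x s‖} ∩ Ioo (-(T : ℝ)) T) :=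
    (isOpen_lt continuous_const (hy.sub hx).norm).inter isOpen_Ioo
  have hne : ({s : ℝ | ε < ‖γ y s - γ x s‖} ∩ Ioo (-(T : ℝ)) T).Nonempty :=
    ⟨t, hneg, (abs_lt.1 ht).1, (abs_lt.1 ht).2⟩
  obtain ⟨r, hr1, hr2⟩ := (Rat.denseRange_cast (𝕜 := ℝ)).exists_mem_open hopen hne
  have hr3 : (r : ℝ) ∈ Icc (-(T : ℝ)) (T : ℝ) := ⟨hr2.1.le, hr2.2.le⟩
  have h3 := h1.1 r hr3
  have h4 := h2.1 r hr3
  have h5 : ε < ‖γ y r - γ x r‖ := hr1
  have h6 : ‖γ y r - γ x r‖ ≤ ‖γ y r - g ⟨r, hr3⟩‖ + ‖γ x r - g ⟨r, hr3⟩‖ := by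
    have e : γ y r - γ x r = (γ y r - g ⟨r, hr3⟩) - (γ x r - g ⟨r, hr3⟩) := by abel
    rw [e]
    exact norm_sub_le _ _
  have h7 : 2 / ((M : ℝ) + 1) = 1 / ((M : ℝ) + 1) + 1 / ((M : ℝ) + 1) := by ring
  linarith

theorem recur (f : E ≃ₜ E) (μ : Measure E) [IsProbabilityMeasure μ]
    (hf : MeasurePreserving f μ μ) (γ : E → ℝ → E) (hm : ∀ t, AEMeasurable (fun x => γ x t) μ)
    (hc : ∀ᵐ x ∂μ, Continuous (γ x)) :
    ∀ᵐ x ∂μ, ∀ N : ℕ, 1 ≤ N → ∀ σ : ℝ, (σ = 1 ∨ σ = -1) →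
      Bornology.IsBounded (γ x '' {t : ℝ | 0 < σ * t}) → ∀ T ε : ℝ, 0 < ε →
      ∃ᶠ k : ℕ in atTop, (∀ t : ℝ, |t| ≤ T → ‖γ (f.symm^[N * k] x) t - γ x t‖ ≤ ε) ∧
        Bornology.IsBounded (γ (f.symm^[N * k] x) '' {t : ℝ | 0 < σ * t}) := by
  have hf' : MeasurePreserving f.symm μ μ := hf.symm f.toMeasurableEquiv
  have hgood1 : ∀ᵐ x ∂μ, ∀ n : ℕ, Continuous (γ (f.symm^[n] x)) := by
    rw [ae_all_iff]
    intro n
    exact (hf'.iterate n).quasiMeasurePreserving.ae hc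
  have hrec1 : ∀ σ : ℝ, ∀ᵐ x ∂μ, ∀ N T M R i : ℕ,
      x ∈ RB γ σ T M R (TopologicalSpace.denseSeq C(Icc (-(T : ℝ)) (T : ℝ), E) i) →
        ∃ᶠ k : ℕ in atTop, f.symm^[N * k] x ∈
          RB γ σ T M R (TopologicalSpace.denseSeq C(Icc (-(T : ℝ)) (T : ℝ), E) i) := by
    intro σ
    simp only [ae_all_iff]
    intro N T M R i
    have h := (hf'.iterate N).conservative.ae_mem_imp_frequently_image_mem
      (RB_null μ γ hm σ T M R (TopologicalSpace.denseSeq C(Icc (-(T : ℝ)) (T : ℝ), E) i))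
    filter_upwards [h] with x hx hxB
    refine (hx hxB).mono fun k hk => ?_
    rw [Function.iterate_mul]
    exact hk
  filter_upwards [hgood1, hrec1 1, hrec1 (-1)] with x hx1 hx2 hx3 N hN σ hσ hb T ε hε
  have hx0 : Continuous (γ x) := hx1 0
  obtain ⟨R, hR⟩ := mem_iUnion.1 (MD.g1_bdd γ x σ hσ hb)
  obtain ⟨T', hT'⟩ := exists_nat_gt T
  obtain ⟨M, hM⟩ := exists_nat_ge (2 / ε)
  have hM1 : (0 : ℝ) < (M : ℝ) + 1 := by positivity
  have hM2 : 2 / ((M : ℝ) + 1) ≤ ε := by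
    rw [div_le_iff₀ hM1]
    rw [div_le_iff₀ hε] at hM
    nlinarith
  let G : C(Icc (-(T' : ℝ)) (T' : ℝ), E) := ⟨fun t => γ x t, hx0.comp continuous_subtype_val⟩
  obtain ⟨i, hi⟩ := (TopologicalSpace.denseRange_denseSeq C(Icc (-(T' : ℝ)) (T' : ℝ), E)).exists_dist_lt
    G (show (0 : ℝ) < 1 / ((M : ℝ) + 1) by positivity)
  have hxB : x ∈ RB γ σ T' M R (TopologicalSpace.denseSeq C(Icc (-(T' : ℝ)) (T' : ℝ), E) i) := by
    refine ⟨fun r h => ?_, hR⟩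
    have h1 := (ContinuousMap.dist_apply_le_dist (f := G)
      (g := TopologicalSpace.denseSeq C(Icc (-(T' : ℝ)) (T' : ℝ), E) i) ⟨r, h⟩).trans hi.le
    rw [dist_eq_norm] at h1
    exact h1
  have hfr : ∃ᶠ k : ℕ in atTop, f.symm^[N * k] x ∈
      RB γ σ T' M R (TopologicalSpace.denseSeq C(Icc (-(T' : ℝ)) (T' : ℝ), E) i) := by
    rcases hσ with rfl | rfl
    · exact hx2 N T' M R i hxB
    · exact hx3 N T' M R i hxB
  refine hfr.mono fun k hk => ⟨fun t ht => ?_, ?_⟩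
  · exact RB_close γ x _ hx0 (hx1 _) σ T' M R _ hxB hk ε hM2 t (lt_of_le_of_lt ht hT')
  · rw [isBounded_iff_forall_norm_le]
    refine ⟨R, ?_⟩
    rintro _ ⟨t, ht, rfl⟩
    exact MD.g1_dense γ _ (hx1 _) σ hσ R hk.2 t ht

end MH
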