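import Pool.Agent.Lib.MP_904526_H.Half
import Pool.Agent.Lib.MP_904526_H.Fin
import Pool.Agent.Lib.MP_904526_H.Rec
import Pool.Agent.Lib.MP_904526_H.Cnt
import Pool.Agent.Lib.MP_904526_E.MB2
import Pool.Agent.Lib.MP_904526_E.N4
import Pool.Agent.Lib.MP_904526_H.Clo3

/-!
# All ergodic measures
-/

set_option autoImplicit false

open Set Filter Topology MeasureTheory

namespace MH

open MD (E hen KM KK wg wt coc Dh Lh Ph Sd leaf LeafAt)
open ME (cx cx_inj)

/-- a real curve which extends to an entire curve is analytic -/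
theorem anC_of (γ : ℝ → E) (ψ : ℂ → ℂ × ℂ) (hψ : Differentiable ℂ ψ)
    (hr : ∀ t : ℝ, ψ (t : ℂ) = cx (γ t)) : AnC γ := by
  have h1 : ∀ t : ℝ, AnalyticAt ℝ (fun t => (γ t).1) t := by
    intro t
    have k1 := ((fst_diff hψ).analyticAt (t : ℂ)).re_ofReal
    refine k1.congr (Eventually.of_forall fun s => ?_)
    show ((ψ (s : ℂ)).1).re = (γ s).1
    rw [hr]
    rfl
  have h2 : ∀ t : ℝ, AnalyticAt ℝ (fun t => (γ t).2) t := by
    intro t
    have k1 := ((snd_diff hψ).analyticAt (t : ℂ)).re_ofReal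
    refine k1.congr (Eventually.of_forall fun s => ?_)
    show ((ψ (s : ℂ)).2).re = (γ s).2
    rw [hr]
    rfl
  intro i t
  cases i
  · exact h2 t
  · exact h1 t

/-- the properties of almost every stable curve -/
structure Pnt (c b : ℝ) (hb : b ≠ 0) (α : ℝ) (γs : E → ℝ → E) (S : E → E) (x : E) : Prop where
  g1 : ContDiff ℝ 1 (γs x)
  g2 : ∀ t, deriv (γs x) t ≠ 0
  lf : LeafAt (hen c b hb) γs S α x
  g5 : ∀ y, y ∈ range (γs x) ↔ St (hen c b hb) x y
  side : ∀ σ : ℝ, (σ = 1 ∨ σ = -1) → Bornology.IsBounded (γs x '' {t : ℝ | 0 < σ * t}) →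
    ∀ t : ℝ, 0 < σ * t → γs x t ∈ KM c b hb
  ex : ∃ ψ : ℂ → ℂ × ℂ, Differentiable ℂ ψ ∧ ∀ t : ℝ, ψ (t : ℂ) = cx (γs x t)
  kk : x ∈ KK c b hb

theorem km_symm (c b : ℝ) (hb : b ≠ 0) (y : E) (hy : y ∈ KM c b hb) (n : ℕ) :
    (hen c b hb).symm^[n] y ∈ KM c b hb := by
  obtain ⟨B, hB⟩ := hy
  refine ⟨B, fun k => ?_⟩
  rw [← Function.iterate_add_apply]
  exact hB _

theorem kk_km (c b : ℝ) (hb : b ≠ 0) (y : E) (hy : y ∈ KK c b hb) : y ∈ KM c b hb :=
  ⟨_, fun n => (hy n).2⟩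

/-- the curves are mapped to curves by the inverse map -/
theorem pnt_map (c b : ℝ) (hb : b ≠ 0) (α : ℝ) (γs : E → ℝ → E) (S : E → E) (x : E)
    (h : ∀ n : ℕ, Pnt c b hb α γs S ((hen c b hb).symm^[n] x)) (n : ℕ) :
    ∃ m : ℝ, m ≠ 0 ∧ ∀ t, (hen c b hb).symm^[n] (γs x t) = γs ((hen c b hb).symm^[n] x) (m * t) := by
  induction n with
  | zero => exact ⟨1, one_ne_zero, fun t => by simp⟩
  | succ n ih =>
    obtain ⟨m, hm0, hmt⟩ := ih
    obtain ⟨m', hm0', hmt'⟩ := (h (n + 1)).lf.equi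
    refine ⟨m / m', div_ne_zero hm0 hm0', fun t => ?_⟩
    have e1 : hen c b hb ((hen c b hb).symm^[n + 1] x) = (hen c b hb).symm^[n] x := by
      rw [Function.iterate_succ_apply', Homeomorph.apply_symm_apply]
    rw [Function.iterate_succ_apply', hmt t]
    apply (hen c b hb).injective
    rw [Homeomorph.apply_symm_apply, hmt', e1]
    congr 1
    field_simp

/-- the return map of a periodic point is linear in the parameter of its stable curve -/
theorem lin_all (c b : ℝ) (hb : b ≠ 0) (α : ℝ) (hα : 0 < α) (γs : E → ℝ → E) (S : E → E) (x : E)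
    (h : ∀ n : ℕ, Pnt c b hb α γs S ((hen c b hb).symm^[n] x)) (n : ℕ) (hn : 1 ≤ n)
    (hxN : (hen c b hb)^[n] x = x) : ∃ A : ℝ, A ≠ 0 ∧ |A| < 1 ∧
      (∀ t, (hen c b hb).symm^[n] (γs x t) = γs x (A⁻¹ * t)) ∧
      ∀ t, (hen c b hb)^[n] (γs x t) = γs x (A * t) := by
  have hx0 := h 0
  simp only [Function.iterate_zero, id_eq] at hx0
  have hxs : (hen c b hb).symm^[n] x = x := symm_fix _ n x hxN
  obtain ⟨m₀, hm0, hmt⟩ := pnt_map c b hb α γs S x h n
  rw [hxs] at hmt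
  have hgA : ∀ t, (hen c b hb)^[n] (γs x t) = γs x (m₀⁻¹ * t) := by
    intro t
    have k1 := hmt (m₀⁻¹ * t)
    rw [mul_inv_cancel_left₀ hm0] at k1
    rw [← k1]
    have k2 := MD.iter_symm (hen c b hb) n 0 (γs x (m₀⁻¹ * t))
    rw [zero_add] at k2
    exact k2
  obtain ⟨A₀, hA₀, hA⟩ := hx0.lf.loc
  obtain ⟨r₀, hr₀, hr⟩ := hA A₀ le_rfl 1 one_pos
  have hA1 : |m₀⁻¹| < 1 := scale_lt (hen c b hb) (γs x) n hn x hxN m₀⁻¹ α hα (inv_ne_zero hm0) hgA
    hx0.lf.inj hx0.lf.zero r₀ A₀ hr₀ (by linarith) (hr r₀ hr₀ le_rfl).near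
  refine ⟨m₀⁻¹, inv_ne_zero hm0, hA1, fun t => ?_, hgA⟩
  rw [inv_inv]
  exact hmt t

/-- the return maps act linearly on the curve `γ` -/
def Lin (c b : ℝ) (hb : b ≠ 0) (x : E) (γ : ℝ → E) : Prop :=
  ∀ n : ℕ, 1 ≤ n → (hen c b hb)^[n] x = x → ∃ A : ℝ, A ≠ 0 ∧ |A| < 1 ∧
    (∀ t, (hen c b hb).symm^[n] (γ t) = γ (A⁻¹ * t)) ∧ ∀ t, (hen c b hb)^[n] (γ t) = γ (A * t)

/-- the points with a bounded full orbit which are in the unstable set of no periodic saddle -/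
def residualSet (c b : ℝ) : Set (ℝ × ℝ) :=
  {y | (∃ B : ℝ, ∀ n : ℕ, ‖(henonMap c b)^[n] y‖ ≤ B ∧ ‖(henonInv c b)^[n] y‖ ≤ B) ∧
    ∀ q : ℝ × ℝ, IsSaddle c b q → y ∉ unstableSet c b q}

/-- `Γ` is contained in the residual set, and its closure is a null set for every ergodic measure
without atoms and with a positive top exponent -/
def Avoids (c b : ℝ) (Γ : Set (ℝ × ℝ)) : Prop :=
  Γ ⊆ residualSet c b ∧ ∀ ν : Measure (ℝ × ℝ), IsProbabilityMeasure ν → Ergodic (henonMap c b) ν →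
    (∀ x, ν {x} = 0) → 0 < topExponent c b ν → ν (closure Γ) = 0

theorem all (c b : ℝ) (hb : b ≠ 0) (hb0 : 0 < |b|) (hb1 : |b| < 1) (μ : Measure (ℝ × ℝ))
    (hp : IsProbabilityMeasure μ) (hμ : Ergodic (henonMap c b) μ) (hs : ¬ ME.SupportedOnSink c b μ) :
    0 ≤ topExponent c b μ ∧
    ∀ᵐ x ∂μ, ∃ γ : ℝ → ℝ × ℝ, ContDiff ℝ 1 γ ∧ (∀ t, deriv γ t ≠ 0) ∧ Function.Injective γ ∧
      γ 0 = x ∧ range γ = stableSet c b x ∧
      (Bornology.IsBounded (γ '' Ioi 0) → Avoids c b (γ '' Ioi 0)) ∧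
      (Bornology.IsBounded (γ '' Iio 0) → Avoids c b (γ '' Iio 0)) ∧
      Lin c b hb x γ ∧
      (Real.log (2 * |b|) < topExponent c b μ →
        ¬ (Bornology.IsBounded (γ '' Ioi 0) ∧ Bornology.IsBounded (γ '' Iio 0))) ∧
      (Real.log (4 * |b|) < topExponent c b μ →
        ¬ Bornology.IsBounded (γ '' Ioi 0) ∧ ¬ Bornology.IsBounded (γ '' Iio 0)) := by
  refine ⟨top_nonneg c b hb hb1 μ hμ hs, ?_⟩
  have hexp := expo c b hb hb1 μ hμ hs
  obtain ⟨f, hf⟩ : ∃ f : E ≃ₜ E, f = hen c b hb := ⟨_, rfl⟩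
  have hfe : Ergodic f μ := by rw [hf]; exact hμ
  have hfp : MeasurePreserving f μ μ := hfe.toMeasurePreserving
  have hsp : MeasurePreserving f.symm μ μ := hfp.symm f.toMeasurableEquiv
  obtain ⟨-, Λ, hΛ0, -, hΛ⟩ := ME.exps c b hb hb1 μ hμ hs
  obtain ⟨M, h⟩ := MD.hen_sys c b hb
  rw [← hf] at h hΛ
  have hK : μ (KK c b hb)ᶜ = 0 := MD.kk_ae c b hb hb1 μ hμ.toMeasurePreserving
  have hlog : Real.log |b| < 0 := Real.log_neg hb0 hb1
  obtain ⟨χ, hχ⟩ : ∃ χ : ℝ, χ = Λ - Real.log |b| := ⟨_, rfl⟩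
  have hχ0 : 0 < χ := by rw [hχ]; linarith
  have hε : 0 < χ / 10 := by linarith
  have hε2 : 5 * (χ / 10) ≤ Λ - Real.log |b| := by rw [← hχ]; linarith
  have hε3 : 2 * (χ / 10) < 2 * Λ - Real.log |b| := by
    have : χ ≤ 2 * Λ - Real.log |b| := by rw [hχ]; linarith
    linarith
  have hT := MD.tame_ae h μ hfe hK Λ hΛ _ hε hε2 hε3
  have hF := ME.leaf_full0 h μ hfe hK Λ hΛ _ hε hε2 hε3 hΛ0
  have hE := MD.leaf_ae h μ hfe hK Λ hΛ _ hε hε2 hε3
  have hmeas := MD.leaf_meas h μ hfe hK Λ hΛ _ hε hε2 hε3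
  have hside := MD.bdd_side f μ hfp (leaf (Dh b) (Lh b) (Ph b) f) hmeas
    (hE.mono fun x hx => hx.cont) (hE.mono fun x hx => hx.equi) (KM c b hb)
    (fun y hy => MD.km_of_freq c b hb hb1 y (by rw [← hf]; exact hy))
  have hKae : ∀ᵐ x ∂μ, x ∈ KK c b hb := hK
  have hrec := recur f μ hfp (leaf (Dh b) (Lh b) (Ph b) f) hmeas (hE.mono fun x hx => hx.cont)
  obtain ⟨γs, hγs⟩ : ∃ γs, γs = leaf (Dh b) (Lh b) (Ph b) f := ⟨_, rfl⟩
  obtain ⟨S, hS⟩ : ∃ S, S = Sd (Dh b) f := ⟨_, rfl⟩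
  obtain ⟨α, hα⟩ : ∃ α : ℝ, α = Λ - Real.log |b| - χ / 10 := ⟨_, rfl⟩
  have hα0 : 0 < α := by rw [hα, ← hχ]; linarith
  rw [← hγs] at hF hside hrec
  rw [← hγs, ← hS, ← hα] at hE
  have hP : ∀ᵐ x ∂μ, Pnt c b hb α γs S x := by
    filter_upwards [hT, hF, hE, hside, hKae] with x h1 h2 h3 h4 h5
    obtain ⟨C, hC⟩ := h1
    obtain ⟨k1, k2⟩ := MD.leaf_c1 h x C _ _ hC
    rw [← hγs] at k1 k2
    refine ⟨k1, k2, by rw [← hf]; exact h3, fun y => ?_, h4, ?_, h5⟩
    · rw [h2 y, ← hf]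
      exact Iff.rfl
    · obtain ⟨ψ, hψ1, hψ2⟩ := cpx_curve hC (ME.PhC b) (ME.PhC_zero b) (ME.PhC_lip b)
        (ME.PhC_cx b) (ME.PhC_diff b) x
      refine ⟨ψ, hψ1, fun t => ?_⟩
      rw [hψ2, hγs]
      rfl
  have hPn : ∀ᵐ x ∂μ, ∀ n : ℕ, Pnt c b hb α γs S ((hen c b hb).symm^[n] x) := by
    rw [ae_all_iff]
    intro n
    rw [← hf]
    exact (hsp.iterate n).quasiMeasurePreserving.ae hP
  -- the saddles and their unstable curves
  obtain ⟨Q, hQ⟩ : ∃ Q : Set E, Q = {q | IsSaddle c b q} := ⟨_, rfl⟩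
  have hQc : Q.Countable := by rw [hQ]; exact saddles_countable c b hb0 hb1
  have hdata : ∀ q : E, ∃ δ : ℝ → E, q ∈ Q → ∃ (n : ℕ) (γ : ℝ → E) (S U : E) (A B : ℝ)
      (ψ φ : ℂ → ℂ × ℂ), 1 ≤ n ∧ Saddle c b hb n q γ δ S U A B ψ φ := by
    intro q
    by_cases hq : q ∈ Q
    · have hq' : IsSaddle c b q := by rw [hQ] at hq; exact hq
      obtain ⟨n, γ, δ, S, U, A, B, ψ, φ, hn, hs⟩ := hq'.data hb hb1
      exact ⟨δ, fun _ => ⟨n, γ, S, U, A, B, ψ, φ, hn, hs⟩⟩
    · exact ⟨fun _ => 0, fun h => absurd h hq⟩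
  choose D hD using hdata
  have hfin : ∀ (x : E) (γ : ℝ → E), ContDiff ℝ 1 γ → (∀ t, deriv γ t ≠ 0) → Function.Injective γ →
      x ∈ KK c b hb → (∀ y, y ∈ range γ ↔ St (hen c b hb) x y) →
      (∀ σ : ℝ, (σ = 1 ∨ σ = -1) → Bornology.IsBounded (γ '' {t : ℝ | 0 < σ * t}) →
        ∀ t : ℝ, 0 < σ * t → γ t ∈ KM c b hb) →
      (∀ σ : ℝ, (σ = 1 ∨ σ = -1) → ∀ q ∈ Q, ∀ t : ℝ, 0 < σ * t →
        γ t ∈ range (D q) → ¬ Bornology.IsBounded (γ '' {t : ℝ | 0 < σ * t})) →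
      (Bornology.IsBounded (γ '' Ioi 0) → Avoids c b (γ '' Ioi 0)) ∧
      (Bornology.IsBounded (γ '' Iio 0) → Avoids c b (γ '' Iio 0)) := by
    intro x γ q1 q2 q3 hxK hr hsd key
    have hres : ∀ σ : ℝ, (σ = 1 ∨ σ = -1) → Bornology.IsBounded (γ '' {t : ℝ | 0 < σ * t}) →
        ∀ t : ℝ, 0 < σ * t → γ t ∈ residualSet c b := by
      intro σ hσ hbd t ht
      constructor
      · obtain ⟨B, hB⟩ := hsd σ hσ hbd t ht
        obtain ⟨κ, hκ, C, hC⟩ := (hr (γ t)).1 ⟨t, rfl⟩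
        refine ⟨max (|C| + (3 + |c|)) B, fun n => ⟨?_, (hB n).trans (le_max_right _ _)⟩⟩
        refine le_trans ?_ (le_max_left _ _)
        have k1 := hC n
        have k2 := (hxK n).1
        have k3 : C * wt κ n ≤ |C| := by
          have k4 : wt κ n ≤ 1 := by
            unfold wt
            rw [Real.exp_le_one_iff]
            have : (0 : ℝ) ≤ n := Nat.cast_nonneg n
            nlinarith
          have k5 := (MD.wt_pos κ n).le
          have k6 := le_abs_self C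
          have k7 := abs_nonneg C
          nlinarith
        have k8 : ‖(hen c b hb)^[n] (γ t)‖ ≤ ‖(hen c b hb)^[n] (γ t) - (hen c b hb)^[n] x‖ +
            ‖(hen c b hb)^[n] x‖ := by
          have := norm_add_le ((hen c b hb)^[n] (γ t) - (hen c b hb)^[n] x) ((hen c b hb)^[n] x)
          simpa using this
        exact k8.trans (by linarith)
      · intro q hq hm
        have hqQ : q ∈ Q := by rw [hQ]; exact hq
        obtain ⟨n', γ', S', U', A', B', ψ', φ', hn', h'⟩ := hD q hqQ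
        have hun : γ t ∈ range (D q) := by
          rw [h'.d5]
          exact hm
        exact key σ hσ q hqQ t ht hun hbd
    have e1 : {t : ℝ | 0 < 1 * t} = Ioi 0 := by ext t; simp
    have e2 : {t : ℝ | 0 < -1 * t} = Iio 0 := by ext t; simp
    constructor
    · intro hbd
      refine ⟨?_, ?_⟩
      · rintro _ ⟨t, ht, rfl⟩
        exact hres 1 (Or.inl rfl) (by rw [e1]; exact hbd) t (by rw [one_mul]; exact ht)
      · intro ν n1 n2 n3 n4
        exact clo c b hb hb1 ν n2 n3 n4 x γ q1 q2 q3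
          (fun t ht => hsd 1 (Or.inl rfl) (by rw [e1]; exact hbd) t (by rw [one_mul]; exact ht))
          (fun t => (hr _).1 ⟨t, rfl⟩)
    · intro hbd
      refine ⟨?_, ?_⟩
      · rintro _ ⟨t, ht, rfl⟩
        rw [mem_Iio] at ht
        exact hres (-1) (Or.inr rfl) (by rw [e2]; exact hbd) t (by linarith)
      · intro ν n1 n2 n3 n4
        have e3 : γ '' Iio 0 = (fun t => γ (-t)) '' Ioi 0 := by
          ext y
          constructor
          · rintro ⟨t, ht, rfl⟩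
            rw [mem_Iio] at ht
            refine ⟨-t, by rw [mem_Ioi]; linarith, ?_⟩
            show γ (- -t) = γ t
            rw [neg_neg]
          · rintro ⟨t, ht, rfl⟩
            rw [mem_Ioi] at ht
            exact ⟨-t, by rw [mem_Iio]; linarith, rfl⟩
        rw [e3]
        refine clo c b hb hb1 ν n2 n3 n4 x (fun t => γ (-t)) (q1.comp contDiff_neg) ?_ ?_ ?_
          (fun t => (hr _).1 ⟨-t, rfl⟩)
        · intro t
          have hd : HasDerivAt γ (deriv γ (-t)) (-t) :=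
            ((q1.differentiable (by norm_num)).differentiableAt).hasDerivAt
          have k1 := hd.scomp t (hasDerivAt_neg t)
          have k2 : deriv (fun t => γ (-t)) t = (-1 : ℝ) • deriv γ (-t) := k1.deriv
          rw [k2]
          exact smul_ne_zero (by norm_num) (q2 _)
        · intro t t' htt
          exact neg_injective (q3 htt)
        · intro t ht
          exact hsd (-1) (Or.inr rfl) (by rw [e2]; exact hbd) (-t) (by linarith)
  by_cases hna : ∀ x, μ {x} = 0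
  · -- no atoms
    have hcon := contact f μ hna hfp Q hQc D (fun q hq => by
      obtain ⟨n', γ', S', U', A', B', ψ', φ', hn', h'⟩ := hD q hq
      exact anC_of (D q) φ' h'.φd h'.φr)
    have hnq : ∀ᵐ x ∂μ, ∀ q ∈ Q, ¬ St f q x := by
      rw [ae_ball_iff hQc]
      intro q _
      rw [ae_iff]
      simpa only [not_not] using st_null f μ hna hfp q
    filter_upwards [hPn, hrec, hcon, hnq, hexp] with x hx hxr hxc hxq hxe
    have hx0 := hx 0
    simp only [Function.iterate_zero, id_eq] at hx0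
    suffices key : ∀ σ : ℝ, (σ = 1 ∨ σ = -1) → ∀ q ∈ Q, ∀ t : ℝ, 0 < σ * t →
        γs x t ∈ range (D q) → ¬ Bornology.IsBounded (γs x '' {t : ℝ | 0 < σ * t}) by
      obtain ⟨r1, r2⟩ := hfin x (γs x) hx0.g1 hx0.g2 hx0.lf.inj hx0.kk hx0.g5 hx0.side key
      have hex := hxe (γs x) (by rw [hγs, hf])
      refine ⟨γs x, hx0.g1, hx0.g2, hx0.lf.inj, hx0.lf.zero, ?_, r1, r2,
        lin_all c b hb α hα0 γs S x hx, hex.1, hex.2⟩
      ext y
      rw [hx0.g5 y]
      exact Iff.rfl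
    intro σ hσ q hq t₀ ht₀ hz hbd
    obtain ⟨s₀, hs₀⟩ := hz
    obtain ⟨n', γ', S', U', A', B', ψ', φ', hn', h'⟩ := hD q hq
    have hss : σ * σ = 1 := by rcases hσ with rfl | rfl <;> norm_num
    have hσ0 : σ ≠ 0 := by
      rintro rfl
      norm_num at hss
    have hs0 : s₀ ≠ 0 := by
      rintro rfl
      apply hxq q hq
      rw [h'.d4] at hs₀
      have k1 := (hx0.g5 _).1 ⟨t₀, hs₀.symm⟩
      rw [← hf] at k1
      exact k1.symm
    have hlin : ContDiff ℝ 1 (fun t : ℝ => σ * t) := contDiff_const.mul contDiff_id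
    have hc1 : ∀ y : E, Pnt c b hb α γs S y → ContDiff ℝ 1 (fun t => γs y (σ * t)) :=
      fun y hy => hy.g1.comp hlin
    have hc2 : ∀ y : E, Pnt c b hb α γs S y → ∀ t, deriv (fun t => γs y (σ * t)) t ≠ 0 := by
      intro y hy t
      have hd : HasDerivAt (γs y) (deriv (γs y) (σ * t)) (σ * t) :=
        ((hy.g1.differentiable (by norm_num)).differentiableAt).hasDerivAt
      have hl : HasDerivAt (fun t : ℝ => σ * t) σ t := by
        simpa using (hasDerivAt_id t).const_mul σ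
      have k1 := hd.scomp t hl
      have k2 : deriv (fun t => γs y (σ * t)) t = σ • deriv (γs y) (σ * t) := k1.deriv
      rw [k2]
      exact smul_ne_zero hσ0 (hy.g2 _)
    have hc3 : ∀ y : E, Pnt c b hb α γs S y → Function.Injective (fun t => γs y (σ * t)) := by
      intro y hy t t' htt
      exact mul_left_cancel₀ hσ0 (hy.lf.inj htt)
    have hes : γs x (σ * (σ * t₀)) = D q s₀ := by
      rw [← mul_assoc, hss, one_mul]
      exact hs₀.symm
    obtain ⟨i, hi⟩ := deriv_comp_ne (D q) h'.d1 s₀ (h'.d2 s₀)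
    obtain ⟨κ, hL⟩ := loc_of (D q) (anC_of (D q) φ' h'.φd h'.φr) s₀ i hi
    have hcr : Crs (fun t => γs x (σ * t)) (D q) i κ (σ * t₀) := by
      refine hxc (fun t => γs x (σ * t)) ?_ (hc1 x hx0) (hc2 x hx0) (hc3 x hx0) ?_ q hq (σ * t₀) s₀ i κ
        hL hes
      · obtain ⟨ψ, hψ1, hψ2⟩ := hx0.ex
        refine anC_of _ (fun z => ψ ((σ : ℂ) * z)) (hψ1.comp
          ((differentiable_const _).mul differentiable_id)) fun t => ?_
        have e : (σ : ℂ) * (t : ℂ) = ((σ * t : ℝ) : ℂ) := by push_cast; rfl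
        show ψ ((σ : ℂ) * (t : ℂ)) = cx (γs x (σ * t))
        rw [e, hψ2]
      · intro z
        rw [hf, ← hx0.g5 z]
        constructor
        · rintro ⟨t, rfl⟩
          exact ⟨_, rfl⟩
        · rintro ⟨t, rfl⟩
          refine ⟨σ * t, ?_⟩
          show γs x (σ * (σ * t)) = γs x t
          rw [← mul_assoc, hss, one_mul]
    refine fin c b hb hb1 (D q) h'.d1 h'.d3 h'.dK (fun t => γs x (σ * t)) (hc1 x hx0).continuous
      (σ * t₀) s₀ ht₀ hs0 hes i κ hL hcr B' h'.B1 ?_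
    intro T e he
    refine (hxr n' hn' σ hσ hbd T e he).mono ?_
    rintro k ⟨hcl, hbk⟩
    rw [hf] at hcl hbk
    have hy := hx (n' * k)
    obtain ⟨m, hm0, hmt⟩ := pnt_map c b hb α γs S x hx (n' * k)
    have hKx : ∀ τ : ℝ, 0 ≤ τ → γs x (σ * τ) ∈ KM c b hb := by
      intro τ hτ
      rcases hτ.eq_or_lt with k1 | k1
      · rw [← k1, mul_zero, hx0.lf.zero]
        exact kk_km c b hb x hx0.kk
      · exact hx0.side σ hσ hbd _ (by rw [← mul_assoc, hss, one_mul]; exact k1)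
    refine ⟨fun t => γs ((hen c b hb).symm^[n' * k] x) (σ * t), m, hc1 _ hy, hc2 _ hy, hc3 _ hy,
      ?_, ?_, ?_, hm0, ?_⟩
    · intro t ht
      refine hcl (σ * t) ?_
      rw [abs_mul]
      have : |σ| = 1 := by rcases hσ with rfl | rfl <;> simp
      rw [this, one_mul]
      exact ht
    · intro τ hτ
      rcases hτ.eq_or_lt with k1 | k1
      · show γs ((hen c b hb).symm^[n' * k] x) (σ * τ) ∈ KM c b hb
        rw [← k1, mul_zero, hy.lf.zero]
        exact kk_km c b hb _ hy.kk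
      · exact hy.side σ hσ hbk _ (by rw [← mul_assoc, hss, one_mul]; exact k1)
    · intro τ hτ
      have k1 : σ * (m * τ) = m * (σ * τ) := by ring
      show γs ((hen c b hb).symm^[n' * k] x) (σ * (m * τ)) ∈ KM c b hb
      rw [k1, ← hmt]
      exact km_symm c b hb _ (hKx τ hτ) _
    · have k1 : σ * (m * (σ * t₀)) = m * (σ * (σ * t₀)) := by ring
      show γs ((hen c b hb).symm^[n' * k] x) (σ * (m * (σ * t₀))) = D q (B' ^ k * s₀)
      rw [k1, ← hmt, hes]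
      exact h'.dBk k s₀
  · -- an atom
    push Not at hna
    obtain ⟨a, ha⟩ := hna
    obtain ⟨N, hN, hNa⟩ : ∃ N : ℕ, 1 ≤ N ∧ f^[N] a = a := by
      obtain ⟨x, hx, m, hm, hmx⟩ := hfp.conservative.exists_mem_iterate_mem
        (measurableSet_singleton a).nullMeasurableSet ha
      rw [mem_singleton_iff] at hx hmx
      rw [hx] at hmx
      exact ⟨m, Nat.one_le_iff_ne_zero.2 hm, hmx⟩
    obtain ⟨O, hO⟩ : ∃ O : Set E, O = {x | f^[N] x = x} := ⟨_, rfl⟩
    have hOm : MeasurableSet O := by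
      rw [hO]
      exact (isClosed_eq (f.continuous.iterate N) continuous_id).measurableSet
    have hOi : f ⁻¹' O = O := by
      rw [hO]
      ext x
      show f^[N] (f x) = f x ↔ f^[N] x = x
      rw [← Function.iterate_succ_apply, Function.iterate_succ_apply']
      exact f.injective.eq_iff
    have hOae : ∀ᵐ x ∂μ, x ∈ O := by
      have k1 := hfe.toPreErgodic.aeconst_set hOm hOi
      rw [eventuallyConst_set] at k1
      rcases k1 with k1 | k1
      · exact k1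
      · exfalso
        rw [ae_iff] at k1
        apply ha
        refine measure_mono_null ?_ k1
        rintro x hx
        rw [mem_singleton_iff] at hx
        show ¬ x ∉ O
        rw [not_not, hx, hO]
        exact hNa
    filter_upwards [hPn, hOae, hexp] with x hx hxO hxe
    have hxN : (hen c b hb)^[N] x = x := by
      rw [hO, hf] at hxO
      exact hxO
    have hx0 := hx 0
    simp only [Function.iterate_zero, id_eq] at hx0
    have hlin := lin_all c b hb α hα0 γs S x hx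
    by_cases hsad : IsSaddle c b x
    · have hxQ : x ∈ Q := by rw [hQ]; exact hsad
      obtain ⟨n, γ, S, U, A, B, ψ, φ, hn, hsd⟩ := hD x hxQ
      suffices key : ∀ σ : ℝ, (σ = 1 ∨ σ = -1) → ∀ q ∈ Q, ∀ t : ℝ, 0 < σ * t →
          γ t ∈ range (D q) → ¬ Bornology.IsBounded (γ '' {t : ℝ | 0 < σ * t}) by
        obtain ⟨r1, r2⟩ := hfin x γ hsd.g1 hsd.g2 hsd.g3 hx0.kk (fun y => hsd.g5 y) hsd.side key
        have hex := hxe γ hsd.lf
        have hγx : γ = γs x := by rw [hsd.lf, hγs, hf]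
        refine ⟨γ, hsd.g1, hsd.g2, hsd.g3, hsd.g4, ?_, r1, r2, ?_, hex.1, hex.2⟩
        swap
        · rw [hγx]
          exact hlin
        ext y
        rw [hsd.g5 y]
        rfl
      intro σ hσ q hq t₀ ht₀ hz
      by_cases hxq : x = q
      · rw [← hxq] at hz
        exact hsd.hom hb1 σ hσ t₀ ht₀ hz
      · obtain ⟨n', γ', S', U', A', B', ψ', φ', hn', h'⟩ := hD q hq
        exact hsd.het h' hb1 hn hn' hxq σ hσ t₀ ht₀ hz
    have hxs : (hen c b hb).symm^[N] x = x := symm_fix _ N x hxN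
    obtain ⟨m, hm0, hmt⟩ := pnt_map c b hb α γs S x hx N
    rw [hxs] at hmt
    obtain ⟨ψ, hψ1, hψ2⟩ := hx0.ex
    have hgA : ∀ t, (hen c b hb)^[N] (γs x t) = γs x (m⁻¹ * t) := by
      intro t
      have k1 := hmt (m⁻¹ * t)
      rw [mul_inv_cancel_left₀ hm0] at k1
      rw [← k1]
      have k2 := MD.iter_symm (hen c b hb) N 0 (γs x (m⁻¹ * t))
      rw [zero_add] at k2
      exact k2
    obtain ⟨A₀, hA₀, hA⟩ := hx0.lf.loc
    obtain ⟨r₀, hr₀, hr⟩ := hA A₀ le_rfl 1 one_pos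
    have hA1 : |m⁻¹| < 1 := scale_lt (hen c b hb) (γs x) N hN x hxN m⁻¹ α hα0 (inv_ne_zero hm0) hgA
      hx0.lf.inj hx0.lf.zero r₀ A₀ hr₀ (by linarith) (hr r₀ hr₀ le_rfl).near
    have hH : Half c b hb N x (γs x) m⁻¹ ψ :=
      ⟨hx0.g1, hx0.g2, hx0.lf.inj, hx0.lf.zero, hx0.side, inv_ne_zero hm0, hA1, hgA, hψ1, hψ2⟩
    suffices key : ∀ σ : ℝ, (σ = 1 ∨ σ = -1) → ∀ q ∈ Q, ∀ t : ℝ, 0 < σ * t →
        γs x t ∈ range (D q) → ¬ Bornology.IsBounded (γs x '' {t : ℝ | 0 < σ * t}) by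
      obtain ⟨r1, r2⟩ := hfin x (γs x) hx0.g1 hx0.g2 hx0.lf.inj hx0.kk hx0.g5 hx0.side key
      have hex := hxe (γs x) (by rw [hγs, hf])
      refine ⟨γs x, hx0.g1, hx0.g2, hx0.lf.inj, hx0.lf.zero, ?_, r1, r2,
        lin_all c b hb α hα0 γs S x hx, hex.1, hex.2⟩
      ext y
      rw [hx0.g5 y]
      exact Iff.rfl
    intro σ hσ q hq t₀ ht₀ hz
    obtain ⟨n', γ', S', U', A', B', ψ', φ', hn', h'⟩ := hD q hq
    have hxq : x ≠ q := by
      rintro rfl
      apply hsad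
      rw [hQ] at hq
      exact hq
    exact hH.het h' hb1 hN hn' hxq σ hσ t₀ ht₀ hz

end MH
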