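import Pool.Agent.Lib.MP_904526_H.Flip

/-!
# A bounded branch of a periodic point and the stable and unstable sets of typical points
-/

set_option autoImplicit false

open Set Filter Topology MeasureTheory

namespace MH

open MD (E hen)

/-- a closed invariant null set contains no point asymptotic to a typical point -/
theorem avoid_of (g : E → E) (ν : Measure E) [IsProbabilityMeasure ν] (hg : MeasurePreserving g ν ν)
    (K : Set E) (hK : IsClosed K) (hinv : MapsTo g K K) (h0 : ν K = 0) :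
    ∀ᵐ y ∂ν, ∀ z ∈ K, ¬ Tendsto (fun k : ℕ => dist (g^[k] z) (g^[k] y)) atTop (𝓝 0) := by
  have hrec := hg.conservative.ae_frequently_mem_of_mem_nhds
  have hnc : ∀ᵐ y ∂ν, y ∉ K := measure_eq_zero_iff_ae_notMem.1 h0
  filter_upwards [hrec, hnc] with y hy hyc z hz hlim
  obtain ⟨ε, hε, hfar⟩ := Metric.isOpen_iff.1 hK.isOpen_compl y hyc
  have hev : ∀ᶠ k : ℕ in atTop, dist (g^[k] z) (g^[k] y) < ε / 2 :=
    hlim.eventually (gt_mem_nhds (half_pos hε))
  obtain ⟨k, hk1, hk2⟩ := ((hy _ (Metric.ball_mem_nhds y (half_pos hε))).and_eventually hev).exists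
  rw [Metric.mem_ball] at hk1
  refine hfar ?_ (hinv.iterate k hz)
  rw [Metric.mem_ball]
  have h7 := dist_triangle (g^[k] z) (g^[k] y) y
  linarith

/-- exponential convergence along a subsequence -/
theorem lim_of (F : E → E) (n : ℕ) (hn : 1 ≤ n) (y z : E) (κ C : ℝ) (hκ : 0 < κ)
    (h : ∀ k : ℕ, dist (F^[k] z) (F^[k] y) ≤ C * Real.exp (-κ * k)) :
    Tendsto (fun k : ℕ => dist ((F^[n])^[k] z) ((F^[n])^[k] y)) atTop (𝓝 0) := by
  have hlim : Tendsto (fun k : ℕ => C * Real.exp (-κ * ((n * k : ℕ) : ℝ))) atTop (𝓝 0) := by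
    have h1 : Tendsto (fun k : ℕ => n * k) atTop atTop := tendsto_id.const_mul_atTop' hn
    have h2 : Tendsto (fun k : ℕ => ((n * k : ℕ) : ℝ)) atTop atTop := tendsto_natCast_atTop_atTop.comp h1
    have h3 : Tendsto (fun k : ℕ => -κ * ((n * k : ℕ) : ℝ)) atTop atBot :=
      h2.const_mul_atTop_of_neg (by linarith)
    have h4 := (Real.tendsto_exp_atBot.comp h3).const_mul C
    rw [mul_zero] at h4
    exact h4
  refine squeeze_zero (fun _ => dist_nonneg) (fun k => ?_) hlim
  rw [← Function.iterate_mul]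
  exact h (n * k)

/-- the closure of a branch of a periodic point does not meet the stable and the unstable set of almost
every point of an invariant measure for which it is a null set -/
theorem per_avoid (c b : ℝ) (hb : b ≠ 0) (γ : ℝ → E) (n : ℕ) (hn : 1 ≤ n) (A B : ℝ)
    (P : Set ℝ) (hPA : ∀ t ∈ P, A * t ∈ P) (hPB : ∀ t ∈ P, B * t ∈ P)
    (hA : ∀ t, (hen c b hb)^[n] (γ t) = γ (A * t))
    (hB : ∀ t, (hen c b hb).symm^[n] (γ t) = γ (B * t)) (ν : Measure E) [IsProbabilityMeasure ν]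
    (hν : MeasurePreserving (hen c b hb) ν ν) (h0 : ν (closure (γ '' P)) = 0) :
    ∀ᵐ y ∂ν, Disjoint (closure (γ '' P)) (stableSet c b y ∪ unstableSet c b y) := by
  have hsp : MeasurePreserving (hen c b hb).symm ν ν := hν.symm (hen c b hb).toMeasurableEquiv
  have i1 : MapsTo ((hen c b hb)^[n]) (closure (γ '' P)) (closure (γ '' P)) := by
    refine MapsTo.closure ?_ ((hen c b hb).continuous.iterate n)
    rintro _ ⟨t, ht, rfl⟩
    exact ⟨A * t, hPA t ht, (hA t).symm⟩
  have i2 : MapsTo ((hen c b hb).symm^[n]) (closure (γ '' P)) (closure (γ '' P)) := by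
    refine MapsTo.closure ?_ ((hen c b hb).symm.continuous.iterate n)
    rintro _ ⟨t, ht, rfl⟩
    exact ⟨B * t, hPB t ht, (hB t).symm⟩
  have h1 := avoid_of _ ν (hν.iterate n) _ isClosed_closure i1 h0
  have h2 := avoid_of _ ν (hsp.iterate n) _ isClosed_closure i2 h0
  filter_upwards [h1, h2] with y hy1 hy2
  rw [Set.disjoint_left]
  rintro z hz (⟨κ, hκ, C, hC⟩ | ⟨κ, hκ, C, hC⟩)
  · exact hy1 z hz (lim_of (hen c b hb) n hn y z κ C hκ hC)
  · exact hy2 z hz (lim_of (hen c b hb).symm n hn y z κ C hκ hC)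

end MH
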