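import Pool.Agent.Lib.MP_904526_H.All
import Pool.Agent.Lib.MP_904526_H.Per

/-!
# The constraints on a bounded branch
-/

set_option autoImplicit false

open Set Filter Topology MeasureTheory

namespace MH

open MD (E hen)

/-- `ν` is ergodic, without atoms and with a positive top exponent -/
def Chaotic (c b : ℝ) (ν : Measure (ℝ × ℝ)) : Prop :=
  IsProbabilityMeasure ν ∧ Ergodic (henonMap c b) ν ∧ (∀ y, ν {y} = 0) ∧ 0 < topExponent c b ν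

/-- The constraints on a bounded branch. -/
theorem all4 (c b : ℝ) (hb0 : 0 < |b|) (hb1 : |b| < 1) (μ : Measure (ℝ × ℝ))
    (hp : IsProbabilityMeasure μ) (hμ : Ergodic (henonMap c b) μ) (hs : ¬ ME.SupportedOnSink c b μ) :
    ∀ᵐ x ∂μ, ∃ γ : ℝ → ℝ × ℝ, ContDiff ℝ 1 γ ∧ (∀ t, deriv γ t ≠ 0) ∧ Function.Injective γ ∧
      γ 0 = x ∧ range γ = stableSet c b x ∧
      ∀ Γ Γ' : Set (ℝ × ℝ),
        (Γ = γ '' Ioi 0 ∧ Γ' = γ '' Iio 0) ∨ (Γ = γ '' Iio 0 ∧ Γ' = γ '' Ioi 0) →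
        Bornology.IsBounded Γ →
        Γ ⊆ residualSet c b ∧
        (∀ ν, Chaotic c b ν → ν (closure Γ) = 0 ∧
          ((∃ n, 1 ≤ n ∧ (henonMap c b)^[n] x = x) →
            ∀ᵐ y ∂ν, Disjoint (closure Γ) (stableSet c b y ∪ unstableSet c b y))) ∧
        (Bornology.IsBounded Γ' → 0 ≤ topExponent c b μ ∧ topExponent c b μ ≤ Real.log (2 * |b|)) ∧
        (Flips c b x → Bornology.IsBounded Γ') := by
  have hb : b ≠ 0 := abs_pos.1 hb0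
  obtain ⟨h0, h1⟩ := all c b hb hb0 hb1 μ hp hμ hs
  filter_upwards [h1] with x hx
  obtain ⟨γ, g1, g2, g3, g4, g5, a1, a2, hlin, e2, -⟩ := hx
  refine ⟨γ, g1, g2, g3, g4, g5, ?_⟩
  have hfl : Flips c b x → (Bornology.IsBounded (γ '' Ioi 0) ↔ Bornology.IsBounded (γ '' Iio 0)) := by
    rintro ⟨n, hn, hxn, m, hm, hmb, v, hv0, hv⟩
    obtain ⟨A, hA0, hA1, -, hA⟩ := hlin n hn hxn
    exact flip c b hb x γ g1 g2 g4 n A hA0 hA1 hA m hm hmb v hv0 hv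
  have hper : ∀ P : Set ℝ, (∀ s : ℝ, 0 < s → ∀ t ∈ P, s * t ∈ P) → ∀ ν, Chaotic c b ν →
      ν (closure (γ '' P)) = 0 → (∃ n, 1 ≤ n ∧ (henonMap c b)^[n] x = x) →
      ∀ᵐ y ∂ν, Disjoint (closure (γ '' P)) (stableSet c b y ∪ unstableSet c b y) := by
    rintro P hP ν ⟨hν1, hν2, -, -⟩ hcl ⟨n, hn, hxn⟩
    obtain ⟨A, hA0, hA1, hA, hA'⟩ := hlin n hn hxn
    refine per_avoid c b hb γ (n + n) (by omega) (A * A) (A⁻¹ * A⁻¹) P (hP _ (mul_self_pos.2 hA0))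
      (hP _ (mul_self_pos.2 (inv_ne_zero hA0))) (fun t => ?_) (fun t => ?_) ν
      hν2.toMeasurePreserving hcl
    · rw [Function.iterate_add_apply, hA', hA', mul_assoc]
    · rw [Function.iterate_add_apply, hA, hA, mul_assoc]
  rintro Γ Γ' (⟨rfl, rfl⟩ | ⟨rfl, rfl⟩) hbd
  · obtain ⟨k1, k2⟩ := a1 hbd
    refine ⟨k1, fun ν hν => ?_, fun hbd' => ⟨h0, ?_⟩, fun hf => (hfl hf).1 hbd⟩
    · have k3 := k2 ν hν.1 hν.2.1 hν.2.2.1 hν.2.2.2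
      exact ⟨k3, hper _ (fun s hs t ht => mul_pos hs ht) ν hν k3⟩
    · exact not_lt.1 fun hlt => e2 hlt ⟨hbd, hbd'⟩
  · obtain ⟨k1, k2⟩ := a2 hbd
    refine ⟨k1, fun ν hν => ?_, fun hbd' => ⟨h0, ?_⟩, fun hf => (hfl hf).2 hbd⟩
    · have k3 := k2 ν hν.1 hν.2.1 hν.2.2.1 hν.2.2.2
      exact ⟨k3, hper _ (fun s hs t ht => mul_neg_of_pos_of_neg hs ht) ν hν k3⟩
    · exact not_lt.1 fun hlt => e2 hlt ⟨hbd', hbd⟩

end MH
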