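import Pool.Agent.Lib.MP_904526_H.NoLoop

/-!
# Two arcs which part at a common point
-/

set_option autoImplicit false

open Set Filter Topology MeasureTheory

namespace MH

open MD (E hen KM)

/-- an arc of `γ` and an arc of `δ` with common ends, which part at the first end -/
theorem arc (c b : ℝ) (hb : b ≠ 0) (hb1 : |b| < 1) (γ δ : ℝ → E) (hγ : ContDiff ℝ 1 γ)
    (hγ' : ∀ t, deriv γ t ≠ 0) (hγi : Function.Injective γ) (hδ : ContDiff ℝ 1 δ)
    (hδi : Function.Injective δ) (hδK : ∀ s, δ s ∈ KM c b hb) (t s t' s' : ℝ) (htt : t < t')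
    (h1 : γ t = δ s) (h2 : γ t' = δ s') (hK : ∀ τ ∈ Icc t t', γ τ ∈ KM c b hb) (ρ : ℝ) (hρ : 0 < ρ)
    (hn : ∀ r : ℝ, |r - s| ≤ ρ → ∀ τ ∈ Ioc t (t + ρ), γ τ ≠ δ r) : False := by
  obtain ⟨t₁, ht₁, hnot⟩ : ∃ t₁ ∈ Ioo t t', ∀ r ∈ uIcc s s', γ t₁ ≠ δ r := by
    by_contra hcon
    push Not at hcon
    have hd : 0 < t' - t := by linarith
    have hmem : ∀ j : ℕ, t + (t' - t) * (1 / ((j : ℝ) + 2)) ∈ Ioo t t' := by
      intro j
      have h3 : (0 : ℝ) < 1 / ((j : ℝ) + 2) := by positivity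
      have h4 : 1 / ((j : ℝ) + 2) < 1 := by
        rw [div_lt_one (by positivity)]
        have : (0 : ℝ) ≤ j := Nat.cast_nonneg j
        linarith
      constructor
      · nlinarith
      · nlinarith
    choose r hr hr2 using fun j => hcon _ (hmem j)
    have hlim : Tendsto (fun j : ℕ => t + (t' - t) * (1 / ((j : ℝ) + 2))) atTop (𝓝 t) := by
      have h3 : Tendsto (fun j : ℕ => (1 : ℝ) / ((j : ℝ) + 2)) atTop (𝓝 0) := by
        have h4 := (tendsto_one_div_add_atTop_nhds_zero_nat (𝕜 := ℝ)).comp (tendsto_add_atTop_nat 1)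
        refine h4.congr fun j => ?_
        show (1 : ℝ) / (((j + 1 : ℕ) : ℝ) + 1) = 1 / ((j : ℝ) + 2)
        push_cast
        ring
      have h5 := (h3.const_mul (t' - t)).const_add t
      rwa [mul_zero, add_zero] at h5
    obtain ⟨r₀, -, θ, hθ, hrl⟩ := isCompact_uIcc.tendsto_subseq hr
    have e1 : Tendsto (fun j => γ (t + (t' - t) * (1 / (((θ j : ℕ) : ℝ) + 2)))) atTop (𝓝 (γ t)) :=
      (hγ.continuous.tendsto t).comp (hlim.comp hθ.tendsto_atTop)
    have e2 : Tendsto (fun j => δ (r (θ j))) atTop (𝓝 (δ r₀)) := (hδ.continuous.tendsto r₀).comp hrl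
    have e3 : δ r₀ = γ t := by
      refine tendsto_nhds_unique e2 (e1.congr fun j => ?_)
      exact hr2 (θ j)
    have e4 : r₀ = s := hδi (e3.trans h1)
    rw [e4] at hrl
    have e5 : ∀ᶠ j in atTop, |r (θ j) - s| ≤ ρ := by
      filter_upwards [hrl.eventually (Metric.closedBall_mem_nhds s hρ)] with j hj
      rw [Real.dist_eq] at hj
      exact hj
    have e6 : ∀ᶠ j in atTop, t + (t' - t) * (1 / (((θ j : ℕ) : ℝ) + 2)) ≤ t + ρ := by
      filter_upwards [(hlim.comp hθ.tendsto_atTop).eventually (Metric.closedBall_mem_nhds t hρ)]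
        with j hj
      rw [Real.dist_eq] at hj
      have := (abs_le.1 hj).2
      simp only [Function.comp] at this
      linarith
    obtain ⟨j, h7, h8⟩ := (e5.and e6).exists
    exact hn _ h7 _ ⟨(hmem (θ j)).1, h8⟩ (hr2 (θ j))
  refine no_loop c b hb hb1 γ (fun τ : ℝ => δ (s + τ * (s' - s))) hγ
    (hδ.comp (contDiff_const.add (contDiff_id.mul contDiff_const))) (a₁ := t) (b₁ := t') (c₁ := 0)
    (d₁ := 1) (t₁ := t₁) zero_le_one ?_ ?_ ht₁ hγi.injOn (hγ' _) ?_ hK fun τ _ => hδK _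
  · show γ t = δ (s + 0 * (s' - s))
    rw [zero_mul, add_zero]
    exact h1
  · show γ t' = δ (s + 1 * (s' - s))
    rw [one_mul, add_sub_cancel]
    exact h2
  · intro τ hτ he
    refine hnot (s + τ * (s' - s)) ?_ he.symm
    rcases le_total s s' with h | h
    · rw [uIcc_of_le h]
      constructor
      · nlinarith [hτ.1]
      · nlinarith [hτ.2]
    · rw [uIcc_of_ge h]
      constructor
      · nlinarith [hτ.2]
      · nlinarith [hτ.1]

/-- the same with the parameter of `γ` reversed -/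
theorem arc' (c b : ℝ) (hb : b ≠ 0) (hb1 : |b| < 1) (γ δ : ℝ → E) (hγ : ContDiff ℝ 1 γ)
    (hγ' : ∀ t, deriv γ t ≠ 0) (hγi : Function.Injective γ) (hδ : ContDiff ℝ 1 δ)
    (hδi : Function.Injective δ) (hδK : ∀ s, δ s ∈ KM c b hb) (t s t' s' : ℝ) (htt : t' < t)
    (h1 : γ t = δ s) (h2 : γ t' = δ s') (hK : ∀ τ ∈ Icc t' t, γ τ ∈ KM c b hb) (ρ : ℝ) (hρ : 0 < ρ)
    (hn : ∀ r : ℝ, |r - s| ≤ ρ → ∀ τ ∈ Ico (t - ρ) t, γ τ ≠ δ r) : False := by
  refine arc c b hb hb1 (fun τ => γ (-τ)) δ (hγ.comp contDiff_neg) ?_ ?_ hδ hδi hδK (-t) s (-t') s'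
    (by linarith) (by simpa using h1) (by simpa using h2) ?_ ρ hρ ?_
  · intro τ
    have hd : HasDerivAt γ (deriv γ (-τ)) (-τ) :=
      ((hγ.differentiable (by norm_num)).differentiableAt).hasDerivAt
    have h3 := hd.scomp τ (hasDerivAt_neg τ)
    have h4 : deriv (fun τ => γ (-τ)) τ = (-1 : ℝ) • deriv γ (-τ) := h3.deriv
    rw [h4]
    exact smul_ne_zero (by norm_num) (hγ' _)
  · intro x y hxy
    exact neg_injective (hγi hxy)
  · intro τ hτ
    exact hK _ ⟨by linarith [hτ.2], by linarith [hτ.1]⟩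
  · intro r hr τ hτ
    exact hn r hr _ ⟨by linarith [hτ.2], by linarith [hτ.1]⟩

end MH
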