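import Pool.Agent.Lib.MP_904526_an.G5
import Pool.Agent.Lib.MP_904526_an.L1

/-!
# Stable sets have measure zero; local graphs of analytic curves
-/

set_option autoImplicit false

open Set Filter Topology MeasureTheory

namespace MH

open MD (E wt)

/-- `y` is in the stable set of `x` -/
def St (f : E ≃ₜ E) (x y : E) : Prop :=
  ∃ κ : ℝ, 0 < κ ∧ ∃ C : ℝ, ∀ k : ℕ, ‖f^[k] y - f^[k] x‖ ≤ C * wt κ k

theorem St.symm {f : E ≃ₜ E} {x y : E} (h : St f x y) : St f y x := by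
  obtain ⟨κ, hκ, C, hC⟩ := h
  exact ⟨κ, hκ, C, fun k => by rw [norm_sub_rev]; exact hC k⟩

theorem St.trans {f : E ≃ₜ E} {x y z : E} (h : St f x y) (h' : St f y z) : St f x z := by
  obtain ⟨κ, hκ, C, hC⟩ := h
  obtain ⟨κ', hκ', C', hC'⟩ := h'
  refine ⟨min κ κ', lt_min hκ hκ', |C| + |C'|, fun k => ?_⟩
  have h1 := hC k
  have h2 := hC' k
  have h3 : C * wt κ k ≤ |C| * wt (min κ κ') k := by
    have := MD.wt_mono (min_le_left κ κ') k
    have h4 := (MD.wt_pos κ k).le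
    calc C * wt κ k ≤ |C| * wt κ k := mul_le_mul_of_nonneg_right (le_abs_self C) h4
      _ ≤ _ := mul_le_mul_of_nonneg_left this (abs_nonneg C)
  have h5 : C' * wt κ' k ≤ |C'| * wt (min κ κ') k := by
    have := MD.wt_mono (min_le_right κ κ') k
    have h4 := (MD.wt_pos κ' k).le
    calc C' * wt κ' k ≤ |C'| * wt κ' k := mul_le_mul_of_nonneg_right (le_abs_self C') h4
      _ ≤ _ := mul_le_mul_of_nonneg_left this (abs_nonneg C')
  have h6 : ‖f^[k] z - f^[k] x‖ ≤ ‖f^[k] z - f^[k] y‖ + ‖f^[k] y - f^[k] x‖ := by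
    have := norm_add_le (f^[k] z - f^[k] y) (f^[k] y - f^[k] x)
    rwa [sub_add_sub_cancel] at this
  rw [add_mul]
  linarith

theorem st_null (f : E ≃ₜ E) (μ : Measure E) [IsProbabilityMeasure μ] (hna : ∀ x, μ {x} = 0)
    (hf : MeasurePreserving f μ μ) (z : E) : μ {y | St f z y} = 0 := by
  have hsub : {y | St f z y} ⊆ ⋃ i : ℕ, ⋃ j : ℕ,
      {y | ∀ k : ℕ, ‖f^[k] y - f^[k] z‖ ≤ i * wt (1 / ((j : ℝ) + 1)) k} := by
    rintro y ⟨κ, hκ, C, hC⟩
    obtain ⟨i, hi⟩ := exists_nat_ge C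
    obtain ⟨j, hj⟩ := exists_nat_one_div_lt hκ
    refine mem_iUnion.2 ⟨i, mem_iUnion.2 ⟨j, fun k => ?_⟩⟩
    have h1 := MD.wt_mono hj.le k
    have h2 := (MD.wt_pos κ k).le
    have h3 : (0 : ℝ) ≤ i := Nat.cast_nonneg i
    calc ‖f^[k] y - f^[k] z‖ ≤ C * wt κ k := hC k
      _ ≤ i * wt κ k := mul_le_mul_of_nonneg_right hi h2
      _ ≤ _ := mul_le_mul_of_nonneg_left h1 h3
  refine measure_mono_null hsub ?_
  refine measure_iUnion_null fun i => measure_iUnion_null fun j => ?_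
  refine MD.atom f μ hna hf _ z (fun k => i * wt (1 / ((j : ℝ) + 1)) k) ?_ fun x hx k => hx k
  have := (MD.wt_tendsto (α := 1 / ((j : ℝ) + 1)) (by positivity)).const_mul (i : ℝ)
  rwa [mul_zero] at this

/-- first coordinate (`true`) or second coordinate (`false`) -/
def Pc (i : Bool) (v : E) : ℝ := if i then v.1 else v.2

/-- the other coordinate -/
def Qc (i : Bool) (v : E) : ℝ := if i then v.2 else v.1

/-- the point with given coordinates -/
def pt (i : Bool) (u w : ℝ) : E := if i then (u, w) else (w, u)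

theorem pt_eta (i : Bool) (v : E) : pt i (Pc i v) (Qc i v) = v := by
  cases i <;> rfl

theorem Pc_pt (i : Bool) (u w : ℝ) : Pc i (pt i u w) = u := by
  cases i <;> rfl

theorem Qc_pt (i : Bool) (u w : ℝ) : Qc i (pt i u w) = w := by
  cases i <;> rfl

theorem Pc_ext (i : Bool) {v w : E} (h1 : Pc i v = Pc i w) (h2 : Qc i v = Qc i w) : v = w := by
  rw [← pt_eta i v, ← pt_eta i w, h1, h2]

theorem Pc_cont (i : Bool) : Continuous (Pc i) := by
  cases i
  · exact continuous_snd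
  · exact continuous_fst

theorem Qc_cont (i : Bool) : Continuous (Qc i) := by
  cases i
  · exact continuous_fst
  · exact continuous_snd

theorem Pc_le (i : Bool) (v w : E) : |Pc i v - Pc i w| ≤ ‖v - w‖ := by
  cases i
  · exact norm_snd_le (v - w)
  · exact norm_fst_le (v - w)

/-- a curve with analytic coordinates -/
def AnC (γ : ℝ → E) : Prop := ∀ (i : Bool) (t : ℝ), AnalyticAt ℝ (fun t => Pc i (γ t)) t

theorem AnC.q {γ : ℝ → E} (h : AnC γ) (i : Bool) (t : ℝ) : AnalyticAt ℝ (fun t => Qc i (γ t)) t := by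
  cases i
  · exact h true t
  · exact h false t

/-- a local inverse `κ` of the coordinate `i` of the curve `δ` at `s₀` -/
structure Loc (δ : ℝ → E) (s₀ : ℝ) (i : Bool) (κ : ℝ → ℝ) : Prop where
  an : AnalyticAt ℝ κ (Pc i (δ s₀))
  val : κ (Pc i (δ s₀)) = s₀
  right : ∀ᶠ u in 𝓝 (Pc i (δ s₀)), Pc i (δ (κ u)) = u
  left : ∀ᶠ s in 𝓝 s₀, κ (Pc i (δ s)) = s

theorem loc_of (δ : ℝ → E) (hδ : AnC δ) (s₀ : ℝ) (i : Bool) (hi : deriv (fun s => Pc i (δ s)) s₀ ≠ 0) :
    ∃ κ, Loc δ s₀ i κ := by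
  have hA := hδ i s₀
  have h1 := hA.analyticAt_localInverse hi
  have hl := HasStrictDerivAt.eventually_left_inverse hA.hasStrictDerivAt hi
  have hr := HasStrictDerivAt.eventually_right_inverse hA.hasStrictDerivAt hi
  exact ⟨_, h1, hl.self_of_nhds, hr, hl⟩

theorem deriv_comp_ne (δ : ℝ → E) (hδ : ContDiff ℝ 1 δ) (s₀ : ℝ) (h0 : deriv δ s₀ ≠ 0) :
    ∃ i : Bool, deriv (fun s => Pc i (δ s)) s₀ ≠ 0 := by
  by_contra hcon
  push Not at hcon
  have hd := ((hδ.differentiable (by norm_num)).differentiableAt (x := s₀)).hasDerivAt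
  have h1 : HasDerivAt (fun s => (δ s).1) (deriv δ s₀).1 s₀ :=
    (ContinuousLinearMap.fst ℝ ℝ ℝ).hasFDerivAt.comp_hasDerivAt s₀ hd
  have h2 : HasDerivAt (fun s => (δ s).2) (deriv δ s₀).2 s₀ :=
    (ContinuousLinearMap.snd ℝ ℝ ℝ).hasFDerivAt.comp_hasDerivAt s₀ hd
  have e1 : deriv (fun s => (δ s).1) s₀ = 0 := hcon true
  have e2 : deriv (fun s => (δ s).2) s₀ = 0 := hcon false
  apply h0
  exact Prod.ext (h1.deriv.symm.trans e1) (h2.deriv.symm.trans e2)

end MH
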