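import Pool.Agent.Lib.MP_904526_H.NoLoop
import Pool.Agent.Lib.MP_904526_H.Sts
import Pool.Agent.Lib.MP_904526_an.G4

/-!
# Boxes, and curves which meet an unstable curve twice
-/

set_option autoImplicit false

open Set Filter Topology MeasureTheory

namespace MH

open MD (E hen KM wg)

/-- an open box bounded by two graphs in each direction -/
def Box (x0 s0 u0 : E) (f1 f2 g1 g2 : ℝ → ℝ) : Set E :=
  {z | f1 (wg (z - x0) u0 / wg s0 u0) < wg s0 (z - x0) / wg s0 u0 ∧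
    wg s0 (z - x0) / wg s0 u0 < f2 (wg (z - x0) u0 / wg s0 u0) ∧
    g1 (wg s0 (z - x0) / wg s0 u0) < wg (z - x0) u0 / wg s0 u0 ∧
    wg (z - x0) u0 / wg s0 u0 < g2 (wg s0 (z - x0) / wg s0 u0)}

variable {x0 s0 u0 : E} {f1 f2 g1 g2 : ℝ → ℝ}

theorem box_open (hf1 : Continuous f1) (hf2 : Continuous f2) (hg1 : Continuous g1)
    (hg2 : Continuous g2) : IsOpen (Box x0 s0 u0 f1 f2 g1 g2) := by
  have alc := MD.g4_al_cont x0 u0 (wg s0 u0)
  have bec := MD.g4_be_cont x0 s0 (wg s0 u0)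
  exact (isOpen_lt (hf1.comp alc) bec).inter ((isOpen_lt bec (hf2.comp alc)).inter
    ((isOpen_lt (hg1.comp bec) alc).inter (isOpen_lt alc (hg2.comp bec))))

theorem box_frontier (hw : wg s0 u0 ≠ 0) (hf1 : Continuous f1) (hf2 : Continuous f2)
    (hg1 : Continuous g1) (hg2 : Continuous g2) (ρ : ℝ) (bf1 : ∀ a, |f1 a| ≤ ρ) (bf2 : ∀ a, |f2 a| ≤ ρ)
    (bg1 : ∀ a, |g1 a| ≤ ρ) (bg2 : ∀ a, |g2 a| ≤ ρ) (z : E)
    (hz : z ∈ frontier (Box x0 s0 u0 f1 f2 g1 g2)) :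
    (∃ a, |a| ≤ ρ ∧ (z = x0 + a • s0 + f1 a • u0 ∨ z = x0 + a • s0 + f2 a • u0)) ∨
      (∃ b, |b| ≤ ρ ∧ (z = x0 + g1 b • s0 + b • u0 ∨ z = x0 + g2 b • s0 + b • u0)) := by
  have alc := MD.g4_al_cont x0 u0 (wg s0 u0)
  have bec := MD.g4_be_cont x0 s0 (wg s0 u0)
  obtain ⟨al, hal⟩ : ∃ al : E → ℝ, al = fun z : E => wg (z - x0) u0 / wg s0 u0 := ⟨_, rfl⟩
  obtain ⟨be, hbe⟩ : ∃ be : E → ℝ, be = fun z : E => wg s0 (z - x0) / wg s0 u0 := ⟨_, rfl⟩
  rw [← hal] at alc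
  rw [← hbe] at bec
  have hdec : x0 + al z • s0 + be z • u0 = z := by
    have := MD.decomp s0 u0 (z - x0) hw
    rw [hal, hbe, add_assoc, ← this]
    abel
  have hB : Box x0 s0 u0 f1 f2 g1 g2 = {z | f1 (al z) < be z ∧ be z < f2 (al z) ∧ g1 (be z) < al z ∧
      al z < g2 (be z)} := by
    rw [hal, hbe]
    rfl
  have hclosed : IsClosed {z | f1 (al z) ≤ be z ∧ be z ≤ f2 (al z) ∧ g1 (be z) ≤ al z ∧
      al z ≤ g2 (be z)} :=
    (isClosed_le (hf1.comp alc) bec).inter ((isClosed_le bec (hf2.comp alc)).inter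
      ((isClosed_le (hg1.comp bec) alc).inter (isClosed_le alc (hg2.comp bec))))
  have hcl : z ∈ {z | f1 (al z) ≤ be z ∧ be z ≤ f2 (al z) ∧ g1 (be z) ≤ al z ∧ al z ≤ g2 (be z)} := by
    have h1 : z ∈ closure (Box x0 s0 u0 f1 f2 g1 g2) := hz.1
    rw [hB] at h1
    have h2 : {z | f1 (al z) < be z ∧ be z < f2 (al z) ∧ g1 (be z) < al z ∧ al z < g2 (be z)} ⊆
        {z | f1 (al z) ≤ be z ∧ be z ≤ f2 (al z) ∧ g1 (be z) ≤ al z ∧ al z ≤ g2 (be z)} :=
      fun y hy => ⟨hy.1.le, hy.2.1.le, hy.2.2.1.le, hy.2.2.2.le⟩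
    exact closure_minimal h2 hclosed h1
  have hnot : z ∉ Box x0 s0 u0 f1 f2 g1 g2 := by
    have h1 := hz.2
    rwa [(box_open hf1 hf2 hg1 hg2).interior_eq] at h1
  rw [hB] at hnot
  obtain ⟨c1, c2, c3, c4⟩ := hcl
  have ha : |al z| ≤ ρ := by
    rw [abs_le]
    constructor
    · have := (abs_le.1 (bg1 (be z))).1
      linarith
    · have := (abs_le.1 (bg2 (be z))).2
      linarith
  have hb : |be z| ≤ ρ := by
    rw [abs_le]
    constructor
    · have := (abs_le.1 (bf1 (al z))).1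
      linarith
    · have := (abs_le.1 (bf2 (al z))).2
      linarith
  rcases c1.lt_or_eq with d1 | d1
  · rcases c2.lt_or_eq with d2 | d2
    · rcases c3.lt_or_eq with d3 | d3
      · rcases c4.lt_or_eq with d4 | d4
        · exact absurd (show z ∈ {z | f1 (al z) < be z ∧ be z < f2 (al z) ∧ g1 (be z) < al z ∧
            al z < g2 (be z)} from ⟨d1, d2, d3, d4⟩) hnot
        · right
          refine ⟨be z, hb, Or.inr ?_⟩
          rw [← d4]
          exact hdec.symm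
      · right
        refine ⟨be z, hb, Or.inl ?_⟩
        rw [d3]
        exact hdec.symm
    · left
      refine ⟨al z, ha, Or.inr ?_⟩
      rw [← d2]
      exact hdec.symm
  · left
    refine ⟨al z, ha, Or.inl ?_⟩
    rw [d1]
    exact hdec.symm

/-- the times at which a curve of points with bounded backward orbits is on another such curve form an
interval -/
theorem conv (c b : ℝ) (hb : b ≠ 0) (hb1 : |b| < 1) (γ δ : ℝ → E) (hγ : ContDiff ℝ 1 γ)
    (hγ' : ∀ t, deriv γ t ≠ 0) (hγi : Function.Injective γ) (hδ : ContDiff ℝ 1 δ)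
    (hδK : ∀ s, δ s ∈ KM c b hb) (t₁ t₂ t₃ : ℝ) (h12 : t₁ < t₂) (h23 : t₂ < t₃)
    (hK : ∀ t ∈ Icc t₁ t₃, γ t ∈ KM c b hb) (m1 : γ t₁ ∈ range δ) (m3 : γ t₃ ∈ range δ) :
    γ t₂ ∈ range δ := by
  by_contra hcon
  obtain ⟨s₁, hs₁⟩ := m1
  obtain ⟨s₃, hs₃⟩ := m3
  rcases le_total s₁ s₃ with h | h
  · exact no_loop c b hb hb1 γ δ hγ hδ h hs₁.symm hs₃.symm ⟨h12, h23⟩ hγi.injOn (hγ' _)
      (fun s _ hs => hcon ⟨s, hs⟩) hK (fun s _ => hδK s)
  · refine no_loop c b hb hb1 γ (fun s => δ (-s)) hγ (hδ.comp contDiff_neg) (c₁ := -s₁) (d₁ := -s₃)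
      (by linarith) ?_ ?_ ⟨h12, h23⟩ hγi.injOn (hγ' _) (fun s _ hs => hcon ⟨-s, hs⟩) hK
      (fun s _ => hδK _)
    · rw [neg_neg]; exact hs₁.symm
    · rw [neg_neg]; exact hs₃.symm

/-- a curve whose tail avoids the frontier of an open set which it meets again and again stays in it -/
theorem stay (γ : ℝ → E) (hγ : Continuous γ) (B : Set E) (hB : IsOpen B) (T : ℝ)
    (hfr : ∀ t, T < t → γ t ∉ frontier B) (hin : ∃ t, T < t ∧ γ t ∈ B) :
    ∀ t, T < t → γ t ∈ B := by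
  have hpre : IsPreconnected (γ '' Ioi T) := isPreconnected_Ioi.image γ hγ.continuousOn
  have hsub : γ '' Ioi T ⊆ B ∪ (closure B)ᶜ := by
    rintro _ ⟨t, ht, rfl⟩
    by_cases h : γ t ∈ closure B
    · left
      by_contra h2
      apply hfr t ht
      rw [frontier, hB.interior_eq]
      exact ⟨h, h2⟩
    · exact Or.inr h
  obtain ⟨t, ht, htB⟩ := hin
  have := hpre.subset_left_of_subset_union hB isClosed_closure.isOpen_compl
    (disjoint_compl_right_iff_subset.2 subset_closure) hsub ⟨γ t, ⟨t, ht, rfl⟩, htB⟩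
  intro s hs
  exact this ⟨s, hs, rfl⟩

/-- a point of the closure of a half line, which is not on the curve, is approached by its tail -/
theorem tail_freq (γ : ℝ → E) (hγ : Continuous γ) (z : E) (hz : z ∈ closure (γ '' Ioi 0))
    (hn : z ∉ range γ) (B : Set E) (hB : IsOpen B) (hzB : z ∈ B) (T : ℝ) :
    ∃ t, T < t ∧ γ t ∈ B := by
  by_contra hcon
  push Not at hcon
  have hcomp : IsCompact (γ '' Icc 0 T) := isCompact_Icc.image hγ
  have hz2 : z ∈ B ∩ (γ '' Icc 0 T)ᶜ := ⟨hzB, fun ⟨t, _, ht⟩ => hn ⟨t, ht⟩⟩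
  obtain ⟨y, ⟨hy1, hy2⟩, t, ht, hty⟩ := mem_closure_iff.1 hz _ (hB.inter hcomp.isClosed.isOpen_compl) hz2
  rcases le_or_gt t T with h | h
  · exact hy2 ⟨t, ⟨le_of_lt ht, h⟩, hty⟩
  · exact hcon t h (by rw [hty]; exact hy1)

end MH
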