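import Pool.Agent.Lib.MP_904526_H.Clo1
import Pool.Agent.Lib.MP_904526_an.G7

/-!
# The closure of a bounded stable branch has measure zero
-/

set_option autoImplicit false

open Set Filter Topology MeasureTheory

namespace MH

open MD (E hen KM wg wt LeafAt LocAt)

theorem iso_null (ν : Measure E) (N : Set E) (v : E → ℝ) (hv : ∀ q, ν {x ∈ N | v x = q} = 0) :
    ν {x ∈ N | ¬ ∀ η : ℝ, 0 < η → (∃ y ∈ N, v x < v y ∧ v y < v x + η) ∧
      ∃ y ∈ N, v x - η < v y ∧ v y < v x} = 0 := by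
  obtain ⟨V, hV⟩ : ∃ V : Set ℝ, V = v '' N := ⟨_, rfl⟩
  have c1 : {q ∈ V | 𝓝[V ∩ Ioi q] q = ⊥}.Countable := countable_setOfPred_isolated_right_within
  have c2 : {q ∈ V | 𝓝[V ∩ Iio q] q = ⊥}.Countable := countable_setOfPred_isolated_left_within
  refine measure_mono_null (t := ⋃ q ∈ {q ∈ V | 𝓝[V ∩ Ioi q] q = ⊥} ∪ {q ∈ V | 𝓝[V ∩ Iio q] q = ⊥},
    {x ∈ N | v x = q}) ?_ ((measure_biUnion_null_iff (c1.union c2)).2 fun q _ => hv q)
  rintro x ⟨hxN, hx⟩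
  have hxV : v x ∈ V := by rw [hV]; exact ⟨x, hxN, rfl⟩
  refine mem_iUnion₂.2 ⟨v x, ?_, hxN, rfl⟩
  by_contra hcon
  rw [mem_union, not_or] at hcon
  apply hx
  intro η hη
  constructor
  · by_contra h
    push Not at h
    apply hcon.1
    refine ⟨hxV, ?_⟩
    rw [← empty_mem_iff_bot, mem_nhdsWithin]
    refine ⟨Iio (v x + η), isOpen_Iio, by simpa using hη, ?_⟩
    rintro _ ⟨h1, h2, h3⟩
    rw [hV] at h2
    obtain ⟨y, hy, rfl⟩ := h2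
    exact absurd (h y hy h3) (not_le.2 h1)
  · by_contra h
    push Not at h
    apply hcon.2
    refine ⟨hxV, ?_⟩
    rw [← empty_mem_iff_bot, mem_nhdsWithin]
    refine ⟨Ioi (v x - η), isOpen_Ioi, by simpa using hη, ?_⟩
    rintro _ ⟨h1, h2, h3⟩
    rw [hV] at h2
    obtain ⟨y, hy, rfl⟩ := h2
    exact absurd (h y hy h1) (not_le.2 h3)

theorem clo_null (c b : ℝ) (hb : b ≠ 0) (hb1 : |b| < 1) (ν : Measure E) [IsProbabilityMeasure ν]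
    (hna : ∀ x, ν {x} = 0) (hf : MeasurePreserving (hen c b hb) ν ν) (Good : Set E)
    (γs γu : E → ℝ → E) (S U : E → E) (α α' : ℝ) (hα : 0 < α) (hα' : 0 < α')
    (hs : ∀ x ∈ Good, LeafAt (hen c b hb) γs S α x)
    (hu : ∀ x ∈ Good, LeafAt (hen c b hb).symm γu U α' x) (hw : ∀ x ∈ Good, wg (S x) (U x) ≠ 0)
    (hu1 : ∀ x ∈ Good, ContDiff ℝ 1 (γu x)) (hKu : ∀ x ∈ Good, ∀ t : ℝ, γu x t ∈ KM c b hb)
    (hG : ν Goodᶜ = 0) (xh : E) (γ : ℝ → E) (hγ : ContDiff ℝ 1 γ) (hγ' : ∀ t, deriv γ t ≠ 0)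
    (hγi : Function.Injective γ) (hγK : ∀ t : ℝ, 0 < t → γ t ∈ KM c b hb)
    (hst : ∀ t : ℝ, St (hen c b hb) xh (γ t)) : ν (closure (γ '' Ioi 0)) = 0 := by
  obtain ⟨Bad, hBadd⟩ : ∃ Bad : Set E, Bad = {x | x ∈ Good ∧ x ∈ closure (γ '' Ioi 0) ∧
    ¬ St (hen c b hb) xh x ∧ ¬ ∃ T : ℝ, ∀ t : ℝ, T < t → γ t ∈ range (γu x)} := ⟨_, rfl⟩
  have hsp : MeasurePreserving (hen c b hb).symm ν ν := hf.symm (hen c b hb).toMeasurableEquiv
  -- the points whose unstable curve contains a tail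
  have htail : ν {x | x ∈ Good ∧ ∃ T : ℝ, ∀ t : ℝ, T < t → γ t ∈ range (γu x)} = 0 := by
    by_cases hne : ∃ z, z ∈ Good ∧ ∃ T : ℝ, ∀ t : ℝ, T < t → γ t ∈ range (γu z)
    · obtain ⟨z, hz, T, hT⟩ := hne
      refine measure_mono_null ?_ (st_null (hen c b hb).symm ν hna hsp z)
      rintro x ⟨hx, T', hT'⟩
      obtain ⟨Y, hY⟩ := ((hu z hz).rng _).1 (hT (max T T' + 1) (by
        have := le_max_left T T'
        linarith))
      obtain ⟨Y', hY'⟩ := ((hu x hx).rng _).1 (hT' (max T T' + 1) (by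
        have := le_max_right T T'
        linarith))
      have k1 : St (hen c b hb).symm z (γ (max T T' + 1)) := ⟨α', hα', Y, hY⟩
      have k2 : St (hen c b hb).symm x (γ (max T T' + 1)) := ⟨α', hα', Y', hY'⟩
      exact k1.trans k2.symm
    · refine measure_mono_null ?_ (measure_empty (μ := ν))
      rintro x ⟨hx, hx2⟩
      exact (hne ⟨x, hx, hx2⟩).elim
  suffices hBad : ν Bad = 0 by
    refine measure_mono_null (t := Bad ∪ (Goodᶜ ∪ ({x | St (hen c b hb) xh x} ∪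
      {x | x ∈ Good ∧ ∃ T : ℝ, ∀ t : ℝ, T < t → γ t ∈ range (γu x)}))) ?_
      (measure_union_null hBad (measure_union_null hG
        (measure_union_null (st_null (hen c b hb) ν hna hf xh) htail)))
    intro x hx
    by_cases h1 : x ∈ Good
    · by_cases h2 : St (hen c b hb) xh x
      · exact Or.inr (Or.inr (Or.inl h2))
      · by_cases h3 : ∃ T : ℝ, ∀ t : ℝ, T < t → γ t ∈ range (γu x)
        · exact Or.inr (Or.inr (Or.inr ⟨h1, h3⟩))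
        · left
          rw [hBadd]
          exact ⟨h1, hx, h2, h3⟩
    · exact Or.inr (Or.inl h1)
  have hBG : ∀ x ∈ Bad, x ∈ Good := by
    intro x hx
    rw [hBadd] at hx
    exact hx.1
  by_contra hBad
  obtain ⟨N, hNB, hN0, σ, hσ1, A, δ, r, x0, s0, u0, hA, hδ, hr, hs0, hu0, hδw, hN⟩ :=
    MD.pieces (hen c b hb) ν Bad univ hBad γs γu S U α α' (fun x hx => hs x (hBG x hx))
      (fun x hx => hu x (hBG x hx)) (fun x hx => hw x (hBG x hx))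
      (fun x _ => ⟨1, Or.inl rfl, fun t _ => mem_univ _⟩)
  have hwu : wg u0 s0 = -(wg s0 u0) := by simp [wg]; ring
  have hw0 : wg s0 u0 ≠ 0 := by
    intro h0
    rw [h0, abs_zero] at hδw
    linarith
  obtain ⟨φ, hφ1, hφ2, hφ3, hφ4, hφ5⟩ := MD.graphs (hen c b hb) γs S α A δ r N x0 s0 u0 hr hA hδ hs0
    hu0 hδw (fun x hx => (hN x hx).1) (fun x hx => (hN x hx).2.2.1)
    (fun x hx => (hN x hx).2.2.2.2.1)
  obtain ⟨ψ, hψ1, hψ2, hψ3, hψ4, hψ5⟩ := MD.graphs (hen c b hb).symm γu U α' A δ r N x0 u0 s0 hr hA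
    hδ hu0 hs0 (by rw [hwu, abs_neg]; exact hδw) (fun x hx => (hN x hx).2.1)
    (fun x hx => (hN x hx).2.2.2.1) (fun x hx => (hN x hx).2.2.2.2.1)
  have hbe : ∀ x : E, wg (x - x0) s0 / wg u0 s0 = wg s0 (x - x0) / wg s0 u0 := by
    intro x
    have e1 : wg (x - x0) s0 = - wg s0 (x - x0) := by simp [wg]; ring
    rw [hwu, e1, neg_div_neg_eq]
  have hal : ∀ x : E, wg u0 (x - x0) / wg u0 s0 = wg (x - x0) u0 / wg s0 u0 := by
    intro x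
    have e1 : wg u0 (x - x0) = - wg (x - x0) u0 := by simp [wg]; ring
    rw [hwu, e1, neg_div_neg_eq]
  have hwt : ∀ β : ℝ, 0 < β → Tendsto (fun k : ℕ => A * r * wt β k) atTop (𝓝 0) := by
    intro β hβ
    have := (MD.wt_tendsto hβ).const_mul (A * r)
    simpa using this
  have hr4 : |(0 : ℝ)| ≤ r / 4 := by rw [abs_zero]; linarith
  have h1 : ∀ q : ℝ, ν {x ∈ N | φ x 0 = q} = 0 := by
    intro q
    refine MD.atom (hen c b hb) ν hna hf _ (x0 + (0 : ℝ) • s0 + q • u0) _ (hwt α hα) ?_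
    rintro x ⟨hx, hxq⟩ k
    obtain ⟨t, ht1, ht2, ht3⟩ := hφ3 x hx 0 hr4
    rw [hxq] at ht2
    rw [← ht2, norm_sub_rev]
    have h2 := (hN x hx).1.near t ht1 k
    refine h2.trans ?_
    have h3 := (MD.wt_pos α k).le
    gcongr
  have h2 : ∀ p : ℝ, ν {x ∈ N | ψ x 0 = p} = 0 := by
    intro p
    refine MD.atom (hen c b hb).symm ν hna hsp _ (x0 + (0 : ℝ) • u0 + p • s0) _ (hwt α' hα') ?_
    rintro x ⟨hx, hxq⟩ k
    obtain ⟨t, ht1, ht2, ht3⟩ := hψ3 x hx 0 hr4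
    rw [hxq] at ht2
    rw [← ht2, norm_sub_rev]
    have h2 := (hN x hx).2.1.near t ht1 k
    refine h2.trans ?_
    have h3 := (MD.wt_pos α' k).le
    gcongr
  -- points which are accumulated from all sides
  obtain ⟨N', hN'⟩ : ∃ N' : Set E, N' = {x | x ∈ N ∧
      (∀ η : ℝ, 0 < η → (∃ y ∈ N, φ x 0 < φ y 0 ∧ φ y 0 < φ x 0 + η) ∧
        ∃ y ∈ N, φ x 0 - η < φ y 0 ∧ φ y 0 < φ x 0) ∧
      (∀ η : ℝ, 0 < η → (∃ y ∈ N, ψ x 0 < ψ y 0 ∧ ψ y 0 < ψ x 0 + η) ∧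
        ∃ y ∈ N, ψ x 0 - η < ψ y 0 ∧ ψ y 0 < ψ x 0)} := ⟨_, rfl⟩
  have hN'0 : ν N' ≠ 0 := by
    intro h0
    apply hN0
    refine measure_mono_null ?_ (measure_union_null h0 (measure_union_null
      (iso_null ν N (fun x => φ x 0) h1) (iso_null ν N (fun x => ψ x 0) h2)))
    intro x hx
    by_cases k1 : ∀ η : ℝ, 0 < η → (∃ y ∈ N, φ x 0 < φ y 0 ∧ φ y 0 < φ x 0 + η) ∧
        ∃ y ∈ N, φ x 0 - η < φ y 0 ∧ φ y 0 < φ x 0
    · by_cases k2 : ∀ η : ℝ, 0 < η → (∃ y ∈ N, ψ x 0 < ψ y 0 ∧ ψ y 0 < ψ x 0 + η) ∧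
          ∃ y ∈ N, ψ x 0 - η < ψ y 0 ∧ ψ y 0 < ψ x 0
      · left
        rw [hN']
        exact ⟨hx, k1, k2⟩
      · exact Or.inr (Or.inr ⟨hx, k2⟩)
    · exact Or.inr (Or.inl ⟨hx, k1⟩)
  have hρ : ∀ a : ℝ, |a| ≤ r / 8 → |a| ≤ r / 4 := fun a ha => ha.trans (by linarith)
  -- the tail leaves every unstable curve
  have hleave : ∀ x ∈ N, ∃ T : ℝ, ∀ t : ℝ, T < t → γ t ∉ range (γu x) := by
    intro x hx
    by_contra hcon
    push Not at hcon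
    have hxB := hNB hx
    rw [hBadd] at hxB
    apply hxB.2.2.2
    obtain ⟨t₁, ht₁, hm₁⟩ := hcon 0
    refine ⟨t₁, fun t ht => ?_⟩
    obtain ⟨t₃, ht₃, hm₃⟩ := hcon t
    exact conv c b hb hb1 γ (γu x) hγ hγ' hγi (hu1 x hxB.1) (hKu x hxB.1) t₁ t t₃ ht ht₃
      (fun s hs => hγK s (ht₁.trans_le hs.1)) hm₁ hm₃
  -- the tail stays in boxes
  have hbox : ∀ x ∈ N, ∀ x1 ∈ N, ∀ x2 ∈ N, ∀ x3 ∈ N, ∀ x4 ∈ N, φ x1 0 < φ x 0 → φ x 0 < φ x2 0 →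
      ψ x3 0 < ψ x 0 → ψ x 0 < ψ x4 0 →
      ∃ T : ℝ, ∀ t : ℝ, T < t → γ t ∈ Box x0 s0 u0 (φ x1) (φ x2) (ψ x3) (ψ x4) := by
    intro x hx x1 hx1 x2 hx2 x3 hx3 x4 hx4 k1 k2 k3 k4
    obtain ⟨T3, hT3⟩ := hleave x3 hx3
    obtain ⟨T4, hT4⟩ := hleave x4 hx4
    have hxB := hNB hx
    rw [hBadd] at hxB
    have hop : IsOpen (Box x0 s0 u0 (φ x1) (φ x2) (ψ x3) (ψ x4)) :=
      box_open (hφ1 x1 hx1).continuous (hφ1 x2 hx2).continuous (hψ1 x3 hx3).continuous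
        (hψ1 x4 hx4).continuous
    have hxin : x ∈ Box x0 s0 u0 (φ x1) (φ x2) (ψ x3) (ψ x4) := by
      have m1 := hφ4 x hx
      have m2 := hψ4 x hx
      rw [hbe, hal] at m2
      refine ⟨?_, ?_, ?_, ?_⟩
      · rw [← m1]
        exact MD.g4_lt (hφ1 x1 hx1).continuous (hφ1 x hx).continuous (hφ5 x1 hx1 x hx) k1 _
      · have := MD.g4_lt (hφ1 x hx).continuous (hφ1 x2 hx2).continuous (hφ5 x hx x2 hx2) k2
          (wg (x - x0) u0 / wg s0 u0)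
        rwa [m1] at this
      · have := MD.g4_lt (hψ1 x3 hx3).continuous (hψ1 x hx).continuous (hψ5 x3 hx3 x hx) k3
          (wg s0 (x - x0) / wg s0 u0)
        rwa [m2] at this
      · have := MD.g4_lt (hψ1 x hx).continuous (hψ1 x4 hx4).continuous (hψ5 x hx x4 hx4) k4
          (wg s0 (x - x0) / wg s0 u0)
        rwa [m2] at this
    have hstab : ∀ y ∈ N, ∀ a : ℝ, |a| ≤ r / 8 → ∀ t : ℝ, γ t ≠ x0 + a • s0 + φ y a • u0 := by
      intro y hy a ha t he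
      obtain ⟨t', -, ht', -⟩ := hφ3 y hy a (hρ a ha)
      have hyB := hNB hy
      rw [hBadd] at hyB
      apply hyB.2.2.1
      obtain ⟨Y, hY⟩ := ((hs y hyB.1).rng (γ t)).1 ⟨t', by rw [ht', he]⟩
      have n1 : St (hen c b hb) y (γ t) := ⟨α, hα, Y, hY⟩
      exact (hst t).trans n1.symm
    have hunst : ∀ y ∈ N, ∀ a : ℝ, |a| ≤ r / 8 → ∀ t : ℝ, γ t = x0 + ψ y a • s0 + a • u0 →
        γ t ∈ range (γu y) := by
      intro y hy a ha t he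
      obtain ⟨t', -, ht', -⟩ := hψ3 y hy a (hρ a ha)
      refine ⟨t', ?_⟩
      rw [ht', he]
      abel
    have hfr : ∀ t : ℝ, max T3 T4 < t → γ t ∉ frontier (Box x0 s0 u0 (φ x1) (φ x2) (ψ x3) (ψ x4)) := by
      intro t ht hfr
      rcases box_frontier hw0 (hφ1 x1 hx1).continuous (hφ1 x2 hx2).continuous
        (hψ1 x3 hx3).continuous (hψ1 x4 hx4).continuous (r / 8) (hφ2 x1 hx1) (hφ2 x2 hx2)
        (hψ2 x3 hx3) (hψ2 x4 hx4) _ hfr with ⟨a, ha, h | h⟩ | ⟨a, ha, h | h⟩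
      · exact hstab x1 hx1 a ha t h
      · exact hstab x2 hx2 a ha t h
      · exact hT3 t ((le_max_left _ _).trans_lt ht) (hunst x3 hx3 a ha t h)
      · exact hT4 t ((le_max_right _ _).trans_lt ht) (hunst x4 hx4 a ha t h)
    refine ⟨max T3 T4, stay γ hγ.continuous _ hop _ hfr ?_⟩
    refine tail_freq γ hγ.continuous x hxB.2.1 ?_ _ hop hxin _
    rintro ⟨t, ht⟩
    exact hxB.2.2.1 (by rw [← ht]; exact hst t)
  -- two points
  obtain ⟨x, y, hx, hy, hxy⟩ : ∃ x y : E, x ∈ N' ∧ y ∈ N' ∧ φ x 0 < φ y 0 := by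
    obtain ⟨x, hx⟩ : N'.Nonempty := by
      by_contra h
      rw [not_nonempty_iff_eq_empty] at h
      rw [h] at hN'0
      exact hN'0 measure_empty
    obtain ⟨y, hy, hne⟩ : ∃ y ∈ N', φ y 0 ≠ φ x 0 := by
      by_contra h
      push Not at h
      apply hN'0
      refine measure_mono_null ?_ (h1 (φ x 0))
      intro y hy
      have k1 := h y hy
      rw [hN'] at hy
      exact ⟨hy.1, k1⟩
    rcases lt_or_gt_of_ne hne with h | h
    · exact ⟨y, x, hy, hx, h⟩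
    · exact ⟨x, y, hx, hy, h⟩
  rw [hN'] at hx hy
  obtain ⟨hxN, hx1, hx2⟩ := hx
  obtain ⟨hyN, hy1, hy2⟩ := hy
  obtain ⟨⟨m, hm, hm1, hm2⟩, -⟩ := hx1 (φ y 0 - φ x 0) (by linarith)
  obtain ⟨-, ⟨x1, hx1N, -, hx1l⟩⟩ := hx1 1 one_pos
  obtain ⟨⟨x4, hx4N, hx4g, -⟩, ⟨x3, hx3N, -, hx3l⟩⟩ := hx2 1 one_pos
  obtain ⟨⟨y2, hy2N, hy2g, -⟩, -⟩ := hy1 1 one_pos
  obtain ⟨⟨y4, hy4N, hy4g, -⟩, ⟨y3, hy3N, -, hy3l⟩⟩ := hy2 1 one_pos
  obtain ⟨T, hT⟩ := hbox x hxN x1 hx1N m hm x3 hx3N x4 hx4N hx1l hm1 hx3l hx4g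
  obtain ⟨T', hT'⟩ := hbox y hyN m hm y2 hy2N y3 hy3N y4 hy4N (by linarith) hy2g hy3l hy4g
  have e1 := (hT (max T T' + 1) (by have := le_max_left T T'; linarith)).2.1
  have e2 := (hT' (max T T' + 1) (by have := le_max_right T T'; linarith)).1
  exact lt_asymm e1 e2

end MH
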