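import Pool.Agent.Lib.MP_904526_H.Rado

/-!
# No saddle connections
-/

set_option autoImplicit false

open Set Filter Topology

namespace MH

/-- `F` and `G` are inverse maps, `ψ` is an entire curve contracted by `F` (factor `A`), `φ` is an
entire curve contracted by `G` (factor `B`), and the curves meet in a bounded set -/
structure Conn (F G : ℂ × ℂ → ℂ × ℂ) (ψ φ : ℂ → ℂ × ℂ) (A B : ℂ) : Prop where
  FG : ∀ p, F (G p) = p
  GF : ∀ p, G (F p) = p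
  ψd : Differentiable ℂ ψ
  φd : Differentiable ℂ φ
  A0 : A ≠ 0
  A1 : ‖A‖ < 1
  B0 : B ≠ 0
  B1 : ‖B‖ < 1
  Fψ : ∀ z, F (ψ z) = ψ (A * z)
  Gφ : ∀ w, G (φ w) = φ (B * w)
  φ0 : deriv φ 0 ≠ 0
  R : ∃ R : ℝ, ∀ z w, ψ z = φ w → ‖ψ z‖ ≤ R
  ne : ψ 0 ≠ φ 0

variable {F G : ℂ × ℂ → ℂ × ℂ} {ψ φ : ℂ → ℂ × ℂ} {A B : ℂ}

theorem Conn.Gφn (h : Conn F G ψ φ A B) (m : ℕ) (w : ℂ) : G^[m] (φ w) = φ (B ^ m * w) := by
  induction m with
  | zero => simp
  | succ m ih =>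
    rw [Function.iterate_succ_apply', ih, h.Gφ]
    congr 1
    ring

theorem Conn.Fψn (h : Conn F G ψ φ A B) (m : ℕ) (z : ℂ) : F^[m] (ψ z) = ψ (A ^ m * z) := by
  induction m with
  | zero => simp
  | succ m ih =>
    rw [Function.iterate_succ_apply', ih, h.Fψ]
    congr 1
    ring

theorem Conn.FGn (h : Conn F G ψ φ A B) (m : ℕ) (p : ℂ × ℂ) : F^[m] (G^[m] p) = p :=
  (Function.LeftInverse.iterate h.FG m) p

theorem Conn.GFn (h : Conn F G ψ φ A B) (m : ℕ) (p : ℂ × ℂ) : G^[m] (F^[m] p) = p :=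
  (Function.LeftInverse.iterate h.GF m) p

/-- shrink the parameter of `φ` -/
theorem Conn.back (h : Conn F G ψ φ A B) (m : ℕ) (z w : ℂ) (e : ψ z = φ w) :
    ψ ((A ^ m)⁻¹ * z) = φ (B ^ m * w) := by
  have hA : A ^ m ≠ 0 := pow_ne_zero m h.A0
  have e1 := h.Fψn m ((A ^ m)⁻¹ * z)
  rw [← mul_assoc, mul_inv_cancel₀ hA, one_mul] at e1
  rw [← h.Gφn, ← e, ← e1, h.GFn]

/-- enlarge the parameter of `φ` -/
theorem Conn.forw (h : Conn F G ψ φ A B) (m : ℕ) (z w : ℂ) (e : ψ ((A ^ m)⁻¹ * z) = φ w) :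
    ψ z = φ ((B ^ m)⁻¹ * w) := by
  have hA : A ^ m ≠ 0 := pow_ne_zero m h.A0
  have hB : B ^ m ≠ 0 := pow_ne_zero m h.B0
  have e1 := h.Fψn m ((A ^ m)⁻¹ * z)
  rw [← mul_assoc, mul_inv_cancel₀ hA, one_mul] at e1
  have e2 := h.Gφn m ((B ^ m)⁻¹ * w)
  rw [← mul_assoc, mul_inv_cancel₀ hB, one_mul] at e2
  rw [← e1, e, ← e2, h.FGn]

theorem Conn.pow_lim (B : ℂ) (hB : ‖B‖ < 1) (w : ℂ) : Tendsto (fun m : ℕ => B ^ m * w) atTop (𝓝 0) := by
  have := (tendsto_pow_atTop_nhds_zero_of_norm_lt_one hB).mul_const w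
  rwa [zero_mul] at this

theorem Conn.inj (h : Conn F G ψ φ A B) (w w' : ℂ) (e : φ w = φ w') : w = w' := by
  obtain ⟨ρ, hρ, h1⟩ := MH.inj φ h.φd 0 h.φ0
  have e1 := (Conn.pow_lim B h.B1 w).eventually (Metric.ball_mem_nhds 0 hρ)
  have e2 := (Conn.pow_lim B h.B1 w').eventually (Metric.ball_mem_nhds 0 hρ)
  obtain ⟨m, h2, h3⟩ := (e1.and e2).exists
  have h4 : B ^ m * w = B ^ m * w' := by
    refine h1 _ _ ?_ ?_ ?_
    · rw [← dist_eq_norm]; exact h2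
    · rw [← dist_eq_norm]; exact h3
    · rw [← h.Gφn, ← h.Gφn, e]
  exact mul_left_cancel₀ (pow_ne_zero m h.B0) h4

theorem Conn.nz (h : Conn F G ψ φ A B) (z : ℂ) : ψ z ≠ φ 0 := by
  intro e
  have h1 : F (φ 0) = φ 0 := by
    have := h.Gφ 0
    rw [mul_zero] at this
    have h2 := h.FG (φ 0)
    rwa [this] at h2
  have h3 : ∀ m : ℕ, ψ (A ^ m * z) = φ 0 := by
    intro m
    rw [← h.Fψn, e]
    exact Function.iterate_fixed h1 m
  have h4 := (h.ψd.continuous.tendsto 0).comp (Conn.pow_lim A h.A1 z)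
  have h5 : Tendsto (fun _ : ℕ => φ 0) atTop (𝓝 (ψ 0)) := h4.congr fun m => h3 m
  exact h.ne (tendsto_nhds_unique h5 tendsto_const_nhds)

theorem Conn.germ (h : Conn F G ψ φ A B) (zs ws : ℕ → ℂ) (z₀ w₀ : ℂ) (hz : Tendsto zs atTop (𝓝 z₀))
    (hw : Tendsto ws atTop (𝓝 w₀)) (hne : ∀ j, zs j ≠ z₀) (h1 : ∀ j, ψ (zs j) = φ (ws j)) :
    ∃ g : ℂ → ℂ, AnalyticAt ℂ g z₀ ∧ ∀ᶠ z in 𝓝 z₀, φ (g z) = ψ z := by
  have hdc : Continuous (deriv φ) := (h.φd.contDiff (n := 1)).continuous_deriv le_rfl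
  have hev : ∀ᶠ w in 𝓝 (0 : ℂ), deriv φ w ≠ 0 := hdc.continuousAt.eventually_ne h.φ0
  obtain ⟨m, hm⟩ := ((Conn.pow_lim B h.B1 w₀).eventually hev).exists
  have hA : (A ^ m)⁻¹ ≠ 0 := inv_ne_zero (pow_ne_zero m h.A0)
  obtain ⟨g, hg1, hg2⟩ := MH.germ ψ φ h.ψd h.φd (fun j => (A ^ m)⁻¹ * zs j) (fun j => B ^ m * ws j)
    ((A ^ m)⁻¹ * z₀) (B ^ m * w₀) (hz.const_mul _) (hw.const_mul _)
    (fun j hj => hne j (mul_left_cancel₀ hA hj)) (fun j => h.back m _ _ (h1 j)) hm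
  have hc : AnalyticAt ℂ (fun z : ℂ => (A ^ m)⁻¹ * z) z₀ := analyticAt_const.mul analyticAt_id
  refine ⟨fun z => (B ^ m)⁻¹ * g ((A ^ m)⁻¹ * z), analyticAt_const.mul (hg1.fun_comp hc), ?_⟩
  have ht : Tendsto (fun z : ℂ => (A ^ m)⁻¹ * z) (𝓝 z₀) (𝓝 ((A ^ m)⁻¹ * z₀)) :=
    (continuous_const.mul continuous_id).tendsto _
  filter_upwards [ht.eventually hg2] with z hz
  exact (h.forw m z _ hz.symm).symm

/-- if the curves meet at a sequence of points with convergent parameters, then `ψ` is constant -/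
theorem Conn.const (h : Conn F G ψ φ A B) (zs ws : ℕ → ℂ) (z₀ w₀ : ℂ) (hz : Tendsto zs atTop (𝓝 z₀))
    (hw : Tendsto ws atTop (𝓝 w₀)) (hne : ∀ j, zs j ≠ z₀) (h1 : ∀ j, ψ (zs j) = φ (ws j)) (z z' : ℂ) :
    ψ z = ψ z' := by
  classical
  obtain ⟨Ω, hΩ⟩ : ∃ Ω : Set ℂ, Ω = {z | ∃ g : ℂ → ℂ, AnalyticAt ℂ g z ∧ ∀ᶠ z' in 𝓝 z, φ (g z') = ψ z'} :=
    ⟨_, rfl⟩
  have hne' : Ω.Nonempty := by
    refine ⟨z₀, ?_⟩
    rw [hΩ]
    exact h.germ zs ws z₀ w₀ hz hw hne h1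
  have ho : IsOpen Ω := by
    rw [hΩ, isOpen_iff_mem_nhds]
    rintro z ⟨g, hg1, hg2⟩
    filter_upwards [hg1.eventually_analyticAt, hg2.eventually_nhds] with z' h2 h3
    exact ⟨g, h2, h3⟩
  -- the parameter of the second curve
  obtain ⟨H, hH⟩ : ∃ H : ℂ → ℂ, ∀ z w, φ w = ψ z → H z = w := by
    refine ⟨fun z => if h : ∃ w, φ w = ψ z then h.choose else 0, fun z w hw => ?_⟩
    have hex : ∃ w, φ w = ψ z := ⟨w, hw⟩
    show (if h : ∃ w, φ w = ψ z then h.choose else 0) = w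
    rw [dif_pos hex]
    exact h.inj _ _ (hex.choose_spec.trans hw.symm)
  have hHa : ∀ z ∈ Ω, AnalyticAt ℂ H z ∧ φ (H z) = ψ z := by
    intro z hz
    rw [hΩ] at hz
    obtain ⟨g, hg1, hg2⟩ := hz
    refine ⟨hg1.congr ?_, ?_⟩
    · filter_upwards [hg2] with z' h2
      exact (hH z' _ h2).symm
    · have := hg2.self_of_nhds
      rw [hH z _ this]
      exact this
  have hH0 : ∀ z ∈ Ω, H z ≠ 0 := by
    intro z hz h0
    have := (hHa z hz).2
    rw [h0] at this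
    exact h.nz z this.symm
  obtain ⟨k, hk⟩ : ∃ k : ℂ → ℂ, k = fun z => if z ∈ Ω then (H z)⁻¹ else 0 := ⟨_, rfl⟩
  have hk1 : ∀ z ∈ Ω, k z = (H z)⁻¹ := by
    intro z hz
    rw [hk]
    exact if_pos hz
  have hk0 : ∀ z, z ∉ Ω → k z = 0 := by
    intro z hz
    rw [hk]
    exact if_neg hz
  have hka : ∀ z ∈ Ω, AnalyticAt ℂ k z := by
    intro z hz
    refine ((hHa z hz).1.inv (hH0 z hz)).congr ?_
    filter_upwards [ho.mem_nhds hz] with z' hz'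
    exact (hk1 z' hz').symm
  have hkc : Continuous k := by
    rw [continuous_iff_continuousAt]
    intro z
    by_cases hz : z ∈ Ω
    · exact (hka z hz).continuousAt
    · rw [Metric.continuousAt_iff']
      intro ε hε
      by_contra hcon
      rw [not_eventually] at hcon
      obtain ⟨ys, hys, hys2⟩ := exists_seq_forall_of_frequently hcon
      have hyΩ : ∀ j, ys j ∈ Ω := by
        intro j
        by_contra hj
        apply hys2 j
        rw [hk0 z hz, hk0 _ hj, dist_self]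
        exact hε
      have hbd : ∀ j, H (ys j) ∈ Metric.closedBall (0 : ℂ) ε⁻¹ := by
        intro j
        have h2 := hys2 j
        rw [hk0 z hz, hk1 _ (hyΩ j), dist_zero_right, norm_inv, not_lt] at h2
        rw [mem_closedBall_zero_iff]
        have h3 : 0 < ‖H (ys j)‖ := norm_pos_iff.2 (hH0 _ (hyΩ j))
        rw [le_inv_comm₀ h3 hε]
        exact h2
      obtain ⟨w, -, θ, hθ, hlim⟩ := tendsto_subseq_of_bounded Metric.isBounded_closedBall hbd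
      apply hz
      rw [hΩ]
      refine h.germ (fun j => ys (θ j)) (fun j => H (ys (θ j))) z w
        (hys.comp hθ.tendsto_atTop) hlim ?_ ?_
      · intro j hj
        apply hz
        rw [← hj]
        exact hyΩ _
      · intro j
        exact (hHa _ (hyΩ _)).2.symm
  have hdense : Dense Ω := dense_of_zero Ω ho hne' k hkc
    (fun z hz => (hka z hz).differentiableAt.differentiableWithinAt)
    (fun z hz => by rw [hk1 z hz]; exact inv_ne_zero (hH0 z hz)) hk0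
  obtain ⟨R, hR⟩ := h.R
  have hbd : ∀ z, ‖ψ z‖ ≤ R := by
    intro z
    have hcl : IsClosed {z | ‖ψ z‖ ≤ R} := isClosed_le h.ψd.continuous.norm continuous_const
    have hsub : Ω ⊆ {z | ‖ψ z‖ ≤ R} := fun z hz => hR z (H z) (hHa z hz).2.symm
    exact (hcl.closure_subset_iff.2 hsub) (hdense z)
  refine h.ψd.apply_eq_apply_of_bounded ?_ z z'
  refine (Metric.isBounded_closedBall (x := (0 : ℂ × ℂ)) (r := R)).subset ?_
  rintro _ ⟨s, rfl⟩
  rw [mem_closedBall_zero_iff]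
  exact hbd s

end MH
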