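import Pool.Agent.Lib.MP_904526_H.Conn
import Pool.Agent.Lib.MP_904526_E.MC6

/-!
# Complex curves, and the hypotheses of `Conn` for Henon maps
-/

set_option autoImplicit false

open Set Filter Topology

namespace MH

open MD (E hen wt Tame Gam Qh Ph)
open ME (EC cx cx_inj cx_norm Fc Gc GamC cxL)

/-- the quadratic part of the Henon map -/
noncomputable def QhC (w : EC) : EC := (w.1 ^ 2, 0)

theorem QhC_cx (w : E) : QhC (cx w) = cx (Qh w) := by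
  simp [QhC, cx, Qh]

theorem QhC_zero : QhC 0 = 0 := by
  simp [QhC]

theorem QhC_lip (w w' : EC) : ‖QhC w - QhC w'‖ ≤ 1 * (‖w‖ + ‖w'‖) * ‖w - w'‖ := by
  have e : QhC w - QhC w' = (((w.1 - w'.1) * (w.1 + w'.1), 0) : EC) := by
    ext
    · simp only [QhC, Prod.fst_sub]
      ring
    · simp [QhC]
  rw [e, Prod.norm_mk, norm_zero, max_eq_left (norm_nonneg _), norm_mul]
  have h2 : ‖w.1 + w'.1‖ ≤ ‖w‖ + ‖w'‖ :=
    (norm_add_le _ _).trans (add_le_add (norm_fst_le w) (norm_fst_le w'))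
  have h4 : ‖w.1 - w'.1‖ ≤ ‖w - w'‖ := norm_fst_le (w - w')
  calc ‖w.1 - w'.1‖ * ‖w.1 + w'.1‖ ≤ ‖w - w'‖ * (‖w‖ + ‖w'‖) := by gcongr
    _ = _ := by ring

theorem QhC_diff : Differentiable ℂ QhC := by
  unfold QhC
  fun_prop

/-- the entire curve which extends a stable curve -/
theorem cpx_curve {L : ℕ → E →L[ℝ] E} {P : E → E} {v : ℕ → E} {q C χ ε : ℝ} (ht : Tame L P v q C χ ε)
    (PC : EC → EC) (h0 : PC 0 = 0) (hl : ∀ w w', ‖PC w - PC w'‖ ≤ q * (‖w‖ + ‖w'‖) * ‖w - w'‖)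
    (hc : ∀ w, PC (cx w) = cx (P w)) (hd : Differentiable ℂ PC) (x : E) :
    ∃ ψ : ℂ → ℂ × ℂ, Differentiable ℂ ψ ∧ ∀ t : ℝ, ψ (t : ℂ) = cx (x + Gam L P v 0 t) := by
  have hC := ME.tameC_of ht PC h0 hl
  refine ⟨fun s => cx x + GamC (fun i => cxL (L i)) PC (fun i => cx (v i)) 0 s,
    (differentiable_const _).add (ME.gamC_diffble hC hd 0), fun t => ?_⟩
  show cx x + GamC (fun i => cxL (L i)) PC (fun i => cx (v i)) 0 (t : ℂ) = cx (x + Gam L P v 0 t)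
  rw [ME.cx_add]
  congr 1
  have h1 := ME.gamC_tendsto hC 0 (t : ℂ)
  have h2 := (ME.cx_cont.tendsto _).comp (MD.gam_tendsto ht 0 t)
  refine tendsto_nhds_unique h1 (h2.congr fun n => ?_)
  simp only [Function.comp]
  rw [← ME.HbC_cx _ _ PC hc, ME.cx_smul]

theorem iterG (c b : ℝ) (hb : b ≠ 0) (y : E) (n : ℕ) :
    (Gc c b)^[n] (cx y) = cx ((hen c b hb).symm^[n] y) := by
  induction n with
  | zero => rfl
  | succ n ih =>
    rw [Function.iterate_succ_apply', Function.iterate_succ_apply', ih, MD.hen_symm_apply]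
    ext
    · simp [Gc, cx]
    · simp [Gc, cx]

theorem iterF (c b : ℝ) (hb : b ≠ 0) (y : E) (n : ℕ) :
    (Fc c b)^[n] (cx y) = cx ((hen c b hb)^[n] y) := by
  induction n with
  | zero => rfl
  | succ n ih =>
    rw [Function.iterate_succ_apply', Function.iterate_succ_apply', ih, MD.hen_apply]
    ext
    · simp [Fc, cx]
    · simp [Fc, cx]

theorem Fc_diff (c b : ℝ) : Differentiable ℂ (Fc c b) := by
  unfold Fc
  fun_prop

theorem Gc_diff (c b : ℝ) : Differentiable ℂ (Gc c b) := by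
  unfold Gc
  fun_prop

/-- two entire curves which agree on the real line -/
theorem ext_real (ψ φ : ℂ → ℂ × ℂ) (hψ : Differentiable ℂ ψ) (hφ : Differentiable ℂ φ)
    (h : ∀ t : ℝ, ψ (t : ℂ) = φ (t : ℂ)) (z : ℂ) : ψ z = φ z := by
  have h1 : ψ = φ := by
    refine AnalyticOnNhd.eq_of_frequently_eq (z₀ := 0) (fun z _ => hψ.analyticAt z)
      (fun z _ => hφ.analyticAt z) ?_
    have ht : Tendsto (fun n : ℕ => (((1 / ((n : ℝ) + 1) : ℝ)) : ℂ)) atTop (𝓝[≠] 0) := by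
      refine tendsto_nhdsWithin_iff.2 ⟨?_, Eventually.of_forall fun n => ?_⟩
      · have h2 := (Complex.continuous_ofReal.tendsto 0).comp
          (tendsto_one_div_add_atTop_nhds_zero_nat (𝕜 := ℝ))
        rw [Complex.ofReal_zero] at h2
        exact h2
      · have h3 : (1 / ((n : ℝ) + 1) : ℝ) ≠ 0 := by positivity
        rw [mem_compl_singleton_iff]
        exact Complex.ofReal_ne_zero.2 h3
    exact ht.frequently (Eventually.frequently (Eventually.of_forall fun n => h _))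
  rw [h1]

theorem escF (c b : ℝ) (hb1 : |b| < 1) (p : ℂ × ℂ) (h1 : 3 + |c| ≤ ‖p.1‖) (h2 : ‖p.2‖ ≤ ‖p.1‖) :
    2 * ‖p.1‖ ≤ ‖(Fc c b p).1‖ := by
  have e : (Fc c b p).1 = p.1 ^ 2 + (c : ℂ) - (b : ℂ) * p.2 := rfl
  rw [e]
  have h3 : ‖p.1‖ ^ 2 ≤ ‖p.1 ^ 2 + (c : ℂ) - (b : ℂ) * p.2‖ + |c| + |b| * ‖p.2‖ := by
    have h4 : p.1 ^ 2 = (p.1 ^ 2 + (c : ℂ) - (b : ℂ) * p.2) - (c : ℂ) + (b : ℂ) * p.2 := by ring
    calc ‖p.1‖ ^ 2 = ‖p.1 ^ 2‖ := (norm_pow _ _).symm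
      _ = ‖(p.1 ^ 2 + (c : ℂ) - (b : ℂ) * p.2) - (c : ℂ) + (b : ℂ) * p.2‖ := by rw [← h4]
      _ ≤ ‖(p.1 ^ 2 + (c : ℂ) - (b : ℂ) * p.2) - (c : ℂ)‖ + ‖(b : ℂ) * p.2‖ := norm_add_le _ _
      _ ≤ ‖p.1 ^ 2 + (c : ℂ) - (b : ℂ) * p.2‖ + ‖(c : ℂ)‖ + ‖(b : ℂ) * p.2‖ := by
        gcongr
        exact norm_sub_le _ _
      _ = _ := by
        rw [norm_mul, Complex.norm_real, Complex.norm_real, Real.norm_eq_abs, Real.norm_eq_abs]
  have h5 : |b| * ‖p.2‖ ≤ ‖p.1‖ := by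
    have := abs_nonneg b
    have := norm_nonneg p.2
    nlinarith
  have h6 := abs_nonneg c
  nlinarith

theorem escG (c b : ℝ) (hb : b ≠ 0) (hb1 : |b| < 1) (p : ℂ × ℂ) (h1 : 3 + |c| ≤ ‖p.2‖)
    (h2 : ‖p.1‖ ≤ ‖p.2‖) : 2 * ‖p.2‖ ≤ ‖(Gc c b p).2‖ := by
  have e : (Gc c b p).2 = (p.2 ^ 2 + (c : ℂ) - p.1) / (b : ℂ) := rfl
  have hb0 : 0 < |b| := abs_pos.2 hb
  rw [e, norm_div, Complex.norm_real, Real.norm_eq_abs, le_div_iff₀ hb0]
  have h3 : ‖p.2‖ ^ 2 ≤ ‖p.2 ^ 2 + (c : ℂ) - p.1‖ + |c| + ‖p.1‖ := by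
    have h4 : p.2 ^ 2 = (p.2 ^ 2 + (c : ℂ) - p.1) - (c : ℂ) + p.1 := by ring
    calc ‖p.2‖ ^ 2 = ‖p.2 ^ 2‖ := (norm_pow _ _).symm
      _ = ‖(p.2 ^ 2 + (c : ℂ) - p.1) - (c : ℂ) + p.1‖ := by rw [← h4]
      _ ≤ ‖(p.2 ^ 2 + (c : ℂ) - p.1) - (c : ℂ)‖ + ‖p.1‖ := norm_add_le _ _
      _ ≤ ‖p.2 ^ 2 + (c : ℂ) - p.1‖ + ‖(c : ℂ)‖ + ‖p.1‖ := by
        gcongr
        exact norm_sub_le _ _
      _ = _ := by rw [Complex.norm_real, Real.norm_eq_abs]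
  have h6 := abs_nonneg c
  have h7 : 2 * ‖p.2‖ * |b| ≤ 2 * ‖p.2‖ := by
    have := norm_nonneg p.2
    nlinarith
  nlinarith

theorem escF_iter (c b : ℝ) (hb1 : |b| < 1) (p : ℂ × ℂ) (h1 : 3 + |c| ≤ ‖p.1‖) (h2 : ‖p.2‖ ≤ ‖p.1‖)
    (n : ℕ) : 2 ^ n * ‖p.1‖ ≤ ‖((Fc c b)^[n] p).1‖ ∧
      ‖((Fc c b)^[n] p).2‖ ≤ ‖((Fc c b)^[n] p).1‖ := by
  have h3 := abs_nonneg c
  induction n with
  | zero => exact ⟨by simp, h2⟩
  | succ n ih =>
    obtain ⟨i1, i2⟩ := ih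
    have h4 : (1 : ℝ) ≤ 2 ^ n := one_le_pow₀ (by norm_num)
    have h5 : 3 + |c| ≤ ‖((Fc c b)^[n] p).1‖ := by nlinarith
    have h6 := escF c b hb1 _ h5 i2
    rw [Function.iterate_succ_apply']
    have h7 : (Fc c b ((Fc c b)^[n] p)).2 = ((Fc c b)^[n] p).1 := rfl
    rw [h7, pow_succ]
    constructor
    · linarith
    · linarith

theorem escG_iter (c b : ℝ) (hb : b ≠ 0) (hb1 : |b| < 1) (p : ℂ × ℂ) (h1 : 3 + |c| ≤ ‖p.2‖)
    (h2 : ‖p.1‖ ≤ ‖p.2‖) (n : ℕ) : 2 ^ n * ‖p.2‖ ≤ ‖((Gc c b)^[n] p).2‖ ∧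
      ‖((Gc c b)^[n] p).1‖ ≤ ‖((Gc c b)^[n] p).2‖ := by
  have h3 := abs_nonneg c
  induction n with
  | zero => exact ⟨by simp, h2⟩
  | succ n ih =>
    obtain ⟨i1, i2⟩ := ih
    have h4 : (1 : ℝ) ≤ 2 ^ n := one_le_pow₀ (by norm_num)
    have h5 : 3 + |c| ≤ ‖((Gc c b)^[n] p).2‖ := by nlinarith
    have h6 := escG c b hb hb1 _ h5 i2
    rw [Function.iterate_succ_apply']
    have h7 : (Gc c b ((Gc c b)^[n] p)).1 = ((Gc c b)^[n] p).2 := rfl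
    rw [h7, pow_succ]
    constructor
    · linarith
    · linarith

theorem grow_absurd (u : ℕ → ℝ) (l : ℝ) (hu : Tendsto u atTop (𝓝 l)) (h : ∀ k, 2 ^ k ≤ u k) : False := by
  have h1 : Tendsto u atTop atTop :=
    tendsto_atTop_mono h (tendsto_pow_atTop_atTop_of_one_lt (by norm_num))
  exact not_tendsto_nhds_of_tendsto_atTop h1 l hu

theorem conn_of (c b : ℝ) (hb : b ≠ 0) (hb1 : |b| < 1) (γ δ : ℝ → E) (ψ φ : ℂ → ℂ × ℂ)
    (hψ : Differentiable ℂ ψ) (hφ : Differentiable ℂ φ) (hψr : ∀ t : ℝ, ψ (t : ℂ) = cx (γ t))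
    (hφr : ∀ t : ℝ, φ (t : ℂ) = cx (δ t)) (N : ℕ) (hN : 1 ≤ N) (A B : ℝ) (hA0 : A ≠ 0) (hA1 : |A| < 1)
    (hB0 : B ≠ 0) (hB1 : |B| < 1) (h1 : ∀ t, (hen c b hb)^[N] (γ t) = γ (A * t))
    (h2 : ∀ t, (hen c b hb).symm^[N] (δ t) = δ (B * t)) (hδ : ContDiff ℝ 1 δ) (hd : deriv δ 0 ≠ 0)
    (hne : γ 0 ≠ δ 0) : Conn (Fc c b)^[N] (Gc c b)^[N] ψ φ (A : ℂ) (B : ℂ) := by
  have hFψ : ∀ z, (Fc c b)^[N] (ψ z) = ψ ((A : ℂ) * z) := by
    refine ext_real _ _ (((Fc_diff c b).iterate N).comp hψ)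
      (hψ.comp ((differentiable_const _).mul differentiable_id)) fun t => ?_
    have e : (A : ℂ) * (t : ℂ) = ((A * t : ℝ) : ℂ) := by push_cast; rfl
    show (Fc c b)^[N] (ψ (t : ℂ)) = ψ ((A : ℂ) * (t : ℂ))
    rw [e, hψr, hψr, iterF c b hb, h1]
  have hGφ : ∀ z, (Gc c b)^[N] (φ z) = φ ((B : ℂ) * z) := by
    refine ext_real _ _ (((Gc_diff c b).iterate N).comp hφ)
      (hφ.comp ((differentiable_const _).mul differentiable_id)) fun t => ?_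
    have e : (B : ℂ) * (t : ℂ) = ((B * t : ℝ) : ℂ) := by push_cast; rfl
    show (Gc c b)^[N] (φ (t : ℂ)) = φ ((B : ℂ) * (t : ℂ))
    rw [e, hφr, hφr, iterG c b hb, h2]
  have hAn : ‖(A : ℂ)‖ < 1 := by rwa [Complex.norm_real, Real.norm_eq_abs]
  have hBn : ‖(B : ℂ)‖ < 1 := by rwa [Complex.norm_real, Real.norm_eq_abs]
  have hFn : ∀ (k : ℕ) (z : ℂ), (Fc c b)^[N * k] (ψ z) = ψ ((A : ℂ) ^ k * z) := by
    intro k z
    induction k with
    | zero => simp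
    | succ k ih =>
      rw [Nat.mul_succ, add_comm, Function.iterate_add_apply, ih, hFψ]
      congr 1
      ring
  have hGn : ∀ (k : ℕ) (z : ℂ), (Gc c b)^[N * k] (φ z) = φ ((B : ℂ) ^ k * z) := by
    intro k z
    induction k with
    | zero => simp
    | succ k ih =>
      rw [Nat.mul_succ, add_comm, Function.iterate_add_apply, ih, hGφ]
      congr 1
      ring
  have h2k : ∀ k : ℕ, (2 : ℝ) ^ k ≤ 2 ^ (N * k) := fun k =>
    pow_le_pow_right₀ (by norm_num) (Nat.le_mul_of_pos_left k hN)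
  refine ⟨?_, ?_, hψ, hφ, ?_, hAn, ?_, hBn, hFψ, hGφ, ?_, ⟨3 + |c|, ?_⟩, ?_⟩
  · exact (Function.LeftInverse.iterate (fun p => ME.Fc_Gc c b hb p) N)
  · exact (Function.LeftInverse.iterate (fun p => ME.Gc_Fc c b hb p) N)
  · exact_mod_cast hA0
  · exact_mod_cast hB0
  · intro h0
    apply hd
    rw [deriv_pair hφ] at h0
    have f1 : deriv (fun z => (φ z).1) 0 = 0 := congrArg Prod.fst h0
    have f2 : deriv (fun z => (φ z).2) 0 = 0 := congrArg Prod.snd h0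
    have e3 := ((hδ.differentiable (by norm_num)).differentiableAt (x := (0 : ℝ))).hasDerivAt
    have e4 : HasDerivAt (fun t => (δ t).1) (deriv δ 0).1 0 :=
      (ContinuousLinearMap.fst ℝ ℝ ℝ).hasFDerivAt.comp_hasDerivAt (0 : ℝ) e3
    have e5 : HasDerivAt (fun t => (δ t).2) (deriv δ 0).2 0 :=
      (ContinuousLinearMap.snd ℝ ℝ ℝ).hasFDerivAt.comp_hasDerivAt (0 : ℝ) e3
    have e6 : HasDerivAt (fun t : ℝ => (φ (t : ℂ)).1) 0 0 := by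
      have h3 := (fst_diff hφ ((0 : ℝ) : ℂ)).hasDerivAt.comp_ofReal
      rw [Complex.ofReal_zero, f1] at h3
      exact h3
    have e7 : HasDerivAt (fun t : ℝ => (φ (t : ℂ)).2) 0 0 := by
      have h3 := (snd_diff hφ ((0 : ℝ) : ℂ)).hasDerivAt.comp_ofReal
      rw [Complex.ofReal_zero, f2] at h3
      exact h3
    have e8 : (fun t : ℝ => (φ (t : ℂ)).1) = fun t => (((δ t).1 : ℝ) : ℂ) :=
      funext fun t => congrArg Prod.fst (hφr t)
    have e9 : (fun t : ℝ => (φ (t : ℂ)).2) = fun t => (((δ t).2 : ℝ) : ℂ) :=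
      funext fun t => congrArg Prod.snd (hφr t)
    rw [e8] at e6
    rw [e9] at e7
    have g1 := e6.unique e4.ofReal_comp
    have g2 := e7.unique e5.ofReal_comp
    exact Prod.ext (Complex.ofReal_eq_zero.1 g1.symm) (Complex.ofReal_eq_zero.1 g2.symm)
  · intro z w hzw
    by_contra hlt
    rw [not_le] at hlt
    rcases le_total ‖(ψ z).2‖ ‖(ψ z).1‖ with hc | hc
    · have hn : ‖ψ z‖ = ‖(ψ z).1‖ := by rw [Prod.norm_def, max_eq_left hc]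
      rw [hn] at hlt
      have h3 := (hψ.continuous.norm.tendsto 0).comp (Conn.pow_lim (A : ℂ) hAn z)
      refine grow_absurd _ _ h3 fun k => ?_
      have h4 := (escF_iter c b hb1 (ψ z) hlt.le hc (N * k)).1
      rw [hFn] at h4
      have h5 := norm_fst_le (ψ ((A : ℂ) ^ k * z))
      have h6 := h2k k
      have h7 := abs_nonneg c
      show (2 : ℝ) ^ k ≤ ‖ψ ((A : ℂ) ^ k * z)‖
      have h8 : (0 : ℝ) < 2 ^ (N * k) := by positivity
      nlinarith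
    · have hn : ‖ψ z‖ = ‖(ψ z).2‖ := by rw [Prod.norm_def, max_eq_right hc]
      rw [hn] at hlt
      have h3 := (hφ.continuous.norm.tendsto 0).comp (Conn.pow_lim (B : ℂ) hBn w)
      refine grow_absurd _ _ h3 fun k => ?_
      have h4 := (escG_iter c b hb hb1 (ψ z) hlt.le hc (N * k)).1
      rw [hzw, hGn, ← hzw] at h4
      have h5 := norm_snd_le (φ ((B : ℂ) ^ k * w))
      have h6 := h2k k
      have h7 := abs_nonneg c
      show (2 : ℝ) ^ k ≤ ‖φ ((B : ℂ) ^ k * w)‖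
      have h8 : (0 : ℝ) < 2 ^ (N * k) := by positivity
      nlinarith
  · intro h0
    apply hne
    have e1 := hψr 0
    have e2 := hφr 0
    rw [Complex.ofReal_zero] at e1 e2
    rw [e1, e2] at h0
    exact cx_inj h0

/-- accumulation of an uncountable relation -/
theorem acc (P : ℝ → ℝ → Prop) (a b : ℝ) (hab : a < b) (h : ∀ t ∈ Icc a b, ∃ s, P t s) :
    ∃ (ts ss : ℕ → ℝ) (t₀ s₀ : ℝ), Tendsto ts atTop (𝓝 t₀) ∧ Tendsto ss atTop (𝓝 s₀) ∧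
      (∀ j, ts j ≠ t₀) ∧ ∀ j, P (ts j) (ss j) := by
  classical
  choose! s hs using h
  obtain ⟨K, hK⟩ : ∃ K : ℕ, {t ∈ Icc a b | |s t| ≤ K}.Infinite := by
    by_contra hcon
    push Not at hcon
    have h1 : Icc a b ⊆ ⋃ K : ℕ, {t ∈ Icc a b | |s t| ≤ K} := by
      intro t ht
      obtain ⟨K, hK⟩ := exists_nat_ge |s t|
      exact mem_iUnion.2 ⟨K, ht, hK⟩
    have h2 : (Icc a b).Countable :=
      (countable_iUnion fun K => (hcon K).countable).mono h1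
    have h3 := Cardinal.mk_Icc_real hab
    rw [← Cardinal.le_aleph0_iff_set_countable, h3] at h2
    exact absurd h2 (not_le.2 Cardinal.aleph0_lt_continuum)
  obtain ⟨e, he⟩ : ∃ e : ℕ → ℝ, Function.Injective e ∧ ∀ j, e j ∈ Icc a b ∧ |s (e j)| ≤ K := by
    refine ⟨fun j => (hK.natEmbedding _ j : ℝ), ?_, fun j => (hK.natEmbedding _ j).2⟩
    intro i j hij
    exact (hK.natEmbedding _).injective (Subtype.ext hij)
  have hb1 : Bornology.IsBounded (Icc a b ×ˢ Icc (-(K : ℝ)) K) :=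
    (Metric.isBounded_Icc a b).prod (Metric.isBounded_Icc _ _)
  have hx : ∀ j, (e j, s (e j)) ∈ Icc a b ×ˢ Icc (-(K : ℝ)) K := fun j =>
    ⟨(he.2 j).1, abs_le.1 (he.2 j).2⟩
  obtain ⟨⟨t₀, s₀⟩, -, θ, hθ, hlim⟩ := tendsto_subseq_of_bounded hb1 hx
  have hl1 : Tendsto (fun j => e (θ j)) atTop (𝓝 t₀) := (continuous_fst.tendsto _).comp hlim
  have hl2 : Tendsto (fun j => s (e (θ j))) atTop (𝓝 s₀) := (continuous_snd.tendsto _).comp hlim
  obtain ⟨m, hm⟩ : ∃ m : ℕ, ∀ j, e (θ (j + m)) ≠ t₀ := by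
    by_cases hex : ∃ j₀, e (θ j₀) = t₀
    · obtain ⟨j₀, hj₀⟩ := hex
      refine ⟨j₀ + 1, fun j hj => ?_⟩
      have := hθ.injective (he.1 (hj.trans hj₀.symm))
      omega
    · push Not at hex
      exact ⟨0, fun j => hex _⟩
  refine ⟨fun j => e (θ (j + m)), fun j => s (e (θ (j + m))), t₀, s₀,
    hl1.comp (tendsto_add_atTop_nat m), hl2.comp (tendsto_add_atTop_nat m), hm, fun j => ?_⟩
  exact hs _ (he.2 _).1

end MH
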