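import Pool.Agent.Lib.MP_904526_H.Main

/-!
# Periodic points whose return map reverses the stable curve
-/

set_option autoImplicit false

open Set Filter Topology MeasureTheory

namespace MH

open MD (E hen wg dt coc Dh)

/-- the determinant of the derivative of the iterates -/
theorem dt_coc (c b : ℝ) (hb : b ≠ 0) (n : ℕ) (x : E) :
    dt (coc (Dh b) (hen c b hb) n x) = b ^ n := by
  induction n with
  | zero => rw [MD.coc_zero, MD.dt_id, pow_zero]
  | succ n ih =>
    rw [MD.coc_succ, MD.dt_comp, ih, pow_succ']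
    congr 1
    exact MD.Dh_dt b _

/-- the product of two different eigenvalues is the determinant -/
theorem eig_mul (T : E →L[ℝ] E) (w v : E) (A m : ℝ) (hw : w ≠ 0) (hv : v ≠ 0) (hA : T w = A • w)
    (hm : T v = m • v) (hne : A ≠ m) : A * m = dt T := by
  have h1 : wg (T w) (T v) = dt T * wg w v := MD.wg_map T w v
  have h2 : wg (A • w) (m • v) = A * m * wg w v := by
    unfold wg
    simp only [Prod.smul_fst, Prod.smul_snd, smul_eq_mul]
    ring
  rw [hA, hm, h2] at h1
  refine mul_right_cancel₀ ?_ h1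
  intro h0
  unfold wg at h0
  have k1 : w.1 • v = v.1 • w := by
    ext
    · simp only [Prod.smul_fst, smul_eq_mul]; ring
    · simp only [Prod.smul_snd, smul_eq_mul]; linarith
  have k2 : w.2 • v = v.2 • w := by
    ext
    · simp only [Prod.smul_fst, smul_eq_mul]; linarith
    · simp only [Prod.smul_snd, smul_eq_mul]; ring
  have key : ∀ a e : ℝ, a • v = e • w → e = 0 := by
    intro a e he
    have k3 := congrArg T he
    rw [map_smul, map_smul, hA, hm, smul_comm, he, smul_smul, smul_smul] at k3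
    have k4 : (m * e - e * A) • w = 0 := by rw [sub_smul, k3, sub_self]
    rcases smul_eq_zero.1 k4 with k5 | k5
    · have k6 : (m - A) * e = 0 := by linarith
      rcases mul_eq_zero.1 k6 with k7 | k7
      · exact absurd (by linarith : A = m) hne
      · exact k7
    · exact absurd k5 hw
  apply hv
  ext
  · exact key _ _ k1
  · exact key _ _ k2

/-- the image of a bounded part of the curve under a continuous map is bounded -/
theorem bdd_map (F : E → E) (hF : Continuous F) (γ : ℝ → E) (A : ℝ) (hA0 : A ≠ 0)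
    (hA : ∀ t, F (γ t) = γ (A * t)) (P Q : Set ℝ) (hPQ : ∀ t ∈ Q, t / A ∈ P)
    (hb : Bornology.IsBounded (γ '' P)) : Bornology.IsBounded (γ '' Q) := by
  refine (hb.isCompact_closure.image hF).isBounded.subset ?_
  rintro _ ⟨t, ht, rfl⟩
  refine ⟨γ (t / A), subset_closure ⟨t / A, hPQ t ht, rfl⟩, ?_⟩
  rw [hA, mul_div_cancel₀ _ hA0]

/-- `x` is periodic and the stable eigenvalue `b^n / m` of the return map `f^n` is negative, where `m`
is the other eigenvalue -/
def Flips (c b : ℝ) (x : ℝ × ℝ) : Prop :=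
  ∃ n : ℕ, 1 ≤ n ∧ (henonMap c b)^[n] x = x ∧ ∃ m : ℝ, 1 ≤ |m| ∧ m * b ^ n < 0 ∧ ∃ v : ℝ × ℝ, v ≠ 0 ∧
    fderiv ℝ ((henonMap c b)^[n]) x v = m • v

/-- both branches are bounded or both are unbounded -/
theorem flip (c b : ℝ) (hb : b ≠ 0) (x : E) (γ : ℝ → E) (g1 : ContDiff ℝ 1 γ)
    (g2 : ∀ t, deriv γ t ≠ 0) (g4 : γ 0 = x) (n : ℕ) (A : ℝ) (hA0 : A ≠ 0) (hA1 : |A| < 1)
    (hA : ∀ t, (hen c b hb)^[n] (γ t) = γ (A * t)) (m : ℝ) (hm : 1 ≤ |m|) (hmb : m * b ^ n < 0)
    (v : E) (hv0 : v ≠ 0) (hv : fderiv ℝ ((henonMap c b)^[n]) x v = m • v) :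
    Bornology.IsBounded (γ '' Ioi 0) ↔ Bornology.IsBounded (γ '' Iio 0) := by
  have hd : HasDerivAt γ (deriv γ 0) 0 :=
    ((g1.differentiable (by norm_num)).differentiableAt).hasDerivAt
  have hT : fderiv ℝ ((MD.henon c b)^[n]) x = coc (Dh b) (hen c b hb) n x :=
    MD.henon_fderiv c b hb n x
  have hv' : coc (Dh b) (hen c b hb) n x v = m • v := by
    rw [← hT]
    exact hv
  have hfd : HasFDerivAt ((hen c b hb)^[n]) (coc (Dh b) (hen c b hb) n x) (γ 0) := by
    rw [g4]
    have h : ∀ n : ℕ, HasFDerivAt ((MD.henon c b)^[n]) (coc (Dh b) (hen c b hb) n x) x := by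
      intro n
      induction n with
      | zero =>
        rw [MD.coc_zero]
        exact hasFDerivAt_id x
      | succ n ih =>
        rw [MD.coc_succ, Function.iterate_succ']
        exact (MD.henon_hasFDerivAt c b ((MD.henon c b)^[n] x)).comp x ih
    exact h n
  have hc := hfd.comp_hasDerivAt (0 : ℝ) hd
  have hl : HasDerivAt (fun t : ℝ => A * t) A 0 := by
    simpa using (hasDerivAt_id (0 : ℝ)).const_mul A
  have hd' : HasDerivAt γ (deriv γ 0) (A * 0) := by rw [mul_zero]; exact hd
  have hc' : HasDerivAt (fun t : ℝ => γ (A * t)) (A • deriv γ 0) 0 := hd'.scomp (0 : ℝ) hl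
  have e : (hen c b hb)^[n] ∘ γ = fun t : ℝ => γ (A * t) := by
    funext t
    exact hA t
  rw [e] at hc
  have hw : coc (Dh b) (hen c b hb) n x (deriv γ 0) = A • deriv γ 0 := hc.unique hc'
  have hne : A ≠ m := by
    rintro rfl
    linarith
  have h1 := eig_mul _ _ _ A m (g2 0) hv0 hw hv' hne
  rw [dt_coc] at h1
  have hAneg : A < 0 := by
    have h2 : A * m ^ 2 < 0 := by
      have : A * m ^ 2 = m * b ^ n := by rw [← h1]; ring
      rw [this]
      exact hmb
    by_contra h3
    rw [not_lt] at h3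
    have : 0 ≤ A * m ^ 2 := mul_nonneg h3 (sq_nonneg m)
    linarith
  have hF : Continuous ((hen c b hb)^[n]) := (hen c b hb).continuous.iterate n
  constructor
  · exact bdd_map _ hF γ A hA0 hA _ _ fun t ht => by
      rw [mem_Iio] at ht
      exact div_pos_of_neg_of_neg ht hAneg
  · exact bdd_map _ hF γ A hA0 hA _ _ fun t ht => by
      rw [mem_Ioi] at ht
      exact div_neg_of_pos_of_neg ht hAneg

end MH
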