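import Pool.Agent.Lib.MP_904526_H.Main

/-!
# Stable branches of periodic points which are not saddles
-/

set_option autoImplicit false

open Set Filter Topology MeasureTheory

namespace MH

open MD (E hen KM wg wt coc Dh)
open ME (cx cx_inj)

/-- the stable curve of a periodic point -/
structure Half (c b : ℝ) (hb : b ≠ 0) (n : ℕ) (p : E) (γ : ℝ → E) (A : ℝ) (ψ : ℂ → ℂ × ℂ) : Prop where
  g1 : ContDiff ℝ 1 γ
  g2 : ∀ t, deriv γ t ≠ 0
  g3 : Function.Injective γ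
  g4 : γ 0 = p
  side : ∀ σ : ℝ, (σ = 1 ∨ σ = -1) → Bornology.IsBounded (γ '' {t : ℝ | 0 < σ * t}) →
    ∀ t : ℝ, 0 < σ * t → γ t ∈ KM c b hb
  A0 : A ≠ 0
  A1 : |A| < 1
  gA : ∀ t, (hen c b hb)^[n] (γ t) = γ (A * t)
  ψd : Differentiable ℂ ψ
  ψr : ∀ t : ℝ, ψ (t : ℂ) = ME.cx (γ t)

variable {c b : ℝ} {hb : b ≠ 0} {n : ℕ} {p : E} {γ : ℝ → E} {A : ℝ} {ψ : ℂ → ℂ × ℂ}

theorem Half.gAk (h : Half c b hb n p γ A ψ) (k : ℕ) (t : ℝ) :
    (hen c b hb)^[n * k] (γ t) = γ (A ^ k * t) := by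
  induction k with
  | zero => simp
  | succ k ih =>
    rw [Nat.mul_succ, add_comm, Function.iterate_add_apply, ih, h.gA]
    congr 1
    ring

variable {n' : ℕ} {q : E} {γ' δ' : ℝ → E} {S' U' : E} {A' B' : ℝ} {ψ' φ' : ℂ → ℂ × ℂ}

/-- the stable curve of `p` is not contained in the unstable curve of `q` -/
theorem Half.exists_notMem (h : Half c b hb n p γ A ψ)
    (h' : Saddle c b hb n' q γ' δ' S' U' A' B' ψ' φ') (hb1 : |b| < 1) (hn : 1 ≤ n) (hn' : 1 ≤ n')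
    (hpq : p ≠ q) (σ : ℝ) (hσ : σ = 1 ∨ σ = -1) : ∃ t : ℝ, 0 < σ * t ∧ γ t ∉ range δ' := by
  by_contra hcon
  push Not at hcon
  have hss : σ * σ = 1 := by rcases hσ with rfl | rfl <;> norm_num
  have hσ0 : σ ≠ 0 := by
    rintro rfl
    norm_num at hss
  have hA : |A ^ n'| < 1 := by
    rw [abs_pow]
    exact pow_lt_one₀ (abs_nonneg _) h.A1 (by omega)
  have hB : |B' ^ n| < 1 := by
    rw [abs_pow]
    exact pow_lt_one₀ (abs_nonneg _) h'.B1 (by omega)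
  have hC := conn_of c b hb hb1 γ δ' ψ φ' h.ψd h'.φd h.ψr h'.φr (n * n') (Nat.mul_pos hn hn')
    (A ^ n') (B' ^ n) (pow_ne_zero _ h.A0) hA (pow_ne_zero _ h'.B0) hB
    (fun t => h.gAk n' t)
    (fun t => by rw [mul_comm n n']; exact h'.dBk n t) h'.d1 (h'.d2 0)
    (by rw [h.g4, h'.d4]; exact hpq)
  obtain ⟨ts, ss, t₀, s₀, h1, h2, h3, h4⟩ := acc (fun t s => γ (σ * t) = δ' s) 1 2 (by norm_num)
    (fun t ht => by
      obtain ⟨s, hs⟩ := hcon (σ * t) (by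
        rw [← mul_assoc, hss, one_mul]
        linarith [ht.1])
      exact ⟨s, hs.symm⟩)
  have h5 := hC.const (fun j => ((σ * ts j : ℝ) : ℂ)) (fun j => ((ss j : ℝ) : ℂ)) ((σ * t₀ : ℝ) : ℂ)
    ((s₀ : ℝ) : ℂ) ((Complex.continuous_ofReal.tendsto _).comp (h1.const_mul σ))
    ((Complex.continuous_ofReal.tendsto _).comp h2)
    (fun j hj => h3 j (mul_left_cancel₀ hσ0 (Complex.ofReal_injective hj)))
    (fun j => by
      rw [h.ψr, h'.φr, h4 j]) ((0 : ℝ) : ℂ) ((1 : ℝ) : ℂ)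
  rw [h.ψr, h.ψr] at h5
  exact zero_ne_one (h.g3 (cx_inj h5))

/-- a stable branch of `p` which meets the unstable curve of another saddle is unbounded -/
theorem Half.het (h : Half c b hb n p γ A ψ)
    (h' : Saddle c b hb n' q γ' δ' S' U' A' B' ψ' φ') (hb1 : |b| < 1) (hn : 1 ≤ n) (hn' : 1 ≤ n')
    (hpq : p ≠ q) (σ : ℝ) (hσ : σ = 1 ∨ σ = -1) (t₀ : ℝ) (ht₀ : 0 < σ * t₀)
    (hz : γ t₀ ∈ range δ') : ¬ Bornology.IsBounded (γ '' {t : ℝ | 0 < σ * t}) := by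
  intro hbd
  have hK := h.side σ hσ hbd
  have hss : σ * σ = 1 := by rcases hσ with rfl | rfl <;> norm_num
  obtain ⟨t₁, ht₁, hn₁⟩ := h.exists_notMem h' hb1 hn hn' hpq σ hσ
  obtain ⟨a, ha⟩ : ∃ a : ℝ, a = A ^ (2 * n') := ⟨_, rfl⟩
  have ha0 : 0 < a := by
    rw [ha, pow_mul]
    have := h.A0
    positivity
  have ha1 : a < 1 := by
    rw [ha, pow_mul]
    refine pow_lt_one₀ (by positivity) ?_ (by omega)
    rw [← sq_abs]
    exact pow_lt_one₀ (abs_nonneg _) h.A1 (by norm_num)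
  have hsc : ∀ t, (hen c b hb)^[n * (2 * n')] (γ t) = γ (a * t) := by
    intro t
    rw [ha]
    exact h.gAk (2 * n') t
  have hnn : n * (2 * n') = n' * (2 * n) := by ring
  -- invariance of the set of parameters
  have hB : B' ^ (2 * n) ≠ 0 := pow_ne_zero _ h'.B0
  have hfwd : ∀ t, γ t ∈ range δ' → γ (a * t) ∈ range δ' := by
    rintro t ⟨s, hs⟩
    refine ⟨(B' ^ (2 * n))⁻¹ * s, ?_⟩
    have e1 := h'.dBk (2 * n) ((B' ^ (2 * n))⁻¹ * s)
    rw [mul_inv_cancel_left₀ hB] at e1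
    have e2 := MD.iter_symm (hen c b hb) (n' * (2 * n)) 0 (δ' ((B' ^ (2 * n))⁻¹ * s))
    rw [zero_add, e1, hs, ← hnn, hsc] at e2
    exact e2.symm
  have hbwd : ∀ t, γ t ∈ range δ' → γ (a⁻¹ * t) ∈ range δ' := by
    rintro t ⟨s, hs⟩
    refine ⟨B' ^ (2 * n) * s, ?_⟩
    have e1 := hsc (a⁻¹ * t)
    rw [mul_inv_cancel_left₀ ha0.ne'] at e1
    have e2 := MD.symm_iter (hen c b hb) (n * (2 * n')) 0 (γ (a⁻¹ * t))
    rw [zero_add, e1, ← hs, hnn, h'.dBk] at e2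
    exact e2
  have hfk : ∀ k : ℕ, γ (a ^ k * t₀) ∈ range δ' := by
    intro k
    induction k with
    | zero => simpa using hz
    | succ k ih =>
      have := hfwd _ ih
      rwa [← mul_assoc, ← pow_succ'] at this
  have hbk : ∀ k : ℕ, γ (a⁻¹ ^ k * t₀) ∈ range δ' := by
    intro k
    induction k with
    | zero => simpa using hz
    | succ k ih =>
      have := hbwd _ ih
      rwa [← mul_assoc, ← pow_succ'] at this
  obtain ⟨i, hi⟩ := pow_small a (σ * t₀) (σ * t₁) ha0 ha1 ht₁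
  obtain ⟨j, hj⟩ := pow_small a (σ * t₁) (σ * t₀) ha0 ha1 ht₀
  obtain ⟨s1, hs1⟩ := hfk i
  obtain ⟨s2, hs2⟩ := hbk j
  have hi' : σ * (a ^ i * t₀) < σ * t₁ := by
    have : σ * (a ^ i * t₀) = a ^ i * (σ * t₀) := by ring
    rw [this]
    exact hi
  have hj' : σ * t₁ < σ * (a⁻¹ ^ j * t₀) := by
    have e : σ * (a⁻¹ ^ j * t₀) = (a ^ j)⁻¹ * (σ * t₀) := by rw [inv_pow]; ring
    rw [e, inv_mul_eq_div, lt_div_iff₀ (by positivity)]
    linarith
  have hpos : 0 < σ * (a ^ i * t₀) := by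
    have : σ * (a ^ i * t₀) = a ^ i * (σ * t₀) := by ring
    rw [this]
    positivity
  have hα : ContDiff ℝ 1 (fun t : ℝ => γ (σ * t)) := h.g1.comp (contDiff_const.mul contDiff_id)
  have hβ : ContDiff ℝ 1 (fun τ : ℝ => δ' (s1 + τ * (s2 - s1))) :=
    h'.d1.comp (contDiff_const.add (contDiff_id.mul contDiff_const))
  refine no_loop c b hb hb1 (fun t : ℝ => γ (σ * t)) (fun τ : ℝ => δ' (s1 + τ * (s2 - s1))) hα hβ
    (a₁ := σ * (a ^ i * t₀)) (b₁ := σ * (a⁻¹ ^ j * t₀)) (c₁ := 0) (d₁ := 1) (t₁ := σ * t₁)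
    zero_le_one ?_ ?_ ⟨hi', hj'⟩ ?_ ?_ ?_ ?_ ?_
  · show γ (σ * (σ * (a ^ i * t₀))) = δ' (s1 + 0 * (s2 - s1))
    rw [← mul_assoc σ σ, hss, one_mul, zero_mul, add_zero]
    exact hs1.symm
  · show γ (σ * (σ * (a⁻¹ ^ j * t₀))) = δ' (s1 + 1 * (s2 - s1))
    rw [← mul_assoc σ σ, hss, one_mul, one_mul, add_sub_cancel]
    exact hs2.symm
  · intro t _ t' _ he
    have h1 := h.g3 he
    have h2 : σ * (σ * t) = σ * (σ * t') := by rw [h1]
    rwa [← mul_assoc, ← mul_assoc, hss, one_mul, one_mul] at h2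
  · have hd : HasDerivAt γ (deriv γ (σ * (σ * t₁))) (σ * (σ * t₁)) :=
      ((h.g1.differentiable (by norm_num)).differentiableAt).hasDerivAt
    have hl : HasDerivAt (fun t : ℝ => σ * t) σ (σ * t₁) := by
      simpa using (hasDerivAt_id (σ * t₁)).const_mul σ
    have h1 := hd.scomp (σ * t₁) hl
    have h2 : deriv (fun t : ℝ => γ (σ * t)) (σ * t₁) = σ • deriv γ (σ * (σ * t₁)) := h1.deriv
    rw [h2]
    refine smul_ne_zero ?_ (h.g2 _)
    rintro rfl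
    norm_num at hss
  · intro s _ he
    apply hn₁
    have e : σ * (σ * t₁) = t₁ := by rw [← mul_assoc, hss, one_mul]
    have he' : δ' (s1 + s * (s2 - s1)) = γ (σ * (σ * t₁)) := he
    rw [e] at he'
    exact ⟨_, he'⟩
  · intro t ht
    apply hK
    rw [← mul_assoc, hss, one_mul]
    exact hpos.trans_le ht.1
  · intro s _
    exact h'.dK _

end MH
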