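import Pool.Agent.Lib.MP_904526_H.NoLoop
import Pool.Agent.Lib.MP_904526_an.Z

/-!
# Homoclinic points on bounded branches
-/

set_option autoImplicit false

open Set Filter Topology MeasureTheory

namespace MH

open MD (E hen KM KK wg wt)

/-- Two curves through `x` with different directions and bounded backward orbits meet only at `x`. -/
theorem hom_point (c b : ℝ) (hb : b ≠ 0) (hb1 : |b| < 1) (x : E) (γ δ : ℝ → E)
    (hγ : ContDiff ℝ 1 γ) (hγ' : ∀ t, deriv γ t ≠ 0) (hγi : Function.Injective γ)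
    (hδ : ContDiff ℝ 1 δ) (hδi : Function.Injective δ) (h0 : γ 0 = x) (h0' : δ 0 = x)
    (S U : E) (hwg : wg S U ≠ 0)
    (hlγ : ∀ η : ℝ, 0 < η → ∃ r : ℝ, 0 < r ∧ ∀ t : ℝ, |t| ≤ r → ‖γ t - x - t • S‖ ≤ η * |t|)
    (hlδ : ∀ η : ℝ, 0 < η → ∃ r : ℝ, 0 < r ∧ ∀ t : ℝ, |t| ≤ r → ‖δ t - x - t • U‖ ≤ η * |t|)
    (t₀ s₀ : ℝ) (ht₀ : t₀ ≠ 0) (he : γ t₀ = δ s₀)
    (hKγ : ∀ τ ∈ Icc (0 : ℝ) 1, γ (τ * t₀) ∈ KM c b hb)
    (hKδ : ∀ s, δ s ∈ KM c b hb) : False := by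
  have hs₀ : s₀ ≠ 0 := by
    intro h
    apply ht₀
    apply hγi
    rw [he, h, h0', h0]
  obtain ⟨ω, hω⟩ : ∃ ω : ℝ, ω = |wg S U| := ⟨_, rfl⟩
  have hω0 : 0 < ω := by rw [hω]; exact abs_pos.2 hwg
  obtain ⟨N, hN⟩ : ∃ N : ℝ, N = ‖S‖ + ‖U‖ + 1 := ⟨_, rfl⟩
  have hN0 : 0 < N := by rw [hN]; positivity
  obtain ⟨r₁, hr₁, hg1⟩ := hlγ (ω / (8 * N)) (by positivity)
  obtain ⟨r₂, hr₂, hd1⟩ := hlδ (ω / (8 * N)) (by positivity)
  -- small parameters never coincide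
  have hsmall : ∀ t s : ℝ, t ≠ 0 → |t| ≤ r₁ → |s| ≤ r₂ → γ t ≠ δ s := by
    intro t s ht htr hsr hts
    have e1 := hg1 t htr
    have e2 := hd1 s hsr
    have e3 : ‖t • S - s • U‖ ≤ ω / (8 * N) * (|t| + |s|) := by
      have e4 : t • S - s • U = (δ s - x - s • U) - (γ t - x - t • S) := by
        rw [hts]
        abel
      rw [e4]
      refine (norm_sub_le _ _).trans ?_
      rw [mul_add]
      linarith
    have e5 : |t| * ω ≤ 2 * N * (ω / (8 * N) * (|t| + |s|)) := by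
      have e6 : wg (t • S - s • U) U = t * wg S U := by
        simp only [wg, Prod.fst_sub, Prod.snd_sub, Prod.smul_fst, Prod.smul_snd, smul_eq_mul]
        ring
      have e7 := MD.wg_le (t • S - s • U) U
      rw [e6, abs_mul, ← hω] at e7
      have e8 : ‖U‖ ≤ N := by rw [hN]; linarith [norm_nonneg S]
      have e9 : 0 ≤ ω / (8 * N) * (|t| + |s|) := by positivity
      calc |t| * ω ≤ 2 * ‖t • S - s • U‖ * ‖U‖ := e7
        _ ≤ 2 * (ω / (8 * N) * (|t| + |s|)) * N := by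
          gcongr
        _ = 2 * N * (ω / (8 * N) * (|t| + |s|)) := by ring
    have e5' : |s| * ω ≤ 2 * N * (ω / (8 * N) * (|t| + |s|)) := by
      have e6 : wg (t • S - s • U) S = s * wg S U := by
        simp only [wg, Prod.fst_sub, Prod.snd_sub, Prod.smul_fst, Prod.smul_snd, smul_eq_mul]
        ring
      have e7 := MD.wg_le (t • S - s • U) S
      rw [e6, abs_mul, ← hω] at e7
      have e8 : ‖S‖ ≤ N := by rw [hN]; linarith [norm_nonneg U]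
      calc |s| * ω ≤ 2 * ‖t • S - s • U‖ * ‖S‖ := e7
        _ ≤ 2 * (ω / (8 * N) * (|t| + |s|)) * N := by
          gcongr
        _ = 2 * N * (ω / (8 * N) * (|t| + |s|)) := by ring
    have e10 : 2 * N * (ω / (8 * N) * (|t| + |s|)) = ω / 4 * (|t| + |s|) := by
      field_simp
      ring
    rw [e10] at e5 e5'
    have ht0 : 0 < |t| := abs_pos.2 ht
    have hs0 : 0 ≤ |s| := abs_nonneg s
    nlinarith
  -- points of the δ arc with parameter at least r₂ are away from x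
  have hδc : Continuous δ := hδ.continuous
  have hγc : Continuous γ := hγ.continuous
  obtain ⟨ρ, hρ, hfar⟩ : ∃ ρ : ℝ, 0 < ρ ∧ ∀ s : ℝ, s ∈ uIcc 0 s₀ → r₂ ≤ |s| → ρ ≤ ‖δ s - x‖ := by
    have hc : IsCompact (δ '' (uIcc 0 s₀ ∩ {s : ℝ | r₂ ≤ |s|})) := by
      refine (isCompact_uIcc.inter_right ?_).image hδc
      exact isClosed_le continuous_const continuous_abs
    have hx : x ∉ δ '' (uIcc 0 s₀ ∩ {s : ℝ | r₂ ≤ |s|}) := by
      rintro ⟨s, ⟨-, hs⟩, hsx⟩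
      have h1 : s = 0 := hδi (hsx.trans h0'.symm)
      have hs' : r₂ ≤ |s| := hs
      rw [h1, abs_zero] at hs'
      linarith
    obtain ⟨ρ, hρ, h4⟩ := Metric.mem_nhds_iff.1 (hc.isClosed.isOpen_compl.mem_nhds hx)
    refine ⟨ρ, hρ, fun s hs hsr => ?_⟩
    by_contra hlt
    rw [not_le] at hlt
    exact h4 (show δ s ∈ Metric.ball x ρ by rw [Metric.mem_ball, dist_eq_norm]; exact hlt)
      ⟨s, ⟨hs, hsr⟩, rfl⟩
  -- choice of the parameter t₁ in (0,1)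
  obtain ⟨τ, hτ0, hτ1, hτr, hτρ⟩ : ∃ τ : ℝ, 0 < τ ∧ τ < 1 ∧ |τ * t₀| ≤ r₁ ∧ ‖γ (τ * t₀) - x‖ < ρ := by
    have hc : Continuous fun τ : ℝ => γ (τ * t₀) := hγc.comp (continuous_id.mul continuous_const)
    have h1 : ∀ᶠ τ : ℝ in 𝓝 0, ‖γ (τ * t₀) - x‖ < ρ := by
      have h2 : Tendsto (fun τ : ℝ => ‖γ (τ * t₀) - x‖) (𝓝 0) (𝓝 ‖γ (0 * t₀) - x‖) :=
        ((hc.sub continuous_const).norm).tendsto 0
      rw [zero_mul, h0, sub_self, norm_zero] at h2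
      exact h2.eventually (gt_mem_nhds hρ)
    have h3 : ∀ᶠ τ : ℝ in 𝓝 0, |τ * t₀| < r₁ := by
      have h2 : Tendsto (fun τ : ℝ => |τ * t₀|) (𝓝 0) (𝓝 |0 * t₀|) :=
        (continuous_abs.comp (continuous_id.mul continuous_const)).tendsto 0
      rw [zero_mul, abs_zero] at h2
      exact h2.eventually (gt_mem_nhds hr₁)
    have h4 : ∀ᶠ τ : ℝ in 𝓝[>] 0, 0 < τ ∧ τ < 1 ∧ |τ * t₀| ≤ r₁ ∧ ‖γ (τ * t₀) - x‖ < ρ := by
      filter_upwards [h1.filter_mono nhdsWithin_le_nhds, h3.filter_mono nhdsWithin_le_nhds,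
        (gt_mem_nhds (zero_lt_one : (0 : ℝ) < 1)).filter_mono nhdsWithin_le_nhds,
        self_mem_nhdsWithin] with τ a1 a2 a3 a4
      exact ⟨a4, a3, a2.le, a1⟩
    exact h4.exists
  have hα1 : ContDiff ℝ 1 (fun τ : ℝ => γ (τ * t₀)) := hγ.comp (contDiff_id.mul contDiff_const)
  have hβ1 : ContDiff ℝ 1 (fun τ : ℝ => δ (τ * s₀)) := hδ.comp (contDiff_id.mul contDiff_const)
  refine no_loop c b hb hb1 (fun τ => γ (τ * t₀)) (fun τ => δ (τ * s₀)) hα1 hβ1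
    (a₁ := 0) (b₁ := 1) (c₁ := 0) (d₁ := 1) (t₁ := τ) zero_le_one ?_ ?_ ⟨hτ0, hτ1⟩ ?_ ?_ ?_ hKγ
    (fun s _ => hKδ _)
  · show γ (0 * t₀) = δ (0 * s₀)
    rw [zero_mul, zero_mul, h0, h0']
  · show γ (1 * t₀) = δ (1 * s₀)
    rw [one_mul, one_mul, he]
  · intro a _ a' _ haa
    exact mul_right_cancel₀ ht₀ (hγi haa)
  · have hd : HasDerivAt (fun τ : ℝ => γ (τ * t₀)) (t₀ • deriv γ (τ * t₀)) τ := by
      have h1 : HasDerivAt γ (deriv γ (τ * t₀)) (τ * t₀) :=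
        ((hγ.differentiable (by norm_num)).differentiableAt).hasDerivAt
      have h2 : HasDerivAt (fun τ : ℝ => τ * t₀) t₀ τ := by
        simpa using (hasDerivAt_id τ).mul_const t₀
      exact h1.scomp τ h2
    rw [hd.deriv]
    exact smul_ne_zero ht₀ (hγ' _)
  · intro s hs hse
    have hse' : δ (s * s₀) = γ (τ * t₀) := hse
    have hmem : s * s₀ ∈ uIcc 0 s₀ := by
      rcases le_total 0 s₀ with h | h
      · rw [uIcc_of_le h]
        exact ⟨mul_nonneg hs.1 h, by nlinarith [hs.2]⟩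
      · rw [uIcc_of_ge h]
        exact ⟨by nlinarith [hs.2], mul_nonpos_of_nonneg_of_nonpos hs.1 h⟩
    have hlt : |s * s₀| < r₂ := by
      by_contra hge
      rw [not_lt] at hge
      have := hfar _ hmem hge
      rw [hse'] at this
      linarith
    exact hsmall (τ * t₀) (s * s₀) (mul_ne_zero hτ0.ne' ht₀) hτr hlt.le hse'.symm

end MH
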