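import Pool.Agent.Lib.MP_904526_H.Orb
import Pool.Agent.Lib.MP_904526_H.Cpx

/-!
# The stable and the unstable curve of a periodic saddle
-/

set_option autoImplicit false

open Set Filter Topology MeasureTheory

namespace MH

open MD (E hen KM KK wg wt LimExp coc uu Sys leaf Sd Dh Lh Ph Qh LeafAt)

/-- a curve which is scaled along the orbit -/
theorem scale_iter (g : E ≃ₜ E) (γ : E → ℝ → E) (n : ℕ) (p : E)
    (h : ∀ i < n, ∃ m : ℝ, m ≠ 0 ∧ ∀ t, g (γ (g^[i] p) t) = γ (g (g^[i] p)) (m * t)) :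
    ∃ A : ℝ, A ≠ 0 ∧ ∀ t, g^[n] (γ p t) = γ (g^[n] p) (A * t) := by
  induction n with
  | zero => exact ⟨1, one_ne_zero, fun t => by simp⟩
  | succ n ih =>
    obtain ⟨A, hA, hAt⟩ := ih fun i hi => h i (by omega)
    obtain ⟨m, hm, hmt⟩ := h n (by omega)
    refine ⟨m * A, mul_ne_zero hm hA, fun t => ?_⟩
    rw [Function.iterate_succ_apply', Function.iterate_succ_apply', hAt, hmt]
    congr 1
    ring

/-- a curve of exponentially attracted points is scaled by a factor less than one -/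
theorem scale_lt (g : E ≃ₜ E) (γ : ℝ → E) (n : ℕ) (hn : 1 ≤ n) (p : E) (hp : g^[n] p = p) (A α : ℝ)
    (hα : 0 < α) (hA0 : A ≠ 0) (hA : ∀ t, g^[n] (γ t) = γ (A * t)) (hi : Function.Injective γ)
    (h0 : γ 0 = p) (r C : ℝ) (hr : 0 < r) (hC : 0 ≤ C)
    (hnear : ∀ t : ℝ, |t| ≤ r → ∀ k : ℕ, ‖g^[k] (γ t) - g^[k] p‖ ≤ C * |t| * wt α k) : |A| < 1 := by
  by_contra hlt
  rw [not_lt] at hlt
  have hit : ∀ (k : ℕ) (t : ℝ), g^[n * k] (γ t) = γ (A ^ k * t) ∧ g^[n * k] p = p := by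
    intro k
    induction k with
    | zero => intro t; exact ⟨by simp, rfl⟩
    | succ k ih =>
      intro t
      rw [Nat.mul_succ, add_comm, Function.iterate_add_apply, Function.iterate_add_apply, (ih t).1,
        (ih t).2, hA, hp]
      refine ⟨?_, rfl⟩
      congr 1
      ring
  have hb : ∀ k : ℕ, ‖γ r - p‖ ≤ C * r * wt α (n * k) := by
    intro k
    have hAk : A ^ k ≠ 0 := pow_ne_zero k hA0
    have h1 : (1 : ℝ) ≤ |A ^ k| := by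
      rw [abs_pow]
      exact one_le_pow₀ hlt
    have h2 : |r / A ^ k| ≤ r := by
      rw [abs_div, abs_of_pos hr, div_le_iff₀ (by linarith)]
      nlinarith
    have h3 := hnear (r / A ^ k) h2 (n * k)
    rw [(hit k _).1, (hit k r).2, mul_div_cancel₀ _ hAk] at h3
    have h4 := (MD.wt_pos α (n * k)).le
    calc ‖γ r - p‖ ≤ C * |r / A ^ k| * wt α (n * k) := h3
      _ ≤ C * r * wt α (n * k) := by gcongr
  have hlim : Tendsto (fun k : ℕ => C * r * wt α (n * k)) atTop (𝓝 0) := by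
    have h3 : Tendsto (fun k : ℕ => n * k) atTop atTop := tendsto_id.const_mul_atTop' hn
    have h4 := ((MD.wt_tendsto hα).comp h3).const_mul (C * r)
    rw [mul_zero] at h4
    exact h4
  have h5 : ‖γ r - p‖ ≤ 0 := ge_of_tendsto hlim (Eventually.of_forall hb)
  have h6 : γ r = γ 0 := by
    rw [h0]
    exact sub_eq_zero.1 (norm_le_zero_iff.1 h5)
  exact hr.ne' (hi h6)

/-- the stable and the unstable curve of a periodic point with an unstable eigenvalue -/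
structure Saddle (c b : ℝ) (hb : b ≠ 0) (n : ℕ) (p : E) (γ δ : ℝ → E) (S U : E) (A B : ℝ)
    (ψ φ : ℂ → ℂ × ℂ) : Prop where
  g1 : ContDiff ℝ 1 γ
  g2 : ∀ t, deriv γ t ≠ 0
  g3 : Function.Injective γ
  g4 : γ 0 = p
  g5 : ∀ y, y ∈ range γ ↔ ∃ κ : ℝ, 0 < κ ∧ ∃ C : ℝ, ∀ k : ℕ,
    ‖(hen c b hb)^[k] y - (hen c b hb)^[k] p‖ ≤ C * wt κ k
  d1 : ContDiff ℝ 1 δ
  d2 : ∀ t, deriv δ t ≠ 0
  d3 : Function.Injective δ
  d4 : δ 0 = p
  d5 : ∀ y, y ∈ range δ ↔ ∃ κ : ℝ, 0 < κ ∧ ∃ C : ℝ, ∀ k : ℕ,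
    ‖(hen c b hb).symm^[k] y - (hen c b hb).symm^[k] p‖ ≤ C * wt κ k
  dK : ∀ s, δ s ∈ KM c b hb
  wg : wg S U ≠ 0
  lg : ∀ η : ℝ, 0 < η → ∃ r : ℝ, 0 < r ∧ ∀ t : ℝ, |t| ≤ r → ‖γ t - p - t • S‖ ≤ η * |t|
  ld : ∀ η : ℝ, 0 < η → ∃ r : ℝ, 0 < r ∧ ∀ t : ℝ, |t| ≤ r → ‖δ t - p - t • U‖ ≤ η * |t|
  side : ∀ σ : ℝ, (σ = 1 ∨ σ = -1) → Bornology.IsBounded (γ '' {t : ℝ | 0 < σ * t}) →
    ∀ t : ℝ, 0 < σ * t → γ t ∈ KM c b hb
  A0 : A ≠ 0
  A1 : |A| < 1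
  gA : ∀ t, (hen c b hb)^[n] (γ t) = γ (A * t)
  B0 : B ≠ 0
  B1 : |B| < 1
  dB : ∀ t, (hen c b hb).symm^[n] (δ t) = δ (B * t)
  ψd : Differentiable ℂ ψ
  ψr : ∀ t : ℝ, ψ (t : ℂ) = ME.cx (γ t)
  φd : Differentiable ℂ φ
  φr : ∀ t : ℝ, φ (t : ℂ) = ME.cx (δ t)
  lf : γ = leaf (Dh b) (Lh b) (Ph b) (hen c b hb) p

theorem symm_fix (f : E ≃ₜ E) (n : ℕ) (p : E) (hp : f^[n] p = p) : f.symm^[n] p = p := by
  have := MD.symm_iter f n 0 p
  rw [zero_add, hp] at this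
  exact this

/-- the backward orbit of a periodic point runs through the forward orbit -/
theorem symm_orb (f : E ≃ₜ E) (n : ℕ) (p : E) (hp : f^[n] p = p) (i : ℕ) (hi : i < n) :
    ∃ j < n, f.symm^[i] p = f^[j] p := by
  rcases Nat.eq_zero_or_pos i with h0 | h0
  · exact ⟨0, by omega, by rw [h0]; rfl⟩
  · refine ⟨n - i, by omega, ?_⟩
    have h1 : f^[i + (n - i)] p = p := by
      rw [show i + (n - i) = n by omega]
      exact hp
    have h2 := MD.symm_iter f i 0 (f^[n - i] p)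
    rw [zero_add, ← Function.iterate_add_apply, h1] at h2
    exact h2

theorem leaves (c b : ℝ) (hb0 : b ≠ 0) (hb1 : |b| < 1) (n : ℕ) (hn : 1 ≤ n) (p v : E) (m : ℝ)
    (hp : (hen c b hb0)^[n] p = p) (hv : coc (Dh b) (hen c b hb0) n p v = m • v) (hv0 : v ≠ 0)
    (hm : 1 < |m|) : ∃ (γ δ : ℝ → E) (S U : E) (A B : ℝ) (ψ φ : ℂ → ℂ × ℂ),
      Saddle c b hb0 n p γ δ S U A B ψ φ := by
  obtain ⟨f, hf⟩ : ∃ f : E ≃ₜ E, f = hen c b hb0 := ⟨_, rfl⟩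
  rw [← hf] at hp hv
  obtain ⟨μ, hμd⟩ : ∃ μ : Measure E, μ = orb f n p := ⟨_, rfl⟩
  have hμp : IsProbabilityMeasure μ := by rw [hμd]; exact orb_prob f n hn p
  have hfe : Ergodic f μ := by rw [hμd]; exact orb_erg f n p hp
  have hfp : MeasurePreserving f μ μ := hfe.toMeasurePreserving
  have hse : Ergodic f.symm μ := MD.ergodic_symm f μ hfe
  have hsp : MeasurePreserving f.symm μ μ := hse.toMeasurePreserving
  obtain ⟨M, h⟩ := MD.hen_sys c b hb0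
  obtain ⟨M', h'⟩ := MD.hen_sys' c b hb0
  rw [← hf] at h h'
  have hfm : MeasurePreserving (MD.henon c b) μ μ := by
    have e : (f : E → E) = MD.henon c b := by rw [hf]; rfl
    rw [← e]
    exact hfp
  have hK : μ (KK c b hb0)ᶜ = 0 := MD.kk_ae c b hb0 hb1 μ hfm
  have habs : 0 < |b| := abs_pos.mpr hb0
  have hlog : Real.log |b| < 0 := Real.log_neg habs hb1
  obtain ⟨Λ, hΛ0, hΛ⟩ := top_pos h n hn p v m hp hv hv0 hm (by rw [← hμd]; exact hK)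
  rw [← hμd] at hΛ
  have hΛ' := MD.limExp_symm h h' μ hfp hK Λ hΛ
  have hJ' : Real.log (1 / |b|) = - Real.log |b| := by
    rw [one_div, Real.log_inv]
  have hε : 0 < Λ / 10 := by linarith
  have hE := MD.leaf_ae h μ hfe hK Λ hΛ (Λ / 10) hε (by linarith) (by linarith)
  have hE' := MD.leaf_ae h' μ hse hK (Λ - Real.log |b|) hΛ' (Λ / 10) hε
    (by rw [hJ']; linarith) (by rw [hJ']; linarith)
  have hT := MD.tame_ae h μ hfe hK Λ hΛ (Λ / 10) hε (by linarith) (by linarith)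
  have hT' := MD.tame_ae h' μ hse hK (Λ - Real.log |b|) hΛ' (Λ / 10) hε
    (by rw [hJ']; linarith) (by rw [hJ']; linarith)
  have hF := MD.leaf_full h μ hfe hK Λ hΛ (Λ / 10) hε (by linarith) (by linarith) hΛ0
  have hF' := MD.leaf_full h' μ hse hK (Λ - Real.log |b|) hΛ' (Λ / 10) hε
    (by rw [hJ']; linarith) (by rw [hJ']; linarith) (by linarith)
  have hmeas := MD.leaf_meas h μ hfe hK Λ hΛ (Λ / 10) hε (by linarith) (by linarith)
  have hSm := MD.sd_meas h μ hfe hK Λ hΛ (by linarith)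
  have hUm := MD.sd_meas h' μ hse hK (Λ - Real.log |b|) hΛ' (by rw [hJ']; linarith)
  have hSa := MD.sd_ae h μ hfe hK Λ hΛ (by linarith) (by linarith)
  have hUa := MD.sd_ae h' μ hse hK (Λ - Real.log |b|) hΛ' (by rw [hJ']; linarith)
    (by rw [hJ']; linarith)
  have hside := MD.bdd_side f μ hfp (leaf (Dh b) (Lh b) (Ph b) f) hmeas
    (hE.mono fun x hx => hx.cont) (hE.mono fun x hx => hx.equi) (KM c b hb0)
    (fun y hy => MD.km_of_freq c b hb0 hb1 y (by rw [← hf]; exact hy))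
  have hwg := MD.transv h h' μ hfp (Sd (Dh b) f)
    (Sd (fun y => Lh b (f.symm y)) f.symm) hSm hUm (hSa.mono fun x hx => hx.1)
    (hUa.mono fun x hx => hx.1)
    (hSa.mono fun x hx => by obtain ⟨m, -, hm⟩ := hx.2.2; exact ⟨m, hm⟩) (Λ / 2)
    (by linarith)
    (hSa.mono fun x hx => by
      obtain ⟨C, hC⟩ := hx.2.1 (Λ - Real.log |b| - Λ / 2) (by linarith)
      refine ⟨C, fun n => ?_⟩
      have := hC n
      rwa [show Λ - Real.log |b| - (Λ - Real.log |b| - Λ / 2) = Λ / 2 by ring] at this)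
    (hUa.mono fun x hx => by
      obtain ⟨C, hC⟩ := hx.2.1 (Λ / 2) (by linarith)
      refine ⟨C, fun n => ?_⟩
      have := hC n
      rwa [hJ', show Λ - Real.log |b| - -Real.log |b| - Λ / 2 = Λ / 2 by ring] at this)
  have hKae : ∀ᵐ x ∂μ, x ∈ KK c b hb0 := hK
  obtain ⟨γs, hγs⟩ : ∃ γs, γs = leaf (Dh b) (Lh b) (Ph b) f := ⟨_, rfl⟩
  obtain ⟨γu, hγu⟩ : ∃ γu, γu = leaf (fun y => Lh b (f.symm y)) (fun y => Dh b (f.symm y)) Qh f.symm :=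
    ⟨_, rfl⟩
  obtain ⟨S, hS⟩ : ∃ S, S = Sd (Dh b) f := ⟨_, rfl⟩
  obtain ⟨U, hU⟩ : ∃ U, U = Sd (fun y => Lh b (f.symm y)) f.symm := ⟨_, rfl⟩
  rw [← hγs, ← hS] at hE
  rw [← hγu, ← hU] at hE'
  rw [← hγs] at hF hside
  rw [← hγu] at hF'
  rw [← hS, ← hU] at hwg
  rw [hμd, orb_ae] at hE hE' hT hT' hF hF' hside hwg hKae
  have hx := hE 0 hn
  have hx' := hE' 0 hn
  have hside0 := hside 0 hn
  have hwg0 := hwg 0 hn
  have hF0 := hF 0 hn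
  have hF0' := hF' 0 hn
  have hK0 := hKae 0 hn
  obtain ⟨C1, hC1⟩ := hT 0 hn
  obtain ⟨C2, hC2⟩ := hT' 0 hn
  simp only [Function.iterate_zero, id_eq] at hx hx' hside0 hwg0 hF0 hF0' hK0 hC1 hC2
  obtain ⟨hc1, hc2⟩ := MD.leaf_c1 h p C1 _ _ hC1
  obtain ⟨hc1', hc2'⟩ := MD.leaf_c1 h' p C2 _ _ hC2
  rw [← hγs] at hc1 hc2
  rw [← hγu] at hc1' hc2'
  have hlin : ∀ (g : E ≃ₜ E) (γ : E → ℝ → E) (S : E → E) (α : ℝ), LeafAt g γ S α p →
      ∀ η : ℝ, 0 < η → ∃ r : ℝ, 0 < r ∧ ∀ t : ℝ, |t| ≤ r → ‖γ p t - p - t • S p‖ ≤ η * |t| := by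
    intro g γ S α hL η hη
    obtain ⟨A₀, hA₀, hA⟩ := hL.loc
    obtain ⟨r₀, hr₀, hr⟩ := hA A₀ le_rfl η hη
    refine ⟨r₀, hr₀, fun t ht => ?_⟩
    have h1 := (hr r₀ hr₀ le_rfl).lin t 0 ht (by rw [abs_zero]; exact hr₀.le)
    rwa [hL.zero, sub_zero] at h1
  obtain ⟨A, hA0, hA⟩ := scale_iter f γs n p fun i hi => (hE i hi).equi
  obtain ⟨B, hB0, hB⟩ := scale_iter f.symm γu n p fun i hi => by
    obtain ⟨j, hj, hij⟩ := symm_orb f n p hp i hi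
    rw [hij]
    exact (hE' j hj).equi
  have hps := symm_fix f n p hp
  rw [hp] at hA
  rw [hps] at hB
  have hnear : ∀ (g : E ≃ₜ E) (γ : E → ℝ → E) (S : E → E) (α : ℝ), LeafAt g γ S α p →
      ∃ r C : ℝ, 0 < r ∧ 0 ≤ C ∧ ∀ t : ℝ, |t| ≤ r → ∀ k : ℕ,
        ‖g^[k] (γ p t) - g^[k] p‖ ≤ C * |t| * wt α k := by
    intro g γ S α hL
    obtain ⟨A₀, hA₀, hA⟩ := hL.loc
    obtain ⟨r₀, hr₀, hr⟩ := hA A₀ le_rfl 1 one_pos
    exact ⟨r₀, A₀, hr₀, by linarith, (hr r₀ hr₀ le_rfl).near⟩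
  obtain ⟨r1, c1, hr1, hc1n, hn1⟩ := hnear f γs S _ hx
  obtain ⟨r2, c2, hr2, hc2n, hn2⟩ := hnear f.symm γu U _ hx'
  have hA1 : |A| < 1 := scale_lt f (γs p) n hn p hp A _ (by linarith) hA0 hA hx.inj hx.zero r1 c1
    hr1 hc1n hn1
  have hB1 : |B| < 1 := scale_lt f.symm (γu p) n hn p hps B _ (by rw [hJ']; linarith) hB0 hB hx'.inj
    hx'.zero r2 c2 hr2 hc2n hn2
  obtain ⟨ψ, hψd, hψr⟩ := cpx_curve hC1 (ME.PhC b) (ME.PhC_zero b) (ME.PhC_lip b) (ME.PhC_cx b)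
    (ME.PhC_diff b) p
  obtain ⟨φ, hφd, hφr⟩ := cpx_curve hC2 QhC QhC_zero QhC_lip QhC_cx QhC_diff p
  refine ⟨γs p, γu p, S p, U p, A, B, ψ, φ, ?_⟩
  refine ⟨hc1, hc2, hx.inj, hx.zero, ?_, hc1', hc2', hx'.inj, hx'.zero, ?_, ?_, hwg0,
    hlin f γs S _ hx, hlin f.symm γu U _ hx', hside0, hA0, hA1, ?_, hB0, hB1, ?_, hψd, ?_, hφd, ?_,
    by rw [hγs, hf]⟩
  · rw [← hf]; exact hF0
  · rw [← hf]; exact hF0'
  · intro t
    obtain ⟨Y, hY⟩ := (hx'.rng (γu p t)).1 ⟨t, rfl⟩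
    refine ⟨|Y| + (3 + |c|), fun n => ?_⟩
    rw [← hf]
    have h1 := hY n
    have h2 := (hK0 n).2
    rw [← hf] at h2
    have h3 : wt (Λ - Real.log |b| - Real.log (1 / |b|) - Λ / 10) n ≤ 1 := by
      unfold wt
      rw [Real.exp_le_one_iff, hJ']
      have : (0:ℝ) ≤ n := Nat.cast_nonneg n
      nlinarith
    have h4 := (MD.wt_pos (Λ - Real.log |b| - Real.log (1 / |b|) - Λ / 10) n).le
    have h5 : ‖f.symm^[n] (γu p t)‖ ≤ ‖f.symm^[n] (γu p t) - f.symm^[n] p‖ + ‖f.symm^[n] p‖ := by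
      have := norm_add_le (f.symm^[n] (γu p t) - f.symm^[n] p) (f.symm^[n] p)
      simpa using this
    have h6 : Y * wt (Λ - Real.log |b| - Real.log (1 / |b|) - Λ / 10) n ≤ |Y| := by
      have := le_abs_self Y
      have h7 := abs_nonneg Y
      nlinarith
    linarith
  · rw [← hf]; exact hA
  · rw [← hf]; exact hB
  · intro t
    rw [hψr, hγs]
    rfl
  · intro t
    rw [hφr, hγu]
    rfl

end MH
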