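import Mathlib

/-!
# Two different arcs with common ends enclose an open set

The winding number of the loop made of two C^1 arcs is locally constant, zero far away, and it jumps
across a point of one arc which is not on the other one.
-/

set_option autoImplicit false

open Set Filter Topology MeasureTheory Complex

namespace MH

/-- the logarithmic integral of an arc around `w` -/
noncomputable def J (α α' : ℝ → ℂ) (a b : ℝ) (w : ℂ) : ℂ := ∫ t in a..b, α' t / (α t - w)

section
variable {α α' : ℝ → ℂ}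

theorem J_int (hα : ∀ t, HasDerivAt α (α' t) t) (hc : Continuous α') {a b : ℝ} {w : ℂ}
    (hw : ∀ t ∈ uIcc a b, α t ≠ w) :
    IntervalIntegrable (fun t => α' t / (α t - w)) volume a b := by
  have hcα : Continuous α := continuous_iff_continuousAt.2 fun t => (hα t).continuousAt
  refine ContinuousOn.intervalIntegrable ?_
  exact hc.continuousOn.div (hcα.continuousOn.sub continuousOn_const)
    fun t ht => sub_ne_zero.2 (hw t ht)

theorem J_diff (hα : ∀ t, HasDerivAt α (α' t) t) (hc : Continuous α') {a b : ℝ} {w w' : ℂ}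
    (hw : ∀ t ∈ uIcc a b, ‖w' - w‖ < ‖α t - w‖) :
    J α α' a b w' - J α α' a b w =
      log ((α b - w') / (α b - w)) - log ((α a - w') / (α a - w)) := by
  have h0 : ∀ t ∈ uIcc a b, α t ≠ w := by
    intro t ht he
    have := hw t ht
    rw [he, sub_self, norm_zero] at this
    exact absurd this (not_lt.2 (norm_nonneg _))
  have h0' : ∀ t ∈ uIcc a b, α t ≠ w' := by
    intro t ht he
    have := hw t ht
    rw [he] at this
    exact lt_irrefl _ this
  unfold J
  rw [← intervalIntegral.integral_sub (J_int hα hc h0') (J_int hα hc h0)]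
  refine intervalIntegral.integral_eq_sub_of_hasDerivAt
    (f := fun t => log ((α t - w') / (α t - w))) ?_ ((J_int hα hc h0').sub (J_int hα hc h0))
  intro t ht
  have e1 : α t - w ≠ 0 := sub_ne_zero.2 (h0 t ht)
  have e2 : α t - w' ≠ 0 := sub_ne_zero.2 (h0' t ht)
  have hs : (α t - w') / (α t - w) ∈ slitPlane := by
    have e3 : (α t - w') / (α t - w) = 1 + (w - w') / (α t - w) := by
      field_simp
      ring
    rw [e3]
    refine mem_slitPlane_of_norm_lt_one ?_
    rw [norm_div, div_lt_one (norm_pos_iff.2 e1), norm_sub_rev]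
    exact hw t ht
  have hd : HasDerivAt (fun t => (α t - w') / (α t - w))
      ((α' t * (α t - w) - (α t - w') * α' t) / (α t - w) ^ 2) t :=
    ((hα t).sub_const w').div ((hα t).sub_const w) e1
  have h1 := hd.clog_real hs
  refine h1.congr_deriv ?_
  field_simp

theorem J_slit (hα : ∀ t, HasDerivAt α (α' t) t) (hc : Continuous α') {a b : ℝ} {w m : ℂ}
    (hm : ∀ t ∈ uIcc a b, m * (α t - w) ∈ slitPlane) :
    J α α' a b w = log (m * (α b - w)) - log (m * (α a - w)) := by
  have h1 : ∀ t ∈ uIcc a b, m * (α t - w) ≠ 0 := fun t ht => slitPlane_ne_zero (hm t ht)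
  have h0 : ∀ t ∈ uIcc a b, α t ≠ w := fun t ht => sub_ne_zero.1 (right_ne_zero_of_mul (h1 t ht))
  unfold J
  refine intervalIntegral.integral_eq_sub_of_hasDerivAt
    (f := fun t => log (m * (α t - w))) ?_ (J_int hα hc h0)
  intro t ht
  have e1 : α t - w ≠ 0 := right_ne_zero_of_mul (h1 t ht)
  have e2 : m ≠ 0 := left_ne_zero_of_mul (h1 t ht)
  have h2 := (((hα t).sub_const w).const_mul m).clog_real (hm t ht)
  refine h2.congr_deriv ?_
  field_simp

theorem J_add (hα : ∀ t, HasDerivAt α (α' t) t) (hc : Continuous α') {a b c : ℝ} {w : ℂ}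
    (h1 : ∀ t ∈ uIcc a b, α t ≠ w) (h2 : ∀ t ∈ uIcc b c, α t ≠ w) :
    J α α' a c w = J α α' a b w + J α α' b c w := by
  unfold J
  rw [intervalIntegral.integral_add_adjacent_intervals (J_int hα hc h1) (J_int hα hc h2)]

end

theorem log_mul_neg_pos {z : ℂ} (h : 0 < z.im) : log z - log (-z) = Real.pi * I := by
  have hz : z ≠ 0 := by
    intro he
    rw [he] at h
    simp at h
  have h1 : (-z).arg = z.arg - Real.pi := arg_neg_eq_arg_sub_pi_of_im_pos h
  rw [log, log, h1, norm_neg]
  push_cast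
  ring

theorem log_mul_neg_neg {z : ℂ} (h : z.im < 0) : log z - log (-z) = -(Real.pi * I) := by
  have h1 : (-z).arg = z.arg + Real.pi := arg_neg_eq_arg_add_pi_of_im_neg h
  rw [log, log, h1, norm_neg]
  push_cast
  ring

/-- the jump: near a simple point of one arc off the other one the loop integral cannot vanish -/
theorem jump {α α' β β' : ℝ → ℂ} (hα : ∀ t, HasDerivAt α (α' t) t) (hα' : Continuous α')
    (hβ : ∀ t, HasDerivAt β (β' t) t) (hβ' : Continuous β') {a b c d t₁ : ℝ}
    (h1 : α a = β c) (h2 : α b = β d) (hcd : c ≤ d) (ht : t₁ ∈ Ioo a b) (hinj : InjOn α (Icc a b))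
    (hne : α' t₁ ≠ 0) (hy : ∀ s ∈ Icc c d, β s ≠ α t₁)
    (hF : ∀ w : ℂ, w ∉ α '' Icc a b ∪ β '' Icc c d → J α α' a b w - J β β' c d w = 0) : False := by
  obtain ⟨y, hyd⟩ : ∃ y : ℂ, y = α t₁ := ⟨_, rfl⟩
  obtain ⟨u, hud⟩ : ∃ u : ℂ, u = α' t₁ := ⟨_, rfl⟩
  have hu : u ≠ 0 := by rw [hud]; exact hne
  have hu0 : 0 < ‖u‖ := norm_pos_iff.2 hu
  have hcα : Continuous α := continuous_iff_continuousAt.2 fun t => (hα t).continuousAt
  have hcβ : Continuous β := continuous_iff_continuousAt.2 fun t => (hβ t).continuousAt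
  obtain ⟨h, hh0, hha, hhb, hlin⟩ : ∃ h : ℝ, 0 < h ∧ a < t₁ - h ∧ t₁ + h < b ∧
      ∀ t : ℝ, t ∈ Icc (t₁ - h) (t₁ + h) → ‖α t - y - (t - t₁) * u‖ ≤ 1 / 4 * ‖u‖ * |t - t₁| := by
    have h3 := (hasDerivAt_iff_isLittleO.1 (hα t₁)).def (c := 1 / 4 * ‖u‖) (by positivity)
    obtain ⟨δ, hδ, h4⟩ := Metric.eventually_nhds_iff.1 h3
    refine ⟨min (δ / 2) (min ((t₁ - a) / 2) ((b - t₁) / 2)), ?_, ?_, ?_, ?_⟩
    · have := ht.1
      have := ht.2
      refine lt_min (by linarith) (lt_min (by linarith) (by linarith))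
    · have := min_le_right (δ / 2) (min ((t₁ - a) / 2) ((b - t₁) / 2))
      have := min_le_left ((t₁ - a) / 2) ((b - t₁) / 2)
      have := ht.1
      linarith
    · have := min_le_right (δ / 2) (min ((t₁ - a) / 2) ((b - t₁) / 2))
      have := min_le_right ((t₁ - a) / 2) ((b - t₁) / 2)
      have := ht.2
      linarith
    · intro t htt
      have h5 : |t - t₁| < δ := by
        have h6 := min_le_left (δ / 2) (min ((t₁ - a) / 2) ((b - t₁) / 2))
        rw [abs_lt]
        constructor <;> linarith [htt.1, htt.2]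
      have h7 := h4 (y := t) (by rw [Real.dist_eq]; exact h5)
      rw [hyd, hud]
      rw [hud] at h7
      simpa [Real.norm_eq_abs] using h7
  have hre : ∀ t : ℝ, t ∈ Icc (t₁ - h) (t₁ + h) →
      |((α t - y) / u).re - (t - t₁)| ≤ 1 / 4 * |t - t₁| := by
    intro t htt
    have e : (α t - y) / u - ((t - t₁ : ℝ) : ℂ) = (α t - y - (t - t₁) * u) / u := by
      push_cast
      field_simp
    have h3 : ‖(α t - y) / u - ((t - t₁ : ℝ) : ℂ)‖ ≤ 1 / 4 * |t - t₁| := by
      rw [e, norm_div, div_le_iff₀ hu0]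
      have := hlin t htt
      linarith
    have h4 := Complex.abs_re_le_norm ((α t - y) / u - ((t - t₁ : ℝ) : ℂ))
    rw [Complex.sub_re, Complex.ofReal_re] at h4
    exact h4.trans h3
  have hsl : ∀ σ : ℝ, (σ = 1 ∨ σ = -1) → ∀ ε : ℝ, 0 < ε → ∀ t : ℝ, t ∈ Icc (t₁ - h) (t₁ + h) →
      (σ * I / u) * (α t - (y + σ * ε * I * u)) ∈ slitPlane := by
    intro σ hσ ε hε t htt
    have hσσ : (σ : ℂ) * σ = 1 := by
      rcases hσ with h | h <;> rw [h] <;> norm_num
    have e : (σ * I / u) * (α t - (y + σ * ε * I * u)) = σ * (I * ((α t - y) / u)) + ε := by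
      have : (σ * I / u) * (α t - (y + σ * ε * I * u)) =
          σ * (I * ((α t - y) / u)) - (σ * σ) * (I * I) * ε * (u / u) := by ring
      rw [this, hσσ, I_mul_I, div_self hu]
      ring
    rw [e, mem_slitPlane_iff]
    have h3 := hre t htt
    by_cases hτ : t - t₁ = 0
    · left
      have h4 : t = t₁ := by linarith
      rw [h4, hyd, sub_self]
      simpa using hε
    · right
      have h5 : 0 < |t - t₁| := abs_pos.2 hτ
      have h6 : ((α t - y) / u).re ≠ 0 := by
        intro h7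
        rw [h7, zero_sub, abs_neg] at h3
        linarith
      have h8 : ((σ : ℂ) * (I * ((α t - y) / u)) + ε).im = σ * ((α t - y) / u).re := by
        simp
      rw [h8]
      refine mul_ne_zero ?_ h6
      rcases hσ with h | h <;> rw [h] <;> norm_num
  -- the far part
  have hK' : IsCompact (α '' (Icc a (t₁ - h) ∪ Icc (t₁ + h) b) ∪ β '' Icc c d) :=
    ((isCompact_Icc.union isCompact_Icc).image hcα).union (isCompact_Icc.image hcβ)
  have hyK : y ∉ α '' (Icc a (t₁ - h) ∪ Icc (t₁ + h) b) ∪ β '' Icc c d := by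
    rintro (⟨t, htt, he⟩ | ⟨s, hs, he⟩)
    · have hta : t ∈ Icc a b := by
        rcases htt with htt | htt
        · exact ⟨htt.1, by linarith [htt.2]⟩
        · exact ⟨by linarith [htt.1], htt.2⟩
      have h3 := hinj hta ⟨ht.1.le, ht.2.le⟩ (he.trans hyd)
      rcases htt with htt | htt
      · linarith [htt.2]
      · linarith [htt.1]
    · exact hy s hs (he.trans hyd)
  obtain ⟨ρ, hρ, hρK⟩ : ∃ ρ : ℝ, 0 < ρ ∧
      ∀ x ∈ α '' (Icc a (t₁ - h) ∪ Icc (t₁ + h) b) ∪ β '' Icc c d, ρ ≤ ‖x - y‖ := by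
    have h3 := hK'.isClosed.isOpen_compl.mem_nhds hyK
    obtain ⟨ρ, hρ, h4⟩ := Metric.mem_nhds_iff.1 h3
    refine ⟨ρ, hρ, fun x hx => ?_⟩
    by_contra hlt
    rw [not_le] at hlt
    exact h4 (show x ∈ Metric.ball y ρ by rw [Metric.mem_ball, dist_eq_norm]; exact hlt) hx
  -- the identity for small ε
  have hid : ∀ ε : ℝ, 0 < ε → 3 * (ε * ‖u‖) < ρ →
      (log ((I / u) * (α (t₁ + h) - (y + ε * I * u))) - log ((I / u) * (α (t₁ - h) - (y + ε * I * u)))) -
      (log ((-I / u) * (α (t₁ + h) - (y - ε * I * u))) - log ((-I / u) * (α (t₁ - h) - (y - ε * I * u)))) =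
      log ((α (t₁ + h) - (y + ε * I * u)) / (α (t₁ + h) - (y - ε * I * u))) -
      log ((α (t₁ - h) - (y + ε * I * u)) / (α (t₁ - h) - (y - ε * I * u))) := by
    intro ε hε hερ
    obtain ⟨wp, hwp⟩ : ∃ wp : ℂ, wp = y + ε * I * u := ⟨_, rfl⟩
    obtain ⟨wm, hwm⟩ : ∃ wm : ℂ, wm = y - ε * I * u := ⟨_, rfl⟩
    have hn : ‖(ε : ℂ) * I * u‖ = ε * ‖u‖ := by
      rw [norm_mul, norm_mul, norm_I, mul_one, Complex.norm_real, Real.norm_eq_abs, abs_of_pos hε]
    have hfar : ∀ x ∈ α '' (Icc a (t₁ - h) ∪ Icc (t₁ + h) b) ∪ β '' Icc c d,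
        ‖wp - wm‖ < ‖x - wm‖ ∧ x ≠ wp := by
      intro x hx
      have h3 := hρK x hx
      have e1 : wp - wm = (ε * I * u) + (ε * I * u) := by rw [hwp, hwm]; ring
      have e2 : x - y = (x - wm) - ε * I * u := by rw [hwm]; ring
      have e3 : x - y = (x - wp) + ε * I * u := by rw [hwp]; ring
      constructor
      · have h4 := norm_add_le ((ε : ℂ) * I * u) (ε * I * u)
        rw [← e1, hn] at h4
        have h5 := norm_sub_le (x - wm) ((ε : ℂ) * I * u)
        rw [← e2, hn] at h5
        linarith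
      · intro h6
        rw [e3, h6, sub_self, zero_add, hn] at h3
        have : 0 < ε * ‖u‖ := by positivity
        linarith
    have hplus : ∀ t ∈ Icc (t₁ - h) (t₁ + h), (I / u) * (α t - wp) ∈ slitPlane := by
      intro t htt
      have h3 := hsl 1 (Or.inl rfl) ε hε t htt
      rw [hwp]
      simpa using h3
    have hminus : ∀ t ∈ Icc (t₁ - h) (t₁ + h), (-I / u) * (α t - wm) ∈ slitPlane := by
      intro t htt
      have h3 := hsl (-1) (Or.inr rfl) ε hε t htt
      rw [hwm]
      have e : ((((-1 : ℝ) : ℂ)) * I / u) * (α t - (y + ((-1 : ℝ) : ℂ) * ε * I * u)) =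
          (-I / u) * (α t - (y - ε * I * u)) := by
        push_cast
        ring
      rw [← e]
      exact h3
    have hnp : ∀ t ∈ Icc a b, α t ≠ wp := by
      intro t htt
      by_cases hm : t ∈ Icc (t₁ - h) (t₁ + h)
      · exact sub_ne_zero.1 (right_ne_zero_of_mul (slitPlane_ne_zero (hplus t hm)))
      · refine (hfar (α t) (Or.inl ⟨t, ?_, rfl⟩)).2
        rw [mem_Icc, not_and_or, not_le, not_le] at hm
        rcases hm with hm | hm
        · exact Or.inl ⟨htt.1, hm.le⟩
        · exact Or.inr ⟨hm.le, htt.2⟩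
    have hnm : ∀ t ∈ Icc a b, α t ≠ wm := by
      intro t htt
      by_cases hm : t ∈ Icc (t₁ - h) (t₁ + h)
      · exact sub_ne_zero.1 (right_ne_zero_of_mul (slitPlane_ne_zero (hminus t hm)))
      · have h3 : α t ∈ α '' (Icc a (t₁ - h) ∪ Icc (t₁ + h) b) ∪ β '' Icc c d := by
          refine Or.inl ⟨t, ?_, rfl⟩
          rw [mem_Icc, not_and_or, not_le, not_le] at hm
          rcases hm with hm | hm
          · exact Or.inl ⟨htt.1, hm.le⟩
          · exact Or.inr ⟨hm.le, htt.2⟩
        intro he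
        have h4 := (hfar _ h3).1
        rw [he, sub_self, norm_zero] at h4
        exact absurd h4 (not_lt.2 (norm_nonneg _))
    have hβp : ∀ s ∈ Icc c d, β s ≠ wp := fun s hs => (hfar _ (Or.inr ⟨s, hs, rfl⟩)).2
    have hβm : ∀ s ∈ Icc c d, β s ≠ wm := by
      intro s hs he
      have h4 := (hfar _ (Or.inr ⟨s, hs, rfl⟩)).1
      rw [he, sub_self, norm_zero] at h4
      exact absurd h4 (not_lt.2 (norm_nonneg _))
    have hFp := hF wp (by
      rintro (⟨t, htt, he⟩ | ⟨s, hs, he⟩)
      · exact hnp t htt he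
      · exact hβp s hs he)
    have hFm := hF wm (by
      rintro (⟨t, htt, he⟩ | ⟨s, hs, he⟩)
      · exact hnm t htt he
      · exact hβm s hs he)
    have hab : a ≤ t₁ - h := hha.le
    have hmid : t₁ - h ≤ t₁ + h := by linarith
    have hbb : t₁ + h ≤ b := hhb.le
    have hsplit : ∀ w : ℂ, (∀ t ∈ Icc a b, α t ≠ w) →
        J α α' a b w = J α α' a (t₁ - h) w + J α α' (t₁ - h) (t₁ + h) w + J α α' (t₁ + h) b w := by
      intro w hw
      rw [J_add hα hα' (a := a) (b := t₁ + h) (c := b), J_add hα hα' (a := a) (b := t₁ - h) (c := t₁ + h)]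
      · intro t htt
        rw [uIcc_of_le hab] at htt
        exact hw t ⟨htt.1, by linarith [htt.2]⟩
      · intro t htt
        rw [uIcc_of_le hmid] at htt
        exact hw t ⟨by linarith [htt.1], by linarith [htt.2]⟩
      · intro t htt
        rw [uIcc_of_le (hab.trans hmid)] at htt
        exact hw t ⟨htt.1, by linarith [htt.2]⟩
      · intro t htt
        rw [uIcc_of_le hbb] at htt
        exact hw t ⟨by linarith [htt.1], htt.2⟩
    have hd1 := J_diff hα hα' (a := a) (b := t₁ - h) (w := wm) (w' := wp) (by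
      intro t htt
      rw [uIcc_of_le hab] at htt
      exact (hfar _ (Or.inl ⟨t, Or.inl htt, rfl⟩)).1)
    have hd2 := J_diff hα hα' (a := t₁ + h) (b := b) (w := wm) (w' := wp) (by
      intro t htt
      rw [uIcc_of_le hbb] at htt
      exact (hfar _ (Or.inl ⟨t, Or.inr htt, rfl⟩)).1)
    have hd3 := J_diff hβ hβ' (a := c) (b := d) (w := wm) (w' := wp) (by
      intro t htt
      rw [uIcc_of_le hcd] at htt
      exact (hfar _ (Or.inr ⟨t, htt, rfl⟩)).1)
    have hm1 := J_slit hα hα' (a := t₁ - h) (b := t₁ + h) (w := wp) (m := I / u) (by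
      intro t htt
      rw [uIcc_of_le hmid] at htt
      exact hplus t htt)
    have hm2 := J_slit hα hα' (a := t₁ - h) (b := t₁ + h) (w := wm) (m := -I / u) (by
      intro t htt
      rw [uIcc_of_le hmid] at htt
      exact hminus t htt)
    rw [← hwp, ← hwm, ← hm1, ← hm2]
    have hs1 := hsplit wp hnp
    have hs2 := hsplit wm hnm
    rw [← h1, ← h2] at hd3
    linear_combination hFp - hFm - hs1 + hs2 - hd1 - hd2 + hd3
  -- the limit
  have hzp : 0 < ((I / u) * (α (t₁ + h) - y)).im := by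
    have e : (I / u) * (α (t₁ + h) - y) = I * ((α (t₁ + h) - y) / u) := by ring
    rw [e, I_mul_im]
    have h3 := hre (t₁ + h) ⟨by linarith, le_rfl⟩
    have e2 : t₁ + h - t₁ = h := by ring
    rw [e2, abs_of_pos hh0, abs_le] at h3
    linarith [h3.1]
  have hzm : ((I / u) * (α (t₁ - h) - y)).im < 0 := by
    have e : (I / u) * (α (t₁ - h) - y) = I * ((α (t₁ - h) - y) / u) := by ring
    rw [e, I_mul_im]
    have h3 := hre (t₁ - h) ⟨le_rfl, by linarith⟩
    have e2 : t₁ - h - t₁ = -h := by ring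
    rw [e2, abs_neg, abs_of_pos hh0, abs_le] at h3
    linarith [h3.2]
  have hneg : ∀ x : ℂ, (-I / u) * x = -((I / u) * x) := fun x => by ring
  have hnp : α (t₁ + h) - y ≠ 0 := by
    intro he
    rw [he, mul_zero] at hzp
    simp at hzp
  have hnm : α (t₁ - h) - y ≠ 0 := by
    intro he
    rw [he, mul_zero] at hzm
    simp at hzm
  have hG : ContinuousAt (fun ε : ℝ =>
      (log ((I / u) * (α (t₁ + h) - (y + ε * I * u))) - log ((I / u) * (α (t₁ - h) - (y + ε * I * u)))) -
      (log ((-I / u) * (α (t₁ + h) - (y - ε * I * u))) - log ((-I / u) * (α (t₁ - h) - (y - ε * I * u)))) -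
      (log ((α (t₁ + h) - (y + ε * I * u)) / (α (t₁ + h) - (y - ε * I * u))) -
      log ((α (t₁ - h) - (y + ε * I * u)) / (α (t₁ - h) - (y - ε * I * u))))) 0 := by
    have hcp : ∀ x : ℂ, Continuous fun ε : ℝ => x - (y + ε * I * u) := fun x => by fun_prop
    have hcm : ∀ x : ℂ, Continuous fun ε : ℝ => x - (y - ε * I * u) := fun x => by fun_prop
    refine ((ContinuousAt.clog ?_ ?_).sub (ContinuousAt.clog ?_ ?_)).sub
      ((ContinuousAt.clog ?_ ?_).sub (ContinuousAt.clog ?_ ?_)) |>.sub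
      ((ContinuousAt.clog ?_ ?_).sub (ContinuousAt.clog ?_ ?_))
    · exact ((hcp _).const_mul _).continuousAt
    · rw [mem_slitPlane_iff]; right; simp only [ofReal_zero, zero_mul, add_zero]; exact hzp.ne'
    · exact ((hcp _).const_mul _).continuousAt
    · rw [mem_slitPlane_iff]; right; simp only [ofReal_zero, zero_mul, add_zero]; exact hzm.ne
    · exact ((hcm _).const_mul _).continuousAt
    · rw [mem_slitPlane_iff]; right; simp only [ofReal_zero, zero_mul, sub_zero]
      rw [hneg, neg_im]; exact (neg_neg_of_pos hzp).ne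
    · exact ((hcm _).const_mul _).continuousAt
    · rw [mem_slitPlane_iff]; right; simp only [ofReal_zero, zero_mul, sub_zero]
      rw [hneg, neg_im]; exact (neg_pos.2 hzm).ne'
    · refine (hcp _).continuousAt.div (hcm _).continuousAt ?_
      simpa using hnp
    · simp only [ofReal_zero, zero_mul, sub_zero, add_zero]
      rw [div_self hnp]; simp
    · refine (hcp _).continuousAt.div (hcm _).continuousAt ?_
      simpa using hnm
    · simp only [ofReal_zero, zero_mul, sub_zero, add_zero]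
      rw [div_self hnm]; simp
  have hG' := hG.tendsto.mono_left (nhdsWithin_le_nhds (s := Ioi (0 : ℝ)))
  have hzero : ∀ᶠ ε : ℝ in 𝓝[>] 0,
      (log ((I / u) * (α (t₁ + h) - (y + ε * I * u))) - log ((I / u) * (α (t₁ - h) - (y + ε * I * u)))) -
      (log ((-I / u) * (α (t₁ + h) - (y - ε * I * u))) - log ((-I / u) * (α (t₁ - h) - (y - ε * I * u)))) -
      (log ((α (t₁ + h) - (y + ε * I * u)) / (α (t₁ + h) - (y - ε * I * u))) -
      log ((α (t₁ - h) - (y + ε * I * u)) / (α (t₁ - h) - (y - ε * I * u)))) = 0 := by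
    have h3 : ∀ᶠ ε : ℝ in 𝓝[>] 0, ε < ρ / (3 * ‖u‖) :=
      (gt_mem_nhds (by positivity : (0 : ℝ) < ρ / (3 * ‖u‖))).filter_mono nhdsWithin_le_nhds
    filter_upwards [h3, self_mem_nhdsWithin] with ε h4 h5
    rw [sub_eq_zero]
    refine hid ε h5 ?_
    rw [lt_div_iff₀ (by positivity)] at h4
    linarith
  have hlim := tendsto_nhds_unique (hG'.congr' hzero) tendsto_const_nhds
  simp only [ofReal_zero, zero_mul, add_zero, sub_zero] at hlim
  rw [div_self hnp, div_self hnm, hneg, hneg] at hlim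
  have e1 := log_mul_neg_pos hzp
  have e2 := log_mul_neg_neg hzm
  have e3 : (2 * Real.pi * I : ℂ) = 0 := by
    rw [log_one, sub_zero, sub_zero] at hlim
    linear_combination hlim - e1 + e2
  simp [Real.pi_ne_zero] at e3

end MH
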