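import Pool.Agent.Lib.MP_904526_H.Leaves
import Pool.Agent.Lib.MP_904526_H.Hom

/-!
# Stable branches which meet the unstable set of a saddle
-/

set_option autoImplicit false

open Set Filter Topology MeasureTheory

namespace MH

open MD (E hen KM wg wt coc Dh)
open ME (cx cx_inj)

variable {c b : ℝ} {hb : b ≠ 0} {n : ℕ} {p : E} {γ δ : ℝ → E} {S U : E} {A B : ℝ}
  {ψ φ : ℂ → ℂ × ℂ}

theorem Saddle.gAk (h : Saddle c b hb n p γ δ S U A B ψ φ) (k : ℕ) (t : ℝ) :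
    (hen c b hb)^[n * k] (γ t) = γ (A ^ k * t) := by
  induction k with
  | zero => simp
  | succ k ih =>
    rw [Nat.mul_succ, add_comm, Function.iterate_add_apply, ih, h.gA]
    congr 1
    ring

theorem Saddle.dBk (h : Saddle c b hb n p γ δ S U A B ψ φ) (k : ℕ) (t : ℝ) :
    (hen c b hb).symm^[n * k] (δ t) = δ (B ^ k * t) := by
  induction k with
  | zero => simp
  | succ k ih =>
    rw [Nat.mul_succ, add_comm, Function.iterate_add_apply, ih, h.dB]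
    congr 1
    ring

theorem Saddle.pK (h : Saddle c b hb n p γ δ S U A B ψ φ) : p ∈ KM c b hb := by
  rw [← h.d4]
  exact h.dK 0

/-- a branch with a homoclinic point is unbounded -/
theorem Saddle.hom (h : Saddle c b hb n p γ δ S U A B ψ φ) (hb1 : |b| < 1) (σ : ℝ)
    (hσ : σ = 1 ∨ σ = -1) (t₀ : ℝ) (ht₀ : 0 < σ * t₀) (hz : γ t₀ ∈ range δ) :
    ¬ Bornology.IsBounded (γ '' {t : ℝ | 0 < σ * t}) := by
  intro hbd
  have hK := h.side σ hσ hbd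
  obtain ⟨s₀, hs₀⟩ := hz
  have ht : t₀ ≠ 0 := by
    rintro rfl
    simp at ht₀
  refine hom_point c b hb hb1 p γ δ h.g1 h.g2 h.g3 h.d1 h.d3 h.g4 h.d4 S U h.wg h.lg h.ld t₀ s₀ ht
    hs₀.symm ?_ h.dK
  intro τ hτ
  rcases hτ.1.eq_or_lt with h0 | h0
  · rw [← h0, zero_mul, h.g4]
    exact h.pK
  · apply hK
    have : σ * (τ * t₀) = τ * (σ * t₀) := by ring
    rw [this]
    positivity

/-- powers of a number in `(0, 1)` -/
theorem pow_small (a x y : ℝ) (ha0 : 0 < a) (ha1 : a < 1) (hy : 0 < y) :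
    ∃ k : ℕ, a ^ k * x < y := by
  have h1 : Tendsto (fun k : ℕ => a ^ k * x) atTop (𝓝 0) := by
    have := (tendsto_pow_atTop_nhds_zero_of_lt_one ha0.le ha1).mul_const x
    rwa [zero_mul] at this
  exact (h1.eventually (gt_mem_nhds hy)).exists

variable {n' : ℕ} {q : E} {γ' δ' : ℝ → E} {S' U' : E} {A' B' : ℝ} {ψ' φ' : ℂ → ℂ × ℂ}

/-- the stable curve of `p` is not contained in the unstable curve of `q` -/
theorem Saddle.exists_notMem (h : Saddle c b hb n p γ δ S U A B ψ φ)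
    (h' : Saddle c b hb n' q γ' δ' S' U' A' B' ψ' φ') (hb1 : |b| < 1) (hn : 1 ≤ n) (hn' : 1 ≤ n')
    (hpq : p ≠ q) (σ : ℝ) (hσ : σ = 1 ∨ σ = -1) : ∃ t : ℝ, 0 < σ * t ∧ γ t ∉ range δ' := by
  by_contra hcon
  push Not at hcon
  have hss : σ * σ = 1 := by rcases hσ with rfl | rfl <;> norm_num
  have hσ0 : σ ≠ 0 := by
    rintro rfl
    norm_num at hss
  have hA : |A ^ n'| < 1 := by
    rw [abs_pow]
    exact pow_lt_one₀ (abs_nonneg _) h.A1 (by omega)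
  have hB : |B' ^ n| < 1 := by
    rw [abs_pow]
    exact pow_lt_one₀ (abs_nonneg _) h'.B1 (by omega)
  have hC := conn_of c b hb hb1 γ δ' ψ φ' h.ψd h'.φd h.ψr h'.φr (n * n') (Nat.mul_pos hn hn')
    (A ^ n') (B' ^ n) (pow_ne_zero _ h.A0) hA (pow_ne_zero _ h'.B0) hB
    (fun t => h.gAk n' t)
    (fun t => by rw [mul_comm n n']; exact h'.dBk n t) h'.d1 (h'.d2 0)
    (by rw [h.g4, h'.d4]; exact hpq)
  obtain ⟨ts, ss, t₀, s₀, h1, h2, h3, h4⟩ := acc (fun t s => γ (σ * t) = δ' s) 1 2 (by norm_num)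
    (fun t ht => by
      obtain ⟨s, hs⟩ := hcon (σ * t) (by
        rw [← mul_assoc, hss, one_mul]
        linarith [ht.1])
      exact ⟨s, hs.symm⟩)
  have h5 := hC.const (fun j => ((σ * ts j : ℝ) : ℂ)) (fun j => ((ss j : ℝ) : ℂ)) ((σ * t₀ : ℝ) : ℂ)
    ((s₀ : ℝ) : ℂ) ((Complex.continuous_ofReal.tendsto _).comp (h1.const_mul σ))
    ((Complex.continuous_ofReal.tendsto _).comp h2)
    (fun j hj => h3 j (mul_left_cancel₀ hσ0 (Complex.ofReal_injective hj)))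
    (fun j => by
      rw [h.ψr, h'.φr, h4 j]) ((0 : ℝ) : ℂ) ((1 : ℝ) : ℂ)
  rw [h.ψr, h.ψr] at h5
  exact zero_ne_one (h.g3 (cx_inj h5))

/-- a stable branch of `p` which meets the unstable curve of another saddle is unbounded -/
theorem Saddle.het (h : Saddle c b hb n p γ δ S U A B ψ φ)
    (h' : Saddle c b hb n' q γ' δ' S' U' A' B' ψ' φ') (hb1 : |b| < 1) (hn : 1 ≤ n) (hn' : 1 ≤ n')
    (hpq : p ≠ q) (σ : ℝ) (hσ : σ = 1 ∨ σ = -1) (t₀ : ℝ) (ht₀ : 0 < σ * t₀)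
    (hz : γ t₀ ∈ range δ') : ¬ Bornology.IsBounded (γ '' {t : ℝ | 0 < σ * t}) := by
  intro hbd
  have hK := h.side σ hσ hbd
  have hss : σ * σ = 1 := by rcases hσ with rfl | rfl <;> norm_num
  obtain ⟨t₁, ht₁, hn₁⟩ := h.exists_notMem h' hb1 hn hn' hpq σ hσ
  obtain ⟨a, ha⟩ : ∃ a : ℝ, a = A ^ (2 * n') := ⟨_, rfl⟩
  have ha0 : 0 < a := by
    rw [ha, pow_mul]
    have := h.A0
    positivity
  have ha1 : a < 1 := by
    rw [ha, pow_mul]
    refine pow_lt_one₀ (by positivity) ?_ (by omega)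
    rw [← sq_abs]
    exact pow_lt_one₀ (abs_nonneg _) h.A1 (by norm_num)
  have hsc : ∀ t, (hen c b hb)^[n * (2 * n')] (γ t) = γ (a * t) := by
    intro t
    rw [ha]
    exact h.gAk (2 * n') t
  have hnn : n * (2 * n') = n' * (2 * n) := by ring
  -- invariance of the set of parameters
  have hB : B' ^ (2 * n) ≠ 0 := pow_ne_zero _ h'.B0
  have hfwd : ∀ t, γ t ∈ range δ' → γ (a * t) ∈ range δ' := by
    rintro t ⟨s, hs⟩
    refine ⟨(B' ^ (2 * n))⁻¹ * s, ?_⟩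
    have e1 := h'.dBk (2 * n) ((B' ^ (2 * n))⁻¹ * s)
    rw [mul_inv_cancel_left₀ hB] at e1
    have e2 := MD.iter_symm (hen c b hb) (n' * (2 * n)) 0 (δ' ((B' ^ (2 * n))⁻¹ * s))
    rw [zero_add, e1, hs, ← hnn, hsc] at e2
    exact e2.symm
  have hbwd : ∀ t, γ t ∈ range δ' → γ (a⁻¹ * t) ∈ range δ' := by
    rintro t ⟨s, hs⟩
    refine ⟨B' ^ (2 * n) * s, ?_⟩
    have e1 := hsc (a⁻¹ * t)
    rw [mul_inv_cancel_left₀ ha0.ne'] at e1
    have e2 := MD.symm_iter (hen c b hb) (n * (2 * n')) 0 (γ (a⁻¹ * t))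
    rw [zero_add, e1, ← hs, hnn, h'.dBk] at e2
    exact e2
  have hfk : ∀ k : ℕ, γ (a ^ k * t₀) ∈ range δ' := by
    intro k
    induction k with
    | zero => simpa using hz
    | succ k ih =>
      have := hfwd _ ih
      rwa [← mul_assoc, ← pow_succ'] at this
  have hbk : ∀ k : ℕ, γ (a⁻¹ ^ k * t₀) ∈ range δ' := by
    intro k
    induction k with
    | zero => simpa using hz
    | succ k ih =>
      have := hbwd _ ih
      rwa [← mul_assoc, ← pow_succ'] at this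
  obtain ⟨i, hi⟩ := pow_small a (σ * t₀) (σ * t₁) ha0 ha1 ht₁
  obtain ⟨j, hj⟩ := pow_small a (σ * t₁) (σ * t₀) ha0 ha1 ht₀
  obtain ⟨s1, hs1⟩ := hfk i
  obtain ⟨s2, hs2⟩ := hbk j
  have hi' : σ * (a ^ i * t₀) < σ * t₁ := by
    have : σ * (a ^ i * t₀) = a ^ i * (σ * t₀) := by ring
    rw [this]
    exact hi
  have hj' : σ * t₁ < σ * (a⁻¹ ^ j * t₀) := by
    have e : σ * (a⁻¹ ^ j * t₀) = (a ^ j)⁻¹ * (σ * t₀) := by rw [inv_pow]; ring
    rw [e, inv_mul_eq_div, lt_div_iff₀ (by positivity)]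
    linarith
  have hpos : 0 < σ * (a ^ i * t₀) := by
    have : σ * (a ^ i * t₀) = a ^ i * (σ * t₀) := by ring
    rw [this]
    positivity
  have hα : ContDiff ℝ 1 (fun t : ℝ => γ (σ * t)) := h.g1.comp (contDiff_const.mul contDiff_id)
  have hβ : ContDiff ℝ 1 (fun τ : ℝ => δ' (s1 + τ * (s2 - s1))) :=
    h'.d1.comp (contDiff_const.add (contDiff_id.mul contDiff_const))
  refine no_loop c b hb hb1 (fun t : ℝ => γ (σ * t)) (fun τ : ℝ => δ' (s1 + τ * (s2 - s1))) hα hβ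
    (a₁ := σ * (a ^ i * t₀)) (b₁ := σ * (a⁻¹ ^ j * t₀)) (c₁ := 0) (d₁ := 1) (t₁ := σ * t₁)
    zero_le_one ?_ ?_ ⟨hi', hj'⟩ ?_ ?_ ?_ ?_ ?_
  · show γ (σ * (σ * (a ^ i * t₀))) = δ' (s1 + 0 * (s2 - s1))
    rw [← mul_assoc σ σ, hss, one_mul, zero_mul, add_zero]
    exact hs1.symm
  · show γ (σ * (σ * (a⁻¹ ^ j * t₀))) = δ' (s1 + 1 * (s2 - s1))
    rw [← mul_assoc σ σ, hss, one_mul, one_mul, add_sub_cancel]
    exact hs2.symm
  · intro t _ t' _ he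
    have h1 := h.g3 he
    have h2 : σ * (σ * t) = σ * (σ * t') := by rw [h1]
    rwa [← mul_assoc, ← mul_assoc, hss, one_mul, one_mul] at h2
  · have hd : HasDerivAt γ (deriv γ (σ * (σ * t₁))) (σ * (σ * t₁)) :=
      ((h.g1.differentiable (by norm_num)).differentiableAt).hasDerivAt
    have hl : HasDerivAt (fun t : ℝ => σ * t) σ (σ * t₁) := by
      simpa using (hasDerivAt_id (σ * t₁)).const_mul σ
    have h1 := hd.scomp (σ * t₁) hl
    have h2 : deriv (fun t : ℝ => γ (σ * t)) (σ * t₁) = σ • deriv γ (σ * (σ * t₁)) := h1.deriv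
    rw [h2]
    refine smul_ne_zero ?_ (h.g2 _)
    rintro rfl
    norm_num at hss
  · intro s _ he
    apply hn₁
    have e : σ * (σ * t₁) = t₁ := by rw [← mul_assoc, hss, one_mul]
    have he' : δ' (s1 + s * (s2 - s1)) = γ (σ * (σ * t₁)) := he
    rw [e] at he'
    exact ⟨_, he'⟩
  · intro t ht
    apply hK
    rw [← mul_assoc, hss, one_mul]
    exact hpos.trans_le ht.1
  · intro s _
    exact h'.dK _

/-- the real Henon map -/
def henonMap (c b : ℝ) (p : ℝ × ℝ) : ℝ × ℝ := (p.1 ^ 2 + c - b * p.2, p.1)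

/-- the inverse of the real Henon map -/
noncomputable def henonInv (c b : ℝ) (p : ℝ × ℝ) : ℝ × ℝ := (p.2, (p.2 ^ 2 + c - p.1) / b)

/-- the stable set of `x` -/
def stableSet (c b : ℝ) (x : ℝ × ℝ) : Set (ℝ × ℝ) :=
  {y | ∃ κ : ℝ, 0 < κ ∧ ∃ C : ℝ, ∀ n : ℕ,
    dist ((henonMap c b)^[n] y) ((henonMap c b)^[n] x) ≤ C * Real.exp (-κ * n)}

/-- the unstable set of `x` -/
def unstableSet (c b : ℝ) (x : ℝ × ℝ) : Set (ℝ × ℝ) :=
  {y | ∃ κ : ℝ, 0 < κ ∧ ∃ C : ℝ, ∀ n : ℕ,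
    dist ((henonInv c b)^[n] y) ((henonInv c b)^[n] x) ≤ C * Real.exp (-κ * n)}

/-- `p` is periodic and the derivative of the return map has an eigenvalue of modulus more than one -/
def IsSaddle (c b : ℝ) (p : ℝ × ℝ) : Prop :=
  ∃ n : ℕ, 1 ≤ n ∧ (henonMap c b)^[n] p = p ∧ ∃ m : ℝ, 1 < |m| ∧ ∃ v : ℝ × ℝ, v ≠ 0 ∧
    fderiv ℝ ((henonMap c b)^[n]) p v = m • v

theorem IsSaddle.data {c b : ℝ} {p : ℝ × ℝ} (h : IsSaddle c b p) (hb : b ≠ 0) (hb1 : |b| < 1) :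
    ∃ (n : ℕ) (γ δ : ℝ → E) (S U : E) (A B : ℝ) (ψ φ : ℂ → ℂ × ℂ), 1 ≤ n ∧
      Saddle c b hb n p γ δ S U A B ψ φ := by
  obtain ⟨n, hn, hp, m, hm, v, hv0, hv⟩ := h
  have hv' : coc (Dh b) (hen c b hb) n p v = m • v := by
    rw [← MD.henon_fderiv c b hb n p]
    exact hv
  obtain ⟨γ, δ, S, U, A, B, ψ, φ, hs⟩ := leaves c b hb hb1 n hn p v m hp hv' hv0 hm
  exact ⟨n, γ, δ, S, U, A, B, ψ, φ, hn, hs⟩

theorem main (c b : ℝ) (hb0 : 0 < |b|) (hb1 : |b| < 1) (p : ℝ × ℝ) (hp : IsSaddle c b p) :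
    ∃ γ : ℝ → ℝ × ℝ, ContDiff ℝ 1 γ ∧ (∀ t, deriv γ t ≠ 0) ∧ Function.Injective γ ∧ γ 0 = p ∧
      range γ = stableSet c b p ∧
      ∀ q : ℝ × ℝ, IsSaddle c b q →
        ((∃ t : ℝ, 0 < t ∧ γ t ∈ unstableSet c b q) → ¬ Bornology.IsBounded (γ '' Ioi 0)) ∧
        ((∃ t : ℝ, t < 0 ∧ γ t ∈ unstableSet c b q) → ¬ Bornology.IsBounded (γ '' Iio 0)) := by
  have hb : b ≠ 0 := abs_pos.1 hb0
  obtain ⟨n, γ, δ, S, U, A, B, ψ, φ, hn, hs⟩ := hp.data hb hb1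
  have hun : ∀ (n' : ℕ) (q : E) (γ' δ' : ℝ → E) (S' U' : E) (A' B' : ℝ) (ψ' φ' : ℂ → ℂ × ℂ),
      Saddle c b hb n' q γ' δ' S' U' A' B' ψ' φ' → ∀ y, y ∈ unstableSet c b q → y ∈ range δ' := by
    intro n' q γ' δ' S' U' A' B' ψ' φ' h' y hy
    rw [h'.d5 y]
    exact hy
  have key : ∀ σ : ℝ, (σ = 1 ∨ σ = -1) → ∀ q : E, IsSaddle c b q → ∀ t : ℝ, 0 < σ * t →
      γ t ∈ unstableSet c b q → ¬ Bornology.IsBounded (γ '' {t : ℝ | 0 < σ * t}) := by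
    intro σ hσ q hq t ht hm
    by_cases hpq : p = q
    · rw [← hpq] at hm
      exact hs.hom hb1 σ hσ t ht (hun _ _ _ _ _ _ _ _ _ _ hs _ hm)
    · obtain ⟨n', γ', δ', S', U', A', B', ψ', φ', hn', hs'⟩ := hq.data hb hb1
      exact hs.het hs' hb1 hn hn' hpq σ hσ t ht (hun _ _ _ _ _ _ _ _ _ _ hs' _ hm)
  refine ⟨γ, hs.g1, hs.g2, hs.g3, hs.g4, ?_, fun q hq => ⟨?_, ?_⟩⟩
  · ext y
    rw [hs.g5 y]
    rfl
  · rintro ⟨t, ht, hm⟩
    have h1 := key 1 (Or.inl rfl) q hq t (by linarith) hm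
    have e : {t : ℝ | 0 < 1 * t} = Ioi 0 := by ext t; simp
    rwa [e] at h1
  · rintro ⟨t, ht, hm⟩
    have h1 := key (-1) (Or.inr rfl) q hq t (by linarith) hm
    have e : {t : ℝ | 0 < -1 * t} = Iio 0 := by ext t; simp
    rwa [e] at h1

end MH
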