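import Pool.Agent.Lib.MP_904526_H.Loop
import Pool.Agent.Lib.MP_904526_an.F3

/-!
# Two different arcs of points with bounded backward orbits have no common ends
-/

set_option autoImplicit false

open Set Filter Topology MeasureTheory Complex

namespace MH

open MD (E hen KM)

theorem enclose {α α' β β' : ℝ → ℂ} (hα : ∀ t, HasDerivAt α (α' t) t) (hα' : Continuous α')
    (hβ : ∀ t, HasDerivAt β (β' t) t) (hβ' : Continuous β') {a b c d : ℝ} (hab : a ≤ b) (hcd : c ≤ d)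
    (h1 : α a = β c) (h2 : α b = β d) :
    IsOpen {w : ℂ | w ∉ α '' Icc a b ∪ β '' Icc c d ∧ J α α' a b w - J β β' c d w ≠ 0} ∧
    Bornology.IsBounded {w : ℂ | w ∉ α '' Icc a b ∪ β '' Icc c d ∧ J α α' a b w - J β β' c d w ≠ 0} ∧
    frontier {w : ℂ | w ∉ α '' Icc a b ∪ β '' Icc c d ∧ J α α' a b w - J β β' c d w ≠ 0} ⊆
      α '' Icc a b ∪ β '' Icc c d := by
  obtain ⟨K, hK⟩ : ∃ K : Set ℂ, K = α '' Icc a b ∪ β '' Icc c d := ⟨_, rfl⟩
  obtain ⟨F, hF⟩ : ∃ F : ℂ → ℂ, F = fun w => J α α' a b w - J β β' c d w := ⟨_, rfl⟩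
  have hcα : Continuous α := continuous_iff_continuousAt.2 fun t => (hα t).continuousAt
  have hcβ : Continuous β := continuous_iff_continuousAt.2 fun t => (hβ t).continuousAt
  have hKc : IsCompact K := by
    rw [hK]
    exact (isCompact_Icc.image hcα).union (isCompact_Icc.image hcβ)
  have hset : {w : ℂ | w ∉ α '' Icc a b ∪ β '' Icc c d ∧ J α α' a b w - J β β' c d w ≠ 0} =
      {w : ℂ | w ∉ K ∧ F w ≠ 0} := by rw [hK, hF]
  rw [hset, ← hK]
  -- locally constant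
  have hloc : ∀ w : ℂ, w ∉ K → ∃ ρ : ℝ, 0 < ρ ∧ ∀ w' : ℂ, ‖w' - w‖ < ρ → w' ∉ K ∧ F w' = F w := by
    intro w hw
    obtain ⟨ρ, hρ, h4⟩ := Metric.mem_nhds_iff.1 (hKc.isClosed.isOpen_compl.mem_nhds hw)
    have hρK : ∀ x ∈ K, ρ ≤ ‖x - w‖ := by
      intro x hx
      by_contra hlt
      rw [not_le] at hlt
      exact h4 (show x ∈ Metric.ball w ρ by rw [Metric.mem_ball, dist_eq_norm]; exact hlt) hx
    refine ⟨ρ, hρ, fun w' hw' => ⟨fun hx => absurd (hρK w' hx) (not_le.2 hw'), ?_⟩⟩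
    have e1 := J_diff hα hα' (a := a) (b := b) (w := w) (w' := w') (by
      intro t ht
      rw [uIcc_of_le hab] at ht
      exact lt_of_lt_of_le hw' (hρK _ (by rw [hK]; exact Or.inl ⟨t, ht, rfl⟩)))
    have e2 := J_diff hβ hβ' (a := c) (b := d) (w := w) (w' := w') (by
      intro t ht
      rw [uIcc_of_le hcd] at ht
      exact lt_of_lt_of_le hw' (hρK _ (by rw [hK]; exact Or.inr ⟨t, ht, rfl⟩)))
    rw [← h1, ← h2] at e2
    rw [hF]
    linear_combination e1 - e2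
  have hopen : IsOpen {w : ℂ | w ∉ K ∧ F w ≠ 0} := by
    rw [Metric.isOpen_iff]
    rintro w ⟨hw, hFw⟩
    obtain ⟨ρ, hρ, h3⟩ := hloc w hw
    refine ⟨ρ, hρ, fun w' hw' => ?_⟩
    rw [Metric.mem_ball, dist_eq_norm] at hw'
    obtain ⟨h4, h5⟩ := h3 w' hw'
    exact ⟨h4, by rw [h5]; exact hFw⟩
  refine ⟨hopen, ?_, ?_⟩
  · obtain ⟨R, hR⟩ := hKc.isBounded.exists_norm_le
    refine (Metric.isBounded_closedBall (x := (0 : ℂ)) (r := max R 0)).subset ?_
    rintro w ⟨hw, hFw⟩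
    rw [mem_closedBall_zero_iff]
    by_contra hlt
    rw [not_le] at hlt
    apply hFw
    have hw0 : 0 < ‖w‖ := lt_of_le_of_lt (le_max_right _ _) hlt
    have hwn : w ≠ 0 := norm_pos_iff.1 hw0
    have hsl : ∀ x ∈ K, (-1 / w) * (x - w) ∈ slitPlane := by
      intro x hx
      have e : (-1 / w) * (x - w) = 1 + -(x / w) := by
        field_simp
        ring
      rw [e]
      refine mem_slitPlane_of_norm_lt_one ?_
      rw [norm_neg, norm_div, div_lt_one hw0]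
      exact lt_of_le_of_lt ((hR x hx).trans (le_max_left _ _)) hlt
    have e1 := J_slit hα hα' (a := a) (b := b) (w := w) (m := -1 / w) (by
      intro t ht
      rw [uIcc_of_le hab] at ht
      exact hsl _ (by rw [hK]; exact Or.inl ⟨t, ht, rfl⟩))
    have e2 := J_slit hβ hβ' (a := c) (b := d) (w := w) (m := -1 / w) (by
      intro t ht
      rw [uIcc_of_le hcd] at ht
      exact hsl _ (by rw [hK]; exact Or.inr ⟨t, ht, rfl⟩))
    rw [← h1, ← h2] at e2
    rw [hF]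
    linear_combination e1 - e2
  · intro w hw
    by_contra hwK
    obtain ⟨ρ, hρ, h3⟩ := hloc w hwK
    rw [frontier, hopen.interior_eq] at hw
    obtain ⟨w', hw', hd⟩ := Metric.mem_closure_iff.1 hw.1 ρ hρ
    rw [dist_comm, dist_eq_norm] at hd
    apply hw.2
    refine ⟨hwK, ?_⟩
    rw [← (h3 w' hd).2]
    exact hw'.2

/-- Two arcs of points with bounded backward orbits cannot have common ends and be different. -/
theorem no_loop (c b : ℝ) (hb : b ≠ 0) (hb1 : |b| < 1) (α β : ℝ → E) (hα : ContDiff ℝ 1 α)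
    (hβ : ContDiff ℝ 1 β) {a₁ b₁ c₁ d₁ t₁ : ℝ} (hcd : c₁ ≤ d₁) (h1 : α a₁ = β c₁) (h2 : α b₁ = β d₁)
    (ht : t₁ ∈ Ioo a₁ b₁) (hinj : InjOn α (Icc a₁ b₁)) (hne : deriv α t₁ ≠ 0)
    (hy : ∀ s ∈ Icc c₁ d₁, β s ≠ α t₁) (hKα : ∀ t ∈ Icc a₁ b₁, α t ∈ KM c b hb)
    (hKβ : ∀ s ∈ Icc c₁ d₁, β s ∈ KM c b hb) : False := by
  obtain ⟨φ, hφ⟩ : ∃ φ : E ≃L[ℝ] ℂ, φ = Complex.equivRealProdCLM.symm := ⟨_, rfl⟩
  have hαd : ∀ t, HasDerivAt (fun t => φ (α t)) (φ (deriv α t)) t := fun t =>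
    ((φ : E →L[ℝ] ℂ).hasFDerivAt.comp_hasDerivAt t
      ((hα.differentiable (by norm_num)).differentiableAt (x := t)).hasDerivAt)
  have hβd : ∀ t, HasDerivAt (fun t => φ (β t)) (φ (deriv β t)) t := fun t =>
    ((φ : E →L[ℝ] ℂ).hasFDerivAt.comp_hasDerivAt t
      ((hβ.differentiable (by norm_num)).differentiableAt (x := t)).hasDerivAt)
  have hαc : Continuous fun t => φ (deriv α t) := φ.continuous.comp (hα.continuous_deriv (by norm_num))
  have hβc : Continuous fun t => φ (deriv β t) := φ.continuous.comp (hβ.continuous_deriv (by norm_num))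
  have hab : a₁ ≤ b₁ := (ht.1.trans ht.2).le
  obtain ⟨ho, hbd, hfr⟩ := enclose hαd hαc hβd hβc hab hcd (congrArg φ h1) (congrArg φ h2)
  obtain ⟨D, hD⟩ : ∃ D : Set ℂ, D = {w : ℂ | w ∉ (fun t => φ (α t)) '' Icc a₁ b₁ ∪
      (fun t => φ (β t)) '' Icc c₁ d₁ ∧ J (fun t => φ (α t)) (fun t => φ (deriv α t)) a₁ b₁ w -
      J (fun t => φ (β t)) (fun t => φ (deriv β t)) c₁ d₁ w ≠ 0} := ⟨_, rfl⟩
  rw [← hD] at ho hbd hfr
  have hDe : ¬ D.Nonempty := by
    intro hDn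
    have hs : Bornology.IsBounded (φ.symm '' D) := by
      refine ((hbd.isCompact_closure.image φ.symm.continuous).isBounded).subset ?_
      exact image_mono subset_closure
    have hso : IsOpen (φ.symm '' D) := φ.symm.toHomeomorph.isOpenMap _ ho
    refine MD.no_frontier c b hb hb1 (φ.symm '' D) hso (hDn.image _) hs ?_
    have e : frontier (φ.symm '' D) = φ.symm '' frontier D :=
      (φ.symm.toHomeomorph.image_frontier D).symm
    rw [e]
    rintro _ ⟨w, hw, rfl⟩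
    rcases hfr hw with ⟨t, htt, rfl⟩ | ⟨s, hs, rfl⟩
    · simpa using hKα t htt
    · simpa using hKβ s hs
  refine jump hαd hαc hβd hβc (congrArg φ h1) (congrArg φ h2) hcd ht ?_ ?_ ?_ ?_
  · intro t htt t' htt' he
    exact hinj htt htt' (φ.injective he)
  · intro he
    apply hne
    exact φ.injective (he.trans (map_zero φ).symm)
  · intro s hs he
    exact hy s hs (φ.injective he)
  · intro w hw
    by_contra hne'
    exact hDe ⟨w, by rw [hD]; exact ⟨hw, hne'⟩⟩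

end MH
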