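import Pool.Agent.Lib.MP_904526_an.Z

/-!
# The measure on a periodic orbit
-/

set_option autoImplicit false

open Set Filter Topology MeasureTheory

namespace MH

open MD (E hen KM KK wg wt LimExp coc uu Sys)

/-- the uniform measure on the orbit of `p` -/
noncomputable def orb (f : E ≃ₜ E) (n : ℕ) (p : E) : Measure E :=
  (n : ENNReal)⁻¹ • ∑ i ∈ Finset.range n, Measure.dirac (f^[i] p)

theorem orb_apply (f : E ≃ₜ E) (n : ℕ) (p : E) (s : Set E) :
    orb f n p s = (n : ENNReal)⁻¹ * ∑ i ∈ Finset.range n, s.indicator 1 (f^[i] p) := by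
  unfold orb
  rw [Measure.smul_apply, Measure.coe_finsetSum, Finset.sum_apply, smul_eq_mul]
  congr 1
  refine Finset.sum_congr rfl fun i _ => ?_
  exact Measure.dirac_apply _ _

theorem orb_prob (f : E ≃ₜ E) (n : ℕ) (hn : 1 ≤ n) (p : E) : IsProbabilityMeasure (orb f n p) := by
  refine ⟨?_⟩
  rw [orb_apply]
  simp only [indicator_univ, Pi.one_apply, Finset.sum_const, Finset.card_range, nsmul_eq_mul, mul_one]
  refine ENNReal.inv_mul_cancel ?_ (ENNReal.natCast_ne_top n)
  exact_mod_cast (by omega : n ≠ 0)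

theorem orb_ae (f : E ≃ₜ E) (n : ℕ) (p : E) (P : E → Prop) :
    (∀ᵐ x ∂(orb f n p), P x) ↔ ∀ i < n, P (f^[i] p) := by
  rw [ae_iff, orb_apply, mul_eq_zero, Finset.sum_eq_zero_iff]
  constructor
  · rintro (h | h) i hi
    · exact absurd h (ENNReal.inv_ne_zero.2 (ENNReal.natCast_ne_top n))
    · have h1 := h i (Finset.mem_range.2 hi)
      by_contra hP
      rw [indicator_of_mem (show f^[i] p ∈ {a | ¬ P a} from hP)] at h1
      exact one_ne_zero h1
  · intro h
    right
    intro i hi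
    have hm : f^[i] p ∉ {a | ¬ P a} := fun hc => hc (h i (Finset.mem_range.1 hi))
    exact indicator_of_notMem hm _

theorem orb_mp (f : E ≃ₜ E) (n : ℕ) (p : E) (hp : f^[n] p = p) :
    MeasurePreserving f (orb f n p) (orb f n p) := by
  refine ⟨f.continuous.measurable, ?_⟩
  ext s hs
  rw [Measure.map_apply f.continuous.measurable hs, orb_apply, orb_apply]
  congr 1
  have e : ∀ i, (f ⁻¹' s).indicator (1 : E → ENNReal) (f^[i] p) =
      s.indicator (1 : E → ENNReal) (f^[i + 1] p) := by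
    intro i
    rw [Function.iterate_succ_apply']
    rfl
  simp only [e]
  have h1 := Finset.sum_range_succ (fun i => s.indicator (1 : E → ENNReal) (f^[i] p)) n
  have h2 := Finset.sum_range_succ' (fun i => s.indicator (1 : E → ENNReal) (f^[i] p)) n
  rw [h1] at h2
  simp only [Function.iterate_zero, id_eq] at h2
  rw [hp] at h2
  have h3 : s.indicator (1 : E → ENNReal) p ≠ ⊤ := by
    refine ne_top_of_le_ne_top ENNReal.one_ne_top ?_
    exact indicator_le_self' (fun _ _ => zero_le_one) p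
  exact ((ENNReal.add_left_inj h3).1 h2).symm

theorem inv_iter (f : E ≃ₜ E) (s : Set E) (h : f ⁻¹' s = s) (i : ℕ) (p : E) :
    f^[i] p ∈ s ↔ p ∈ s := by
  induction i with
  | zero => exact Iff.rfl
  | succ i ih =>
    rw [Function.iterate_succ_apply', ← ih]
    conv_rhs => rw [← h]
    rfl

theorem orb_erg (f : E ≃ₜ E) (n : ℕ) (p : E) (hp : f^[n] p = p) : Ergodic f (orb f n p) := by
  refine ⟨orb_mp f n p hp, ⟨?_⟩⟩
  intro s _ h
  rw [eventuallyConst_set]
  by_cases hps : p ∈ s
  · left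
    exact (orb_ae f n p _).2 fun i _ => (inv_iter f s h i p).2 hps
  · right
    exact (orb_ae f n p _).2 fun i _ hc => hps ((inv_iter f s h i p).1 hc)

variable {g : E ≃ₜ E} {D L : E → E →L[ℝ] E} {P : E → E} {q J M : ℝ} {K : Set E}

theorem coc_pow (n : ℕ) (p v : E) (m : ℝ) (hp : g^[n] p = p) (hv : coc D g n p v = m • v) (k : ℕ) :
    g^[n * k] p = p ∧ coc D g (n * k) p v = m ^ k • v := by
  induction k with
  | zero => exact ⟨rfl, by rw [Nat.mul_zero, MD.coc_zero, pow_zero, one_smul]; rfl⟩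
  | succ k ih =>
    refine ⟨?_, ?_⟩
    · rw [Nat.mul_succ, Function.iterate_add_apply, hp, ih.1]
    · rw [Nat.mul_succ, MD.coc_add, ContinuousLinearMap.comp_apply, ih.1, ih.2, map_smul, hv,
        smul_smul, pow_succ]

theorem coc_pow' (n : ℕ) (p v : E) (m : ℝ) (hp : g^[n] p = p) (hv : coc D g n p v = m • v) (i k : ℕ) :
    coc D g (n * k) (g^[i] p) (coc D g i p v) = m ^ k • coc D g i p v := by
  obtain ⟨h1, h2⟩ := coc_pow n p v m hp hv k
  have h3 := MD.coc_add (D := D) (g := g) i (n * k) p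
  have h4 := MD.coc_add (D := D) (g := g) (n * k) i p
  rw [add_comm, h4, h1] at h3
  have h5 := congrArg (fun A : E →L[ℝ] E => A v) h3
  simp only [ContinuousLinearMap.comp_apply] at h5
  rw [h2, map_smul] at h5
  exact h5.symm

theorem coc_ne (h : Sys g D L P q J M K) (n : ℕ) (x v : E) (hv : v ≠ 0) : coc D g n x v ≠ 0 := by
  intro h0
  apply hv
  rw [← (MD.coc_inv h n x v).1, h0, map_zero]

theorem uu_low (h : Sys g D L P q J M K) (n : ℕ) (p v : E) (m : ℝ) (hp : g^[n] p = p)
    (hv : coc D g n p v = m • v) (hv0 : v ≠ 0) (hm : 1 < |m|) (i k : ℕ) :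
    k * Real.log |m| ≤ uu D g (n * k) (g^[i] p) := by
  have h1 := coc_pow' n p v m hp hv i k
  have h2 := (coc D g (n * k) (g^[i] p)).le_opNorm (coc D g i p v)
  have h3 : 0 < ‖coc D g i p v‖ := norm_pos_iff.2 (coc_ne h i p v hv0)
  rw [h1, norm_smul, norm_pow, Real.norm_eq_abs] at h2
  have h4 : |m| ^ k ≤ ‖coc D g (n * k) (g^[i] p)‖ := le_of_mul_le_mul_right h2 h3
  have h5 : 0 < |m| := by linarith
  calc k * Real.log |m| = Real.log (|m| ^ k) := by rw [Real.log_pow]
    _ ≤ Real.log ‖coc D g (n * k) (g^[i] p)‖ := Real.log_le_log (by positivity) h4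

/-- the top exponent of the orbit measure of a periodic point with an unstable eigenvalue -/
theorem top_pos (h : Sys g D L P q J M K) (n : ℕ) (hn : 1 ≤ n) (p v : E) (m : ℝ) (hp : g^[n] p = p)
    (hv : coc D g n p v = m • v) (hv0 : v ≠ 0) (hm : 1 < |m|) (hK : (orb g n p) Kᶜ = 0) :
    ∃ Λ : ℝ, 0 < Λ ∧ LimExp D g (orb g n p) Λ := by
  have := orb_prob g n hn p
  obtain ⟨Λ, -, hΛ⟩ := MD.limExp_exists h (orb g n p) (orb_mp g n p hp) hK (-Real.log M)
    (fun n' _ => by
      have := MD.c2_bd h (orb g n p) hK n'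
      have := neg_le_of_abs_le this
      linarith)
  refine ⟨Λ, ?_, hΛ⟩
  have hn0 : (0 : ℝ) < n := by exact_mod_cast hn
  have hl : 0 < Real.log |m| := Real.log_pos hm
  have hsub : Tendsto (fun k : ℕ => n * k) atTop atTop :=
    tendsto_id.const_mul_atTop' hn
  have h1 := hΛ.comp hsub
  have h2 : Real.log |m| / n ≤ Λ := by
    refine ge_of_tendsto h1 ?_
    filter_upwards [eventually_ge_atTop 1] with k hk
    have hk0 : (0 : ℝ) < k := by exact_mod_cast hk
    show Real.log |m| / n ≤ (∫ x, uu D g (n * k) x ∂(orb g n p)) / ((n * k : ℕ) : ℝ)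
    rw [Nat.cast_mul, le_div_iff₀ (by positivity), div_mul_eq_mul_div, div_le_iff₀ hn0]
    have h3 : k * Real.log |m| ≤ ∫ x, uu D g (n * k) x ∂(orb g n p) := by
      have h4 : ∫ _, (k * Real.log |m| : ℝ) ∂(orb g n p) = k * Real.log |m| := by
        rw [integral_const, probReal_univ, one_smul]
      rw [← h4]
      refine integral_mono_ae (integrable_const _) (MD.uu_int h (orb g n p) hK _) ?_
      exact (orb_ae g n p _).2 fun i _ => uu_low h n p v m hp hv hv0 hm i k
    calc Real.log |m| * (n * k) = (k * Real.log |m|) * n := by ring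
      _ ≤ _ := mul_le_mul_of_nonneg_right h3 hn0.le
  have h5 : 0 < Real.log |m| / n := by positivity
  linarith

end MH
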