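import Mathlib

/-!
# Two entire curves of the complex plane squared which are scaled by a map and its inverse
-/

set_option autoImplicit false

open Set Filter Topology

namespace MH

/-- an open set outside which a continuous function vanishes, the function being holomorphic and
without zeros on the set, is dense (a weak form of the theorem of Rado) -/
theorem dense_of_zero (Ω : Set ℂ) (ho : IsOpen Ω) (hne : Ω.Nonempty) (k : ℂ → ℂ) (hk : Continuous k)
    (hd : DifferentiableOn ℂ k Ω) (h1 : ∀ z ∈ Ω, k z ≠ 0) (h0 : ∀ z, z ∉ Ω → k z = 0) :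
    Dense Ω := by
  rw [dense_iff_closure_eq]
  by_contra hcl
  obtain ⟨v, hv⟩ := (ne_univ_iff_exists_notMem _).1 hcl
  obtain ⟨z₀, hz₀, hd₀⟩ := isClosed_closure.exists_infDist_eq_dist hne.closure v
  obtain ⟨d, hdd⟩ : ∃ d : ℝ, d = dist v z₀ := ⟨_, rfl⟩
  have hdpos : 0 < d := by
    rw [hdd]
    exact dist_pos.2 fun h => hv (by rw [h]; exact hz₀)
  have hfar : ∀ z ∈ closure Ω, d ≤ ‖z - v‖ := by
    intro z hz
    have h2 := Metric.infDist_le_dist_of_mem (x := v) hz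
    rwa [hd₀, ← hdd, dist_comm, dist_eq_norm] at h2
  obtain ⟨C, hC⟩ := (isCompact_closedBall z₀ (3 * d)).exists_bound_of_continuousOn hk.continuousOn
  have hC0 : 0 ≤ C := (norm_nonneg _).trans (hC z₀ (Metric.mem_closedBall_self (by positivity)))
  have key : ∀ z ∈ Ω ∩ Metric.ball z₀ (3 * d), 2 * d ≤ ‖z - v‖ := by
    intro z hz
    by_contra hlt
    rw [not_le] at hlt
    have hU : IsOpen (Ω ∩ Metric.ball z₀ (3 * d)) := ho.inter Metric.isOpen_ball
    have hcl1 : closure (Ω ∩ Metric.ball z₀ (3 * d)) ⊆ closure Ω :=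
      closure_mono inter_subset_left
    have hcl2 : closure (Ω ∩ Metric.ball z₀ (3 * d)) ⊆ Metric.closedBall z₀ (3 * d) :=
      (closure_mono inter_subset_right).trans Metric.closure_ball_subset_closedBall
    have hnz : ∀ z ∈ closure (Ω ∩ Metric.ball z₀ (3 * d)), z - v ≠ 0 := by
      intro z hz h
      have := hfar z (hcl1 hz)
      rw [h, norm_zero] at this
      linarith
    have hpow : ∀ m : ℕ, ‖k z‖ * ‖(z - v)⁻¹‖ ^ m ≤ C * ((2 * d)⁻¹) ^ m := by
      intro m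
      have hdc : DiffContOnCl ℂ (fun z => k z * ((z - v)⁻¹) ^ m)
          (Ω ∩ Metric.ball z₀ (3 * d)) := by
        refine ⟨?_, ?_⟩
        · refine (hd.mono inter_subset_left).mul ?_
          refine DifferentiableOn.pow ?_ m
          exact (differentiableOn_id.sub_const v).inv fun z hz => hnz z (subset_closure hz)
        · refine hk.continuousOn.mul ?_
          refine ContinuousOn.pow ?_ m
          exact (continuousOn_id.sub continuousOn_const).inv₀ hnz
      have h3 := Complex.norm_le_of_forall_mem_frontier_norm_le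
        (Metric.isBounded_ball.subset inter_subset_right) hdc (C := C * ((2 * d)⁻¹) ^ m)
        (fun y hy => by
          have hyc : y ∈ closure (Ω ∩ Metric.ball z₀ (3 * d)) := frontier_subset_closure hy
          rw [norm_mul, norm_pow, norm_inv]
          by_cases hyΩ : y ∈ Ω
          · have hyb : y ∉ Metric.ball z₀ (3 * d) := by
              intro hb
              rw [frontier, hU.interior_eq] at hy
              exact hy.2 ⟨hyΩ, hb⟩
            have h4 : 3 * d ≤ ‖y - z₀‖ := by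
              rw [Metric.mem_ball, not_lt, dist_eq_norm] at hyb
              exact hyb
            have h5 : 2 * d ≤ ‖y - v‖ := by
              have h6 : ‖y - z₀‖ ≤ ‖y - v‖ + ‖v - z₀‖ := by
                have := norm_add_le (y - v) (v - z₀)
                rwa [sub_add_sub_cancel] at this
              rw [← dist_eq_norm v z₀, ← hdd] at h6
              linarith
            have h7 : ‖y - v‖⁻¹ ≤ (2 * d)⁻¹ := inv_anti₀ (by positivity) h5
            have h8 := hC y (hcl2 hyc)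
            have h9 : 0 ≤ ‖y - v‖⁻¹ := by positivity
            gcongr
          · rw [h0 y hyΩ, norm_zero, zero_mul]
            positivity) (subset_closure hz)
      rwa [norm_mul, norm_pow] at h3
    have hz0 : 0 < ‖z - v‖ := norm_pos_iff.2 (hnz z (subset_closure hz))
    have hr : 1 < 2 * d / ‖z - v‖ := (one_lt_div hz0).2 hlt
    have hkz : 0 < ‖k z‖ := norm_pos_iff.2 (h1 z hz.1)
    obtain ⟨m, hm⟩ := pow_unbounded_of_one_lt (C / ‖k z‖) hr
    have h4 := hpow m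
    rw [norm_inv] at h4
    rw [div_lt_iff₀ hkz, div_pow, div_mul_eq_mul_div, lt_div_iff₀ (by positivity)] at hm
    have h5 : ‖k z‖ * (2 * d) ^ m ≤ C * ‖z - v‖ ^ m := by
      rw [inv_pow, inv_pow, ← div_eq_mul_inv, ← div_eq_mul_inv, div_le_div_iff₀ (by positivity)
        (by positivity)] at h4
      exact h4
    linarith
  obtain ⟨z, hz, hzd⟩ := Metric.mem_closure_iff.1 hz₀ d hdpos
  have h2 := key z ⟨hz, by
    rw [Metric.mem_ball, dist_comm]
    linarith⟩
  have h3 : ‖z - v‖ ≤ ‖z - z₀‖ + ‖z₀ - v‖ := by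
    have := norm_add_le (z - z₀) (z₀ - v)
    rwa [sub_add_sub_cancel] at this
  rw [← dist_eq_norm z z₀, dist_comm z z₀, ← dist_eq_norm z₀ v, dist_comm z₀ v, ← hdd] at h3
  linarith

theorem germ1 (u v a b : ℂ → ℂ) (hu : Differentiable ℂ u) (hv : Differentiable ℂ v)
    (ha : Differentiable ℂ a) (hb : Differentiable ℂ b) (zs ws : ℕ → ℂ) (z₀ w₀ : ℂ)
    (hz : Tendsto zs atTop (𝓝 z₀)) (hw : Tendsto ws atTop (𝓝 w₀)) (hne : ∀ j, zs j ≠ z₀)
    (h1 : ∀ j, a (zs j) = u (ws j)) (h2 : ∀ j, b (zs j) = v (ws j)) (hu0 : deriv u w₀ ≠ 0) :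
    ∃ h : ℂ → ℂ, AnalyticAt ℂ h z₀ ∧ ∀ᶠ z in 𝓝 z₀, u (h z) = a z ∧ v (h z) = b z := by
  have hA : AnalyticAt ℂ u w₀ := hu.analyticAt w₀
  have hκ := hA.analyticAt_localInverse hu0
  have hl := HasStrictDerivAt.eventually_left_inverse hA.hasStrictDerivAt hu0
  have hr := HasStrictDerivAt.eventually_right_inverse hA.hasStrictDerivAt hu0
  obtain ⟨κ, hκd⟩ : ∃ κ : ℂ → ℂ, κ = hA.hasStrictDerivAt.localInverse _ _ _ hu0 := ⟨_, rfl⟩
  rw [← hκd] at hκ hl hr
  have e0 : a z₀ = u w₀ := by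
    refine tendsto_nhds_unique ((ha.continuous.tendsto z₀).comp hz) ?_
    refine ((hu.continuous.tendsto w₀).comp hw).congr fun j => ?_
    exact (h1 j).symm
  rw [← e0] at hκ hr
  have hca : AnalyticAt ℂ a z₀ := ha.analyticAt z₀
  have hκa : AnalyticAt ℂ (fun z => κ (a z)) z₀ := AnalyticAt.fun_comp hκ hca
  refine ⟨fun z => κ (a z), hκa, ?_⟩
  have hD : AnalyticAt ℂ (fun z => v (κ (a z)) - b z) z₀ :=
    (AnalyticAt.fun_comp (hv.analyticAt _) hκa).sub (hb.analyticAt z₀)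
  have hfreq : ∃ᶠ z in 𝓝[≠] z₀, v (κ (a z)) - b z = 0 := by
    have ht : Tendsto zs atTop (𝓝[≠] z₀) :=
      tendsto_nhdsWithin_iff.2 ⟨hz, Eventually.of_forall fun j => hne j⟩
    refine ht.frequently (Eventually.frequently ?_)
    filter_upwards [hw.eventually hl] with j hj
    rw [h1 j, hj, h2 j, sub_self]
  have hz0 := (hD.frequently_zero_iff_eventually_zero).1 hfreq
  filter_upwards [hz0, (ha.continuous.tendsto z₀).eventually hr] with z h3 h4
  exact ⟨h4, sub_eq_zero.1 h3⟩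

theorem fst_diff {ψ : ℂ → ℂ × ℂ} (h : Differentiable ℂ ψ) : Differentiable ℂ (fun z => (ψ z).1) :=
  differentiable_fst.comp h

theorem snd_diff {ψ : ℂ → ℂ × ℂ} (h : Differentiable ℂ ψ) : Differentiable ℂ (fun z => (ψ z).2) :=
  differentiable_snd.comp h

theorem deriv_pair {ψ : ℂ → ℂ × ℂ} (h : Differentiable ℂ ψ) (w : ℂ) :
    deriv ψ w = (deriv (fun z => (ψ z).1) w, deriv (fun z => (ψ z).2) w) := by
  have h1 := (fst_diff h w).hasDerivAt.prodMk (snd_diff h w).hasDerivAt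
  exact h1.deriv

/-- two entire curves which meet at a sequence of points, the parameters being convergent -/
theorem germ (ψ φ : ℂ → ℂ × ℂ) (hψ : Differentiable ℂ ψ) (hφ : Differentiable ℂ φ) (zs ws : ℕ → ℂ)
    (z₀ w₀ : ℂ) (hz : Tendsto zs atTop (𝓝 z₀)) (hw : Tendsto ws atTop (𝓝 w₀))
    (hne : ∀ j, zs j ≠ z₀) (h1 : ∀ j, ψ (zs j) = φ (ws j)) (h0 : deriv φ w₀ ≠ 0) :
    ∃ h : ℂ → ℂ, AnalyticAt ℂ h z₀ ∧ ∀ᶠ z in 𝓝 z₀, φ (h z) = ψ z := by
  rw [deriv_pair hφ] at h0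
  by_cases hu : deriv (fun z => (φ z).1) w₀ = 0
  · have hv : deriv (fun z => (φ z).2) w₀ ≠ 0 := by
      intro hv
      apply h0
      rw [hu, hv]
      rfl
    obtain ⟨h, h2, h3⟩ := germ1 _ _ _ _ (snd_diff hφ) (fst_diff hφ) (snd_diff hψ) (fst_diff hψ) zs ws
      z₀ w₀ hz hw hne (fun j => congrArg Prod.snd (h1 j)) (fun j => congrArg Prod.fst (h1 j)) hv
    exact ⟨h, h2, h3.mono fun z hz => Prod.ext hz.2 hz.1⟩
  · obtain ⟨h, h2, h3⟩ := germ1 _ _ _ _ (fst_diff hφ) (snd_diff hφ) (fst_diff hψ) (snd_diff hψ) zs ws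
      z₀ w₀ hz hw hne (fun j => congrArg Prod.fst (h1 j)) (fun j => congrArg Prod.snd (h1 j)) hu
    exact ⟨h, h2, h3.mono fun z hz => Prod.ext hz.1 hz.2⟩

theorem inj1 (u : ℂ → ℂ) (hu : Differentiable ℂ u) (w₀ : ℂ) (hu0 : deriv u w₀ ≠ 0) :
    ∃ ρ : ℝ, 0 < ρ ∧ ∀ w w' : ℂ, ‖w - w₀‖ < ρ → ‖w' - w₀‖ < ρ → u w = u w' → w = w' := by
  have hA : AnalyticAt ℂ u w₀ := hu.analyticAt w₀
  have hl := HasStrictDerivAt.eventually_left_inverse hA.hasStrictDerivAt hu0
  obtain ⟨ρ, hρ, h1⟩ := Metric.eventually_nhds_iff.1 hl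
  refine ⟨ρ, hρ, fun w w' hw hw' he => ?_⟩
  have e1 := h1 (show dist w w₀ < ρ by rwa [dist_eq_norm])
  have e2 := h1 (show dist w' w₀ < ρ by rwa [dist_eq_norm])
  rw [← e1, ← e2, he]

theorem inj (φ : ℂ → ℂ × ℂ) (hφ : Differentiable ℂ φ) (w₀ : ℂ) (h0 : deriv φ w₀ ≠ 0) :
    ∃ ρ : ℝ, 0 < ρ ∧ ∀ w w' : ℂ, ‖w - w₀‖ < ρ → ‖w' - w₀‖ < ρ → φ w = φ w' → w = w' := by
  rw [deriv_pair hφ] at h0
  by_cases hu : deriv (fun z => (φ z).1) w₀ = 0
  · have hv : deriv (fun z => (φ z).2) w₀ ≠ 0 := by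
      intro hv
      apply h0
      rw [hu, hv]
      rfl
    obtain ⟨ρ, hρ, h1⟩ := inj1 _ (snd_diff hφ) w₀ hv
    exact ⟨ρ, hρ, fun w w' hw hw' he => h1 w w' hw hw' (congrArg Prod.snd he)⟩
  · obtain ⟨ρ, hρ, h1⟩ := inj1 _ (fst_diff hφ) w₀ hu
    exact ⟨ρ, hρ, fun w w' hw hw' he => h1 w w' hw hw' (congrArg Prod.fst he)⟩

end MH
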